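import Pool.Agent.KNS.Bas
import Pool.Agent.KNT.ArcI

/-!
# KNS/Arc: isotopy of an arc in the complement of a closed set and of the spectators
-/

open scoped ContDiff Topology
open Set Filter
open Pool.Agent.CSG (stp)
open Pool.Agent.RSG (ex)
open Pool.Agent.KNT
open Pool.Agent.LKF (PEq BdC BdT)

namespace Pool.Agent.KNS

theorem arc_PEq {Z B : Set (ℂ × ℝ)} (hZ : IsClosed Z) (hB : IsClosed B) {k : ℝ → ℝ → ℂ × ℝ} {r : ℝ} (hr : 0 < r) (hr1 : r < 1)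
    (hk : ContDiff ℝ ∞ fun p : ℝ × ℝ => k p.1 p.2)
    (hend : ∀ s ∈ Icc (0 : ℝ) 1, ∀ y ∈ Icc (-1 : ℝ) 1, r ≤ |y| → k s y = k 0 y)
    (hkZ : ∀ s ∈ Icc (0 : ℝ) 1, ∀ y : ℝ, |y| ≤ r → k s y ∉ Z)
    (hkB : ∀ s ∈ Icc (0 : ℝ) 1, ∀ y : ℝ, |y| ≤ r → k s y ∉ B)
    (himm : ∀ s ∈ Icc (0 : ℝ) 1, ∀ y ∈ Icc (-1 : ℝ) 1, deriv (k s) y ≠ 0)
    (hinj : ∀ s ∈ Icc (0 : ℝ) 1, InjOn (k s) (Icc (-1 : ℝ) 1)) :
    PEq (Z ∪ k 0 '' Icc (-1 : ℝ) 1) B (Z ∪ k 1 '' Icc (-1 : ℝ) 1) B := by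
  obtain ⟨F, hF, hFk⟩ := arc_iso (hZ.union hB) hr hr1 hk hend
    (fun s hs y hy h => h.elim (hkZ s hs y hy) (hkB s hs y hy)) himm hinj
  have h1 : F '' (Z ∪ k 0 '' Icc (-1 : ℝ) 1) = Z ∪ k 1 '' Icc (-1 : ℝ) 1 := by
    rw [image_union, hF.image_disj (disjoint_compl_right_iff_subset.2 subset_union_left)]
    congr 1
    rw [image_image]
    exact image_congr hFk
  rw [← h1]
  exact PEq.of_fix hF _ (disjoint_compl_right_iff_subset.2 subset_union_right)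

end Pool.Agent.KNS
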