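import Pool.Agent.KNS.Defs

/-!
# KNS/Bas: elementary properties of `PEq`, `Tri`, `Cfb`
-/

open scoped ContDiff Topology
open Set Filter
open Pool.Agent.KNT
open Pool.Agent.LKF (PEq BdC BdT)

namespace Pool.Agent.KNS

theorem Spc.image {B : Set (ℂ × ℝ)} (h : Spc B) {F : Equiv.Perm (ℂ × ℝ)} (hF : ContDiff ℝ ∞ F) :
    Spc (F '' B) := by
  obtain ⟨c, hc, hB⟩ := h.cov
  refine ⟨h.cpt.image hF.continuous, fun n => F ∘ c n, fun n => hF.comp (hc n), ?_⟩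
  rintro _ ⟨x, hx, rfl⟩
  obtain ⟨n, s, rfl⟩ := mem_iUnion.1 (hB hx)
  exact mem_iUnion.2 ⟨n, s, rfl⟩

theorem U_closed : IsClosed U := isClosed_eq continuous_fst continuous_const

theorem Cfb.closed {L : SL} {B : Set (ℂ × ℝ)} (h : Cfb L B) : IsClosed (Sp L ∪ B) :=
  ((Sp_compact h.conf).union h.spc.cpt).isClosed

theorem Cfb.compact {L : SL} {B : Set (ℂ × ℝ)} (h : Cfb L B) : IsCompact (Sp L ∪ B) :=
  (Sp_compact h.conf).union h.spc.cpt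

theorem cfb_cons {t : ℝ} {Φ : ℝ × ℝ → ℂ × ℝ} {L : SL} {B : Set (ℂ × ℝ)} :
    Cfb ((t, Φ) :: L) B ↔ Strip t Φ ∧ Cfb L B ∧ Disjoint (Φ '' Rec t) (Sp L ∪ B) := by
  constructor
  · rintro ⟨h1, h2, h3, h4⟩
    obtain ⟨a, b, c⟩ := conf_cons.1 h1
    rw [Sp_cons, disjoint_union_left] at h4
    exact ⟨a, ⟨b, h2, h3, h4.2⟩, disjoint_union_right.2 ⟨c, h4.1⟩⟩
  · rintro ⟨a, ⟨b, h2, h3, h4⟩, c⟩
    rw [disjoint_union_right] at c
    refine ⟨conf_cons.2 ⟨a, b, c.1⟩, h2, h3, ?_⟩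
    rw [Sp_cons, disjoint_union_left]
    exact ⟨c.2, h4⟩

theorem Sp_perm {L L' : SL} (h : L.Perm L') : Sp L = Sp L' := by
  have h1 : ∀ {p}, p ∈ L ↔ p ∈ L' := fun {p} => h.mem_iff
  unfold Sp
  simp only [h1]

theorem Cfb.perm {L L' : SL} {B : Set (ℂ × ℝ)} (h : L.Perm L') (hC : Cfb L B) : Cfb L' B :=
  ⟨(Kn_perm h).2 hC.conf, hC.spc, hC.dU, (Sp_perm h) ▸ hC.dS⟩

theorem Cfb.congr {L L' : SL} {B : Set (ℂ × ℝ)} (hC : Cfb L B) (h : Conf L') (hs : Sp L' ⊆ Sp L) : Cfb L' B :=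
  ⟨h, hC.spc, hC.dU, hC.dS.mono_left hs⟩

theorem Kn_disj {L : SL} {B : Set (ℂ × ℝ)} (h : Cfb L B) : Disjoint (Kn L) B := by
  refine disjoint_union_left.2 ⟨h.dU.mono_left sdiff_subset, h.dS.mono_left (Fg_sub h.conf)⟩

theorem PEq.of_eq {A A' B : Set (ℂ × ℝ)} (h : A = A') : PEq A B A' B := by
  subst h
  exact PEq.refl _ _

theorem PEq.of_cd {O : Set (ℂ × ℝ)} {F : Equiv.Perm (ℂ × ℝ)} (h : CD O F) (A B : Set (ℂ × ℝ)) :
    PEq A B (F '' A) (F '' B) :=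
  PEq.diff A B (h.mono (subset_univ _))

theorem PEq.of_fix {O : Set (ℂ × ℝ)} {F : Equiv.Perm (ℂ × ℝ)} (h : CD O F) (A : Set (ℂ × ℝ))
    {B : Set (ℂ × ℝ)} (hB : Disjoint B O) : PEq A B (F '' A) B := by
  have := PEq.of_cd h A B
  rwa [h.image_disj hB] at this

theorem Tri.of_peq {K K' B : Set (ℂ × ℝ)} (h : PEq K B K' B) (h' : Tri K' B) : Tri K B := by
  obtain ⟨F, h1, h2, h3⟩ := h'
  exact ⟨F, h1, h2, h.trans h3⟩

theorem Tri.of_diff {K K' B : Set (ℂ × ℝ)} {F : Equiv.Perm (ℂ × ℝ)} (hF : CD univ F)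
    (h : PEq K B K' (F '' B)) (h' : Tri K' (F '' B)) : Tri K B := by
  obtain ⟨G, h1, h2, h3⟩ := h'
  have e : G '' (F '' B) = (F.trans G) '' B := by
    rw [← image_comp]
    rfl
  rw [e] at h2 h3
  exact ⟨F.trans G, hF.comp h1, h2, h.trans h3⟩

theorem Tri.diff {K B : Set (ℂ × ℝ)} {F : Equiv.Perm (ℂ × ℝ)} (hF : CD univ F)
    (h' : Tri (F '' K) (F '' B)) : Tri K B :=
  Tri.of_diff hF (PEq.diff K B hF) h'

theorem Tri.base {B : Set (ℂ × ℝ)} (h : Disjoint U B) : Tri U B := by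
  refine ⟨Equiv.refl _, CD.one _, ?_, ?_⟩
  · simpa using h
  · have e : (Equiv.refl (ℂ × ℝ)) '' B = B := by simp
    rw [e]
    exact PEq.refl _ _

theorem dom_closure : ∃ C : Set (ℂ × ℝ), IsCompact C ∧ Dom ⊆ C := by
  refine ⟨Metric.closedBall 0 4 ×ˢ Icc (-1) 1, (isCompact_closedBall _ _).prod isCompact_Icc, ?_⟩
  rintro q ⟨h1, h2⟩
  exact ⟨by simpa using h1.le, abs_le.1 h2.le⟩

theorem bdC_of_cont {b : ℂ × ℝ → ℂ × ℝ} (h : Continuous b) : BdC b := by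
  obtain ⟨C, hC, hD⟩ := dom_closure
  obtain ⟨R, hR⟩ := hC.exists_bound_of_continuousOn h.continuousOn
  exact ⟨R, fun q hq => hR q (hD hq)⟩

theorem bdT_of_cont {b : ℝ → ℂ × ℝ → ℂ × ℝ} (h : Continuous fun p : ℝ × (ℂ × ℝ) => b p.1 p.2) : BdT b := by
  obtain ⟨C, hC, hD⟩ := dom_closure
  obtain ⟨R, hR⟩ := (isCompact_Icc.prod hC : IsCompact (Icc (0 : ℝ) 1 ×ˢ C)).exists_bound_of_continuousOn
    h.continuousOn
  exact ⟨R, fun l hl q hq => hR (l, q) ⟨hl, hD hq⟩⟩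

end Pool.Agent.KNS
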