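import Pool.Agent.KNS.Fam
import Pool.Agent.KNT.CMn

/-!
# KNS/CMn: it is enough to treat cores in normal form
-/

open scoped ContDiff Topology
open Set Filter
open Pool.Agent.CSG (stp)
open Pool.Agent.RSG (ex)
open Pool.Agent.KNT
open Pool.Agent.LKF (PEq BdC BdT)

namespace Pool.Agent.KNS

theorem CMn_tail {L : SL} {B : Set (ℂ × ℝ)} {t t' : ℝ} {g k : ℝ → ℂ × ℝ} (ht' : 0 < t') (ht : t' ≤ t) (h : Gd L B t' g k) :
    Gd L B t g k := by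
  refine Gd_reparam (χ := id) contDiff_id rfl rfl ht' (fun x _ => ?_) ?_ h
  · rw [deriv_id]
    exact one_pos
  · simpa using ht

/-- Block C (helper93): it is enough to treat cores in normal form with generic shadow. -/
theorem Ccore_normal {u : ℕ}
    (H : ∀ (c R θ₀ θ₁ δ t : ℝ) (ρ θ h : ℝ → ℝ), NCore c R θ₀ θ₁ δ t ρ θ h → Gen δ (1 - δ) ρ h →
      InjOn (cor ρ θ h) (Icc 0 (1 + t)) → HG u t (cor ρ θ h)) (t : ℝ) (g : ℝ → ℂ × ℝ) : HG u t g := by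
  apply HG_of_Gd
  intro L B g k hL hC hd hg
  clear hg
  have hΛ : IsClosed (Sp L ∪ B) := hC.closed
  have htp := hd.pos
  obtain ⟨ρ, θ, hρ, hθ, hgw, hpos, hneg, hρ0, hρ1, hd0, hd1⟩ := Cexists_polar hd
  obtain ⟨h, hhd⟩ : ∃ h : ℝ → ℝ, h = fun x => (g x).2 := ⟨_, rfl⟩
  have hh : ContDiff ℝ ∞ h := by
    rw [hhd]
    exact contDiff_snd.comp hd.smg
  have hgc : ∀ x ∈ Icc 0 (1 + t), cor ρ θ h x = g x := fun x hx =>
    Prod.ext (hgw x hx).symm (by rw [hhd]; rfl)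
  have m0 : (0 : ℝ) ∈ Icc 0 (1 + t) := ⟨le_rfl, by linarith⟩
  have m1 : (1 : ℝ) ∈ Icc 0 (1 + t) := ⟨zero_le_one, by linarith⟩
  obtain ⟨c, hc⟩ : ∃ c : ℝ, c = (h 0 + h 1) / 2 := ⟨_, rfl⟩
  obtain ⟨R, hR⟩ : ∃ R : ℝ, R = (h 1 - h 0) / 2 := ⟨_, rfl⟩
  have hRne : R ≠ 0 := by
    intro h0
    have e1 : h 0 = h 1 := by linarith
    have e2 : g 0 = g 1 := by
      refine Prod.ext ?_ ?_
      · rw [(hd.off 0 m0).2 (Or.inl rfl), (hd.off 1 m1).2 (Or.inr rfl)]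
      · rw [hhd] at e1
        exact e1
    have := hd.inj m0 m1 e2
    norm_num at this
  obtain ⟨χ, ε, hχ, hε, hχp, hχ0, hχ1, hn0, hn1⟩ :=
    Cexists_chi hρ hρ0 hρ1 hd0 hd1 (abs_pos.2 hRne)
  have hmono : StrictMono χ := strictMono_of_deriv_pos hχp
  obtain ⟨t', ht', ht'ε, ht't⟩ : ∃ t' : ℝ, 0 < t' ∧ t' ≤ ε ∧ χ (1 + t') ≤ 1 + t := by
    have h1 : ∀ᶠ x in 𝓝 (1 : ℝ), χ x < 1 + t :=
      hχ.continuous.continuousAt.eventually (gt_mem_nhds (by rw [hχ1]; linarith))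
    obtain ⟨η, hη, hb⟩ := Metric.eventually_nhds_iff.1 h1
    refine ⟨min ε (η / 2), lt_min hε (by linarith), min_le_left _ _, ?_⟩
    have h2 : 0 < min ε (η / 2) := lt_min hε (by linarith)
    have h3 : min ε (η / 2) ≤ η / 2 := min_le_right _ _
    refine (hb ?_).le
    rw [Real.dist_eq, abs_of_nonneg (by linarith)]
    linarith
  have hmem : ∀ x ∈ Icc 0 (1 + t'), χ x ∈ Icc 0 (1 + t) := by
    intro x hx
    refine ⟨?_, ?_⟩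
    · rw [← hχ0]
      exact hmono.monotone hx.1
    · exact (hmono.monotone hx.2).trans ht't
  refine Gd_reparam hχ hχ0 hχ1 ht' (fun x _ => hχp x) ht't ?_
  obtain ⟨k', hk'⟩ : ∃ k' : ℝ → ℂ × ℝ, k' = k ∘ χ := ⟨_, rfl⟩
  rw [← hk']
  have hgc' : ∀ x ∈ Icc 0 (1 + t'), cor (ρ ∘ χ) (θ ∘ χ) (h ∘ χ) x = (g ∘ χ) x := by
    intro x hx
    have := hgc (χ x) (hmem x hx)
    simpa [cor] using this
  have hd2 : Dat (Sp L ∪ B) t' (cor (ρ ∘ χ) (θ ∘ χ) (h ∘ χ)) k' := by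
    rw [hk']
    exact Cdat_congr (Cdat_reparam hd hχ hχ0 hχ1 ht' hχp ht't)
      (Ccor_smooth (hρ.comp hχ) (hθ.comp hχ) (hh.comp hχ)) hgc'
  have hP : PreN c R ε t' (ρ ∘ χ) (θ ∘ χ) (h ∘ χ) := by
    refine ⟨hρ.comp hχ, hθ.comp hχ, hh.comp hχ, hRne, hε, ht', ht'ε, hn0, hn1, ?_, ?_, ?_⟩
    · intro x hx
      refine hpos _ ⟨?_, ?_⟩
      · rw [← hχ0]
        exact hmono hx.1
      · rw [← hχ1]
        exact hmono hx.2
    · simp only [Function.comp_apply, hχ0]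
      linarith
    · simp only [Function.comp_apply, hχ1]
      linarith
  obtain ⟨δ, t₂, ρ₂, θ₂, h₂, G, ht₂, hN, hF, hG0, hG1⟩ := Cfeet hP hΛ hd2
  have ht₂p := hN.t_pos
  refine CMn_tail ht₂p ht₂ ?_
  refine Gd_congr (g' := G 0) (k' := k') (fun x hx => ?_) (fun _ _ => rfl) ?_
  · rw [hG0 x hx, hgc' x ⟨hx.1, by linarith [hx.2]⟩]
  refine Gd_fam (k := fun _ => k') hF ?_
  refine Gd_congr (g' := cor ρ₂ θ₂ h₂) (k' := k') (fun x hx => (hG1 x hx).symm) (fun _ _ => rfl) ?_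
  have hd3 : Dat (Sp L ∪ B) t₂ (cor ρ₂ θ₂ h₂) k' :=
    Cdat_congr (hF.dat 1 (by norm_num)) (Ccor_smooth hN.smρ hN.smθ hN.smh) (fun x hx => (hG1 x hx).symm)
  obtain ⟨t₃, ht₃⟩ : ∃ t₃ : ℝ, t₃ = min t₂ (δ / 8) := ⟨_, rfl⟩
  have ht₃p : 0 < t₃ := by
    rw [ht₃]
    exact lt_min ht₂p (by linarith [hN.δ_pos])
  have ht₃2 : t₃ ≤ t₂ := by
    rw [ht₃]
    exact min_le_left _ _
  have ht₃δ : t₃ ≤ δ / 8 := by
    rw [ht₃]
    exact min_le_right _ _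
  refine CMn_tail ht₃p ht₃2 ?_
  have hN3 : NCore c R ((θ ∘ χ) 0) ((θ ∘ χ) 1) δ t₃ ρ₂ θ₂ h₂ :=
    ⟨hN.smρ, hN.smθ, hN.smh, hN.R_ne, hN.δ_pos, hN.δ_lt, ht₃p, by linarith [hN.t_le], hN.foot₀,
      hN.foot₁, hN.mid⟩
  have hd4 := Cdat_tail hd3 ht₃p ht₃2
  obtain ⟨e₁, he₁, h₁⟩ := Cgen_fam hN3 hΛ hd4
  obtain ⟨e₂, he₂, h₂'⟩ := Cgen_ncore hN3
  obtain ⟨e₃, he₃, h₃⟩ := Cgen_gen hN3
  obtain ⟨v, hv, hvG⟩ := Bexists_gen hN.smρ hN.smh (lt_min he₁ (lt_min he₂ he₃))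
  have hF2 := h₁ v fun i => (hv i).trans_le (min_le_left _ _)
  have e0 : cor (rg δ ρ₂ v 0) θ₂ (hg δ h₂ v 0) = cor ρ₂ θ₂ h₂ := by
    funext x
    simp [cor, rg, hg]
  have h4 := Gd_fam (L := L) (B := B) (t := t₃) (g := fun l => cor (rg δ ρ₂ v l) θ₂ (hg δ h₂ v l))
    (k := fun _ => k') hF2
  rw [← e0]
  refine h4 ?_
  refine Gd_of_HG ?_ hL k'
  refine H c R _ _ (δ / 2) t₃ _ _ _ (h₂' v (fun i => (hv i).trans_le ((min_le_right _ _).trans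
    (min_le_left _ _))) t₃ ht₃p ht₃δ) ?_ ?_
  · exact h₃ v (fun i => (hv i).trans_le ((min_le_right _ _).trans (min_le_right _ _))) (hvG _ _)
  · exact (hF2.dat 1 (by norm_num)).inj

end Pool.Agent.KNS
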