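import Pool.Agent.KNS.Dat
import Pool.Agent.KNT.CrsM

/-!
# KNS/Crs: regular homotopy of the middle part of the core
-/

open scoped ContDiff Topology
open Set Filter
open Pool.Agent.CSG (stp)
open Pool.Agent.RSG (ex)
open Pool.Agent.KNT
open Pool.Agent.LKF (PEq BdC BdT)

namespace Pool.Agent.KNS

theorem Gd_cross {L : SL} {B : Set (ℂ × ℝ)} {t a b : ℝ} {g k : ℝ → ℝ → ℂ × ℝ} (h : CrossFam (Sp L ∪ B) t a b g k)
    (h1 : Gd L B t (g 1) (k 1)) : Gd L B t (g 0) (k 0) := by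
  intro Φ c hc hC hg hk
  have hLB : Cfb L B := (cfb_cons.1 hC).2.1
  have hL : Conf L := hLB.conf
  have ht : 0 < t := h.dat0.pos
  obtain ⟨Sig, hs1, hs2, -⟩ := exists_Sig ht
  have ha := h.a_pos
  have hab := h.a_lt
  have hb := h.b_lt
  obtain ⟨X, x1, x2, x3, x4, x5, x6, x7⟩ := exists_X (a₂ := a / 2) (a := a) (b := b) (b₂ := (b + 1) / 2)
    (by linarith) hab (by linarith)
  have hS : IsSX t (a / 2) a b ((b + 1) / 2) Sig X :=
    ⟨by linarith, by linarith, hab, by linarith, by linarith, hs1, hs2, x1, x2, x3, x4, x5, x6, x7⟩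
  obtain ⟨e₁, p1, -, q1⟩ := kn_lin h.dat0 hc hC hg hk
  obtain ⟨e₂, p2, -, q2⟩ := cfb_lin h.dat1 hLB
  obtain ⟨e₃, p3, q3⟩ := crs_tubes h hS
  obtain ⟨e₄, p4, q4⟩ := crs_off hLB.closed h hS
  obtain ⟨e₅, p5, q5⟩ := crs_rest h hS
  obtain ⟨e, he0, he1, he2, he3, he4, he5⟩ : ∃ e : ℝ, 0 < e ∧ e ≤ e₁ ∧ e ≤ e₂ ∧ e ≤ e₃ ∧ e ≤ e₄ ∧ e ≤ e₅ := by
    refine ⟨min e₁ (min e₂ (min e₃ (min e₄ e₅))), ?_, ?_, ?_, ?_, ?_, ?_⟩
    · exact lt_min p1 (lt_min p2 (lt_min p3 (lt_min p4 p5)))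
    · exact min_le_left _ _
    · exact (min_le_right _ _).trans (min_le_left _ _)
    · exact (min_le_right _ _).trans ((min_le_right _ _).trans (min_le_left _ _))
    · exact (min_le_right _ _).trans ((min_le_right _ _).trans ((min_le_right _ _).trans (min_le_left _ _)))
    · exact (min_le_right _ _).trans ((min_le_right _ _).trans ((min_le_right _ _).trans (min_le_right _ _)))
  have A := (q1 e he0 he1).2
  have k0 := crs_kn h hS L e (l := 0) (Or.inl rfl)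
  have k1 := crs_kn h hS L e (l := 1) (Or.inr rfl)
  have T := q3 e he0 he3
  have hdis : ∀ l ∈ Icc (0 : ℝ) 1, Disjoint
      (Zr (Lin (g 0) (k 0) e) L ∪ Rst t (a / 2) ((b + 1) / 2) (Lin (g 0) (k 0) e))
      (bT (g l) (k l) Sig X e '' Dom) := by
    intro l hl
    rw [disjoint_union_left]
    refine ⟨?_, q5 e he0 he5 l hl⟩
    rw [Set.disjoint_right]
    rintro _ ⟨q, hq, rfl⟩ hz
    obtain ⟨m1, m2⟩ := q4 e he0 he4 l hl q hq
    rcases hz with hz | hz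
    · exact m1 hz.1
    · exact m2 (Or.inl (Fg_sub hL hz))
  have hdisB : ∀ l ∈ Icc (0 : ℝ) 1, Disjoint B (bT (g l) (k l) Sig X e '' Dom) := by
    intro l hl
    rw [Set.disjoint_right]
    rintro _ ⟨q, hq, rfl⟩ hz
    exact (q4 e he0 he4 l hl q hq).2 (Or.inr hz)
  have hbd : BdT (fun l => bT (g l) (k l) Sig X e) := by
    obtain ⟨R, hR⟩ := (isCompact_Icc.prod ((isCompact_closedBall (0 : ℂ) (4 * e)).prod
      (isCompact_Icc (a := a / 2) (b := (b + 1) / 2))) :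
      IsCompact (Icc (0 : ℝ) 1 ×ˢ (Metric.closedBall (0 : ℂ) (4 * e) ×ˢ Icc (a / 2) ((b + 1) / 2)))).exists_bound_of_continuousOn
      (CrsT_smooth h.smg h.smk).continuous.continuousOn
    refine ⟨R, fun l hl q hq => ?_⟩
    have h1 := CrsT_sTn ht hS he0 hq
    have h2 := CrsT_X hS hq
    exact hR (l, sT Sig X e q) ⟨hl, by simpa using h1, Ioo_subset_Icc_self h2⟩
  have R := PEq.rib (b := fun l => bT (g l) (k l) Sig X e) T hbd hdis hdisB
  have R' : PEq (Kn ((t, Lin (g 0) (k 0) e) :: L)) B (Kn ((t, Lin (g 1) (k 1) e) :: L)) B := by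
    rw [k0, k1]; exact R
  have C := h1 (Lin (g 1) (k 1) e) e he0 (q2 e he0 he2)
    (fun x _ => by unfold Lin; simp) (fun x _ => nrm_lin _ _ _ _)
  exact Tri.of_peq A (Tri.of_peq R' C)

end Pool.Agent.KNS
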