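import Pool.Agent.KNS.Lin
import Pool.Agent.KNT.DatI

/-!
# KNS/Dat: `Gd`, `HG`
-/

open scoped ContDiff Topology
open Set Filter
open Pool.Agent.CSG (stp)
open Pool.Agent.RSG (ex)
open Pool.Agent.KNT
open Pool.Agent.LKF (PEq BdC BdT)

namespace Pool.Agent.KNS

theorem dat_of_cfb {t : ℝ} {Φ : ℝ × ℝ → ℂ × ℝ} {L : SL} {B : Set (ℂ × ℝ)} (h : Cfb ((t, Φ) :: L) B) :
    Dat (Sp L ∪ B) t (fun x => Φ (x, 0)) (nrm Φ) := by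
  have h0 := dat_of_conf h.conf
  obtain ⟨-, -, hd⟩ := cfb_cons.1 h
  refine ⟨h0.pos, h0.smg, h0.smk, h0.inj, h0.off, h0.imm, h0.base, h0.tip, fun x hx hx2 => ?_⟩
  exact Set.disjoint_left.1 hd ⟨(x, 0), ⟨hx, by simp⟩, rfl⟩ hx2

theorem Gd_congr {L : SL} {B : Set (ℂ × ℝ)} {t : ℝ} {g k g' k' : ℝ → ℂ × ℝ} (hg : ∀ x ∈ Icc 0 (1 + t), g' x = g x)
    (hk : ∀ x ∈ Icc 0 (1 + t), k' x = k x) (h : Gd L B t g' k') : Gd L B t g k := by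
  intro Φ c hc hC h1 h2
  refine h Φ c hc hC (fun x hx => (h1 x hx).trans (hg x hx).symm) (fun x hx => ?_)
  rw [h2 x hx, hk x hx]

theorem HG_of_Gd {u : ℕ} {t : ℝ} {g : ℝ → ℂ × ℝ}
    (h : ∀ (L : SL) (B : Set (ℂ × ℝ)) (g' k : ℝ → ℂ × ℝ), L.length = u → Cfb L B →
      Dat (Sp L ∪ B) t g' k → (∀ x ∈ Icc 0 (1 + t), g' x = g x) → Gd L B t g' k) : HG u t g := by
  intro Φ L B hL hC hg
  have hd := dat_of_cfb hC
  exact h L B (fun x => Φ (x, 0)) (nrm Φ) hL (cfb_cons.1 hC).2.1 hd hg Φ 1 one_pos hC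
    (fun x _ => rfl) (fun x _ => (one_smul ℝ _).symm)

theorem Gd_of_HG {u : ℕ} {t : ℝ} {g : ℝ → ℂ × ℝ} (h : HG u t g) {L : SL} {B : Set (ℂ × ℝ)} (hL : L.length = u)
    (k : ℝ → ℂ × ℝ) : Gd L B t g k := by
  intro Φ c _ hC hg _
  exact h Φ L B hL hC hg

theorem Gd_neg {L : SL} {B : Set (ℂ × ℝ)} {t : ℝ} {g k : ℝ → ℂ × ℝ} (h : Gd L B t g (fun x => -k x)) : Gd L B t g k := by
  intro Φ c hc hC hg hk
  obtain ⟨h1, h2⟩ := flip_Cfb hC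
  rw [← h2]
  refine h _ c hc h1 (fun x hx => ?_) (fun x hx => ?_)
  · simpa using hg x hx
  · have h3 : nrm (fun q : ℝ × ℝ => Φ (q.1, -q.2)) x = -nrm Φ x := by
      unfold nrm
      have h4 := deriv_comp_neg (f := fun y : ℝ => Φ (x, y)) (x := (0 : ℝ))
      rw [neg_zero] at h4
      exact h4
    rw [h3, hk x hx, smul_neg]

theorem Gd_reparam {L : SL} {B : Set (ℂ × ℝ)} {t t' : ℝ} {g k : ℝ → ℂ × ℝ} {χ : ℝ → ℝ} (hχ : ContDiff ℝ ∞ χ) (h0 : χ 0 = 0)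
    (h1 : χ 1 = 1) (ht' : 0 < t') (hd : ∀ x ∈ Icc 0 (1 + t'), 0 < deriv χ x) (ht : χ (1 + t') ≤ 1 + t)
    (h : Gd L B t' (g ∘ χ) (k ∘ χ)) : Gd L B t g k := by
  have hm := DatI_mem hχ h0 hd ht
  have hrep : IsRep t t' χ id := by
    refine ⟨hχ, contDiff_id, ht', h0, h1, hd, ht, rfl, fun y _ => ?_, fun y hy => ?_⟩
    · rw [deriv_id]
      exact one_pos
    · exact abs_le.2 ⟨hy.1, hy.2⟩
  intro Φ c hc hC hg hk
  refine Tri.of_peq (rep_PEq hrep hC) (h (Rpm χ id Φ) c hc (cfb_rep hrep hC) (fun x hx => ?_)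
    (fun x hx => ?_))
  · exact hg (χ x) (hm x hx)
  · exact hk (χ x) (hm x hx)

theorem HG_tail {u : ℕ} {t t' : ℝ} {g : ℝ → ℂ × ℝ} (ht' : 0 < t') (ht : t' ≤ t) (h : HG u t' g) :
    HG u t g := by
  intro Φ L B hL hC hg
  obtain ⟨h1, h2⟩ := thin_PEq ht' ht one_pos le_rfl hC
  refine Tri.of_peq h2 (h _ L B hL h1 (fun x hx => ?_))
  have h3 : thin 1 Φ (x, 0) = Φ (x, 0) := by simp [thin]
  rw [h3]
  exact hg x ⟨hx.1, hx.2.trans (by linarith)⟩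

end Pool.Agent.KNS
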