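import Pool.Agent.KNT.EngI
import Pool.Agent.LKF.Def3

/-!
# KNS/Defs: the engine of KNT with spectators

`B` is a set of spectators (the other components of a link), a compact set contained in a countable union of smooth
curves.  `Cfb L B`: configuration of strips, `B` is disjoint from `U` and from the strips.
`Tri K B`: by moves of `K` which only drag `B` by diffeomorphisms, `K` becomes `U`.
`HG u t g`, `Gd L B t g k`: as in KNT, for all `B` (`HG`), for given `B` (`Gd`).
-/

open scoped ContDiff Topology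
open Set Filter
open Pool.Agent.KNT (CD U SL Sp Kn Conf Strip Rec Zr bas gr nrm)
open Pool.Agent.LKF (PEq)

namespace Pool.Agent.KNS

/-- spectators -/
structure Spc (B : Set (ℂ × ℝ)) : Prop where
  cpt : IsCompact B
  cov : ∃ c : ℕ → ℝ → ℂ × ℝ, (∀ n, ContDiff ℝ ∞ (c n)) ∧ B ⊆ ⋃ n, range (c n)

/-- configurations of strips with spectators -/
structure Cfb (L : SL) (B : Set (ℂ × ℝ)) : Prop where
  conf : Conf L
  spc : Spc B
  dU : Disjoint U B
  dS : Disjoint (Sp L) B

/-- `K` becomes `U` by moves of `K` which drag the spectators. -/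
def Tri (K B : Set (ℂ × ℝ)) : Prop :=
  ∃ F : Equiv.Perm (ℂ × ℝ), CD univ F ∧ Disjoint U (F '' B) ∧ PEq K B U (F '' B)

/-- All knots with a finger along the core `g`, `u` other fingers, and spectators, are trivial. -/
def HG (u : ℕ) (t : ℝ) (g : ℝ → ℂ × ℝ) : Prop :=
  ∀ (Φ : ℝ × ℝ → ℂ × ℝ) (L : SL) (B : Set (ℂ × ℝ)), L.length = u → Cfb ((t, Φ) :: L) B →
    (∀ x ∈ Icc 0 (1 + t), Φ (x, 0) = g x) → Tri (Kn ((t, Φ) :: L)) B

/-- All knots with the other fingers `L`, the spectators `B`, and a finger along a strip with core `g` and transversal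
derivative proportional to `k` are trivial. -/
def Gd (L : SL) (B : Set (ℂ × ℝ)) (t : ℝ) (g k : ℝ → ℂ × ℝ) : Prop :=
  ∀ (Φ : ℝ × ℝ → ℂ × ℝ) (c : ℝ), 0 < c → Cfb ((t, Φ) :: L) B →
    (∀ x ∈ Icc 0 (1 + t), Φ (x, 0) = g x) → (∀ x ∈ Icc 0 (1 + t), nrm Φ x = c • k x) →
      Tri (Kn ((t, Φ) :: L)) B

end Pool.Agent.KNS
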