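import Pool.Agent.KNS.Dat
import Pool.Agent.KNT.MapI

/-!
# KNS/Map: images of configurations under diffeomorphisms
-/

open scoped ContDiff Topology
open Set Filter
open Pool.Agent.CSG (stp)
open Pool.Agent.RSG (ex)
open Pool.Agent.KNT
open Pool.Agent.LKF (PEq BdC BdT)

namespace Pool.Agent.KNS

theorem cfb_mp {L : SL} {B : Set (ℂ × ℝ)} (h : Cfb L B) {F : Equiv.Perm (ℂ × ℝ)} (hF : CD univ F) (hU : F '' U = U) :
    Cfb (mp F L) (F '' B) := by
  refine ⟨MapI_conf h.conf hF hU, h.spc.image hF.smooth, ?_, ?_⟩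
  · rw [← hU]
    exact (disjoint_image_iff F.injective).2 h.dU
  · rw [Sp_mp]
    exact (disjoint_image_iff F.injective).2 h.dS

theorem HG_map {u : ℕ} {t : ℝ} {g : ℝ → ℂ × ℝ} {F : Equiv.Perm (ℂ × ℝ)} (hF : CD univ F)
    (hU : F '' U = U) (h : HG u t (F ∘ g)) : HG u t g := by
  intro Φ L B hL hc hg
  have h1 : Cfb ((t, F ∘ Φ) :: mp F L) (F '' B) := cfb_mp hc hF hU
  have h2 := h (F ∘ Φ) (mp F L) (F '' B) (by unfold mp; rw [List.length_map]; exact hL) h1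
    (fun x hx => by show F (Φ (x, 0)) = F (g x); rw [hg x hx])
  have h3 : Kn ((t, F ∘ Φ) :: mp F L) = F '' Kn ((t, Φ) :: L) := Kn_mp hc.conf hU
  rw [h3] at h2
  exact Tri.diff hF h2

theorem Gd_map {L : SL} {B : Set (ℂ × ℝ)} {t : ℝ} {g k : ℝ → ℂ × ℝ} {F : Equiv.Perm (ℂ × ℝ)} (hF : CD univ F)
    (hU : F '' U = U) (h : Gd (mp F L) (F '' B) t (F ∘ g) (fun x => fderiv ℝ F (g x) (k x))) :
    Gd L B t g k := by
  intro Φ c hc0 hc hg hk
  have hn : (∞ : WithTop ℕ∞) ≠ 0 := by simp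
  have h1 : Cfb ((t, F ∘ Φ) :: mp F L) (F '' B) := cfb_mp hc hF hU
  have hs : Strip t Φ := hc.conf.1 (t, Φ) (List.mem_cons_self)
  have h2 := h (F ∘ Φ) c hc0 h1
    (fun x hx => by show F (Φ (x, 0)) = F (g x); rw [hg x hx])
    (fun x hx => by
      have hd : HasDerivAt (fun y : ℝ => Φ (x, y)) (nrm Φ x) 0 := by
        have h3 : DifferentiableAt ℝ (fun y : ℝ => Φ (x, y)) 0 := by
          have h4 : ContDiff ℝ ∞ (fun y : ℝ => Φ (x, y)) :=
            hs.smooth.comp (contDiff_const.prodMk contDiff_id)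
          exact h4.differentiable hn 0
        exact h3.hasDerivAt
      have hFd : HasFDerivAt F (fderiv ℝ F (Φ (x, 0))) (Φ (x, 0)) :=
        (hF.smooth.differentiable hn _).hasFDerivAt
      have h5 : HasDerivAt (fun y : ℝ => F (Φ (x, y))) (fderiv ℝ F (Φ (x, 0)) (nrm Φ x)) 0 :=
        HasFDerivAt.comp_hasDerivAt (f := fun y : ℝ => Φ (x, y)) 0 hFd hd
      have h6 : nrm (F ∘ Φ) x = fderiv ℝ F (Φ (x, 0)) (nrm Φ x) := h5.deriv
      rw [h6, hk x hx, map_smul, hg x hx])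
  have h3 : Kn ((t, F ∘ Φ) :: mp F L) = F '' Kn ((t, Φ) :: L) := Kn_mp hc.conf hU
  rw [h3] at h2
  exact Tri.diff hF h2

end Pool.Agent.KNS
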