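import Pool.Agent.KNS.Dat
import Pool.Agent.KNT.ThnI

/-!
# KNS/Thn: the other fingers may be made thin
-/

open scoped ContDiff Topology
open Set Filter
open Pool.Agent.CSG (stp)
open Pool.Agent.RSG (ex)
open Pool.Agent.KNT
open Pool.Agent.LKF (PEq BdC BdT)

namespace Pool.Agent.KNS

theorem Sp_thin {L L' : SL} {e : ℝ} (he : 0 < e) (he1 : e ≤ 1) (h : Conf (L' ++ L)) :
    Sp (L' ++ L.map fun p => (p.1, thin e p.2)) ⊆ Sp (L' ++ L) := by
  intro x hx
  obtain ⟨p, hp, hx⟩ := mem_iUnion₂.1 hx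
  rcases List.mem_append.1 hp with hp | hp
  · exact mem_iUnion₂.2 ⟨p, List.mem_append_left _ hp, hx⟩
  · obtain ⟨q, hq, rfl⟩ := List.mem_map.1 hp
    exact mem_iUnion₂.2 ⟨q, List.mem_append_right _ hq,
      (ThnI_strip he he1 (h.1 q (List.mem_append_right _ hq))).2 hx⟩

theorem cfb_thin {L L' : SL} {B : Set (ℂ × ℝ)} {e : ℝ} (he : 0 < e) (he1 : e ≤ 1) (h : Cfb (L' ++ L) B) :
    Cfb (L' ++ L.map fun p => (p.1, thin e p.2)) B :=
  h.congr (conf_thin he he1 h.conf) (Sp_thin he he1 h.conf)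

theorem kn_thinL {L L' : SL} {B : Set (ℂ × ℝ)} {e : ℝ} (he : 0 < e) (he1 : e ≤ 1) (h : Cfb (L' ++ L) B) :
    PEq (Kn (L' ++ L)) B (Kn (L' ++ L.map fun p => (p.1, thin e p.2))) B := by
  induction L generalizing L' with
  | nil => exact PEq.refl _ _
  | cons p L ih =>
    obtain ⟨t, Φ⟩ := p
    have hp1 : (L' ++ (t, Φ) :: L).Perm ((t, Φ) :: (L' ++ L)) := List.perm_middle
    have e1 := (Kn_perm hp1).1
    have hc1 := h.perm hp1
    have ht : 0 < t := ((hc1.conf.1 (t, Φ) List.mem_cons_self)).pos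
    obtain ⟨hc2, hl⟩ := thin_PEq ht le_rfl he he1 hc1
    have hp2 : ((t, thin e Φ) :: (L' ++ L)).Perm ((L' ++ [(t, thin e Φ)]) ++ L) := by
      rw [List.append_assoc]
      exact (List.perm_middle (a := (t, thin e Φ)) (l₁ := L') (l₂ := L)).symm
    have e2 := (Kn_perm hp2).1
    have h3 := ih (L' := L' ++ [(t, thin e Φ)]) (hc2.perm hp2)
    rw [List.map_cons, e1]
    refine hl.trans ?_
    rw [e2]
    rw [List.append_assoc L' [(t, thin e Φ)] (List.map _ L)] at h3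
    exact h3

theorem Gd_thinL {L : SL} {B : Set (ℂ × ℝ)} {t e : ℝ} {g k : ℝ → ℂ × ℝ} (he : 0 < e) (he1 : e ≤ 1)
    (h : Gd (L.map fun p => (p.1, thin e p.2)) B t g k) : Gd L B t g k := by
  intro Φ c hc hC hg hk
  have h1 : Cfb ([(t, Φ)] ++ L) B := hC
  exact Tri.of_peq (kn_thinL he he1 h1) (h Φ c hc (cfb_thin he he1 h1) hg hk)

end Pool.Agent.KNS
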