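import Pool.Agent.KNS.Dsp
import Pool.Agent.KNS.Map
import Pool.Agent.KNS.Thn
import Pool.Agent.KNS.Crs
import Pool.Agent.KNT.Dmn

/-!
# KNS/Dmn: block D
-/

open scoped ContDiff Topology
open Set Filter
open Pool.Agent.CSG (stp)
open Pool.Agent.RSG (ex)
open Pool.Agent.KNT
open Pool.Agent.LKF (PEq BdC BdT)

namespace Pool.Agent.KNS

theorem cross_HG' {u : ℕ} {c R θ₀ θ₁ δ t : ℝ} {ρ θ θ' h : ℝ → ℝ} (hn : NCore c R θ₀ θ₁ δ t ρ θ h)
    (hg : Gen δ (1 - δ) ρ h) (hθ' : ContDiff ℝ ∞ θ')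
    (h0 : ∀ x ≤ δ / 2, θ' x = θ x) (h1 : ∀ x, 1 - δ / 2 ≤ x → θ' x = θ x)
    (hi : InjOn (cor ρ θ h) (Icc 0 (1 + t))) (hi' : InjOn (cor ρ θ' h) (Icc 0 (1 + t)))
    (H : HG u t (cor ρ θ' h)) : HG u t (cor ρ θ h) := by
  refine HG_of_Gd fun L B g' k hL hC hD hgg => ?_
  have hcs : ContDiff ℝ ∞ (cor ρ θ h) := Dmn_cor_smooth hn.smρ hn.smθ hn.smh
  have hD0 : Dat (Sp L ∪ B) t (cor ρ θ h) k := Ddt_congr hD hcs hgg
  have ht : 0 < t := hD.pos
  refine Gd_congr (g' := cor ρ θ h) (fun x hx => (hgg x hx).symm) (fun x _ => rfl) ?_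
  -- D1: the other fingers are moved off the circles over the double points
  obtain ⟨F, r, hF, hr, hFU, hFg, hFc, hFB⟩ := Dsp_moveB hC hcs.continuous hD0.avoid (Dsh_fin hn hg)
    (ρ := ρ) (h := h) (fun y hy => by
      have := Dsh_in hn hy
      have h4 := hn.δ_lt
      exact Dsh_pos hn (hn.δ_pos.trans this.1) (by have := this.2; linarith [hn.δ_pos]))
  have hFUU : F '' U = U := Ddt_U hr hFU
  refine Gd_map hF hFUU ?_
  have hgF : ∀ x ∈ Icc 0 (1 + t), (F ∘ cor ρ θ h) x = cor ρ θ h x := fun x hx => (hFg x hx).self_of_nhds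
  have hkF : ∀ x ∈ Icc 0 (1 + t), fderiv ℝ F (cor ρ θ h x) (k x) = k x := by
    intro x hx
    have h5 : (F : ℂ × ℝ → ℂ × ℝ) =ᶠ[𝓝 (cor ρ θ h x)] id := hFg x hx
    rw [h5.fderiv_eq, fderiv_id]
    rfl
  refine Gd_congr (g' := cor ρ θ h) (k' := k) (fun x hx => (hgF x hx).symm) (fun x hx => (hkF x hx).symm) ?_
  have hCB1 : Cfb (mp F L) (F '' B) := cfb_mp hC hF hFUU
  have hC1 : Conf (mp F L) := hCB1.conf
  have hD1 : Dat (Sp (mp F L) ∪ F '' B) t (cor ρ θ h) k := by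
    rw [Ddt_Sp, ← image_union]
    refine ⟨hD0.pos, hD0.smg, hD0.smk, hD0.inj, hD0.off, hD0.imm, hD0.base, hD0.tip, ?_⟩
    rintro x hx ⟨q, hq, hqx⟩
    have h6 := hgF x hx
    have h7 : q = cor ρ θ h x := F.injective (hqx.trans h6.symm)
    exact hD0.avoid x hx (h7 ▸ hq)
  -- D2: thin
  have hCcl : IsClosed {q : ℂ × ℝ | ∃ y ∈ Adb δ ρ h, ∃ φ : ℝ, q = ((ρ y : ℂ) * ex φ, h y)} := by
    have h8 : {q : ℂ × ℝ | ∃ y ∈ Adb δ ρ h, ∃ φ : ℝ, q = ((ρ y : ℂ) * ex φ, h y)} =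
        ⋃ y ∈ Adb δ ρ h, {q : ℂ × ℝ | ‖q.1‖ = ρ y ∧ q.2 = h y} := by
      ext q
      simp only [mem_setOf_eq, mem_iUnion, exists_prop]
      constructor
      · rintro ⟨y, hy, φ, rfl⟩
        refine ⟨y, hy, ?_, rfl⟩
        have := Dsh_in hn hy
        have h9 : 0 < ρ y := Dsh_pos hn (hn.δ_pos.trans this.1) (by have := this.2; linarith [hn.δ_pos])
        show ‖(ρ y : ℂ) * ex φ‖ = ρ y
        rw [norm_mul, Complex.norm_real, Real.norm_eq_abs, abs_of_pos h9]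
        have : ‖ex φ‖ = 1 := by
          unfold Pool.Agent.RSG.ex
          exact Complex.norm_exp_ofReal_mul_I _
        rw [this, mul_one]
      · rintro ⟨y, hy, hq1, hq2⟩
        refine ⟨y, hy, q.1.arg / (2 * Real.pi), ?_⟩
        ext1
        · show q.1 = (ρ y : ℂ) * ex _
          unfold Pool.Agent.RSG.ex
          rw [← hq1]
          have : 2 * Real.pi * (q.1.arg / (2 * Real.pi)) = q.1.arg := by
            field_simp
          rw [this]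
          exact (Complex.norm_mul_exp_arg_mul_I q.1).symm
        · exact hq2
    rw [h8]
    refine (Dsh_fin hn hg).isClosed_biUnion fun y _ => ?_
    exact (isClosed_eq (continuous_fst.norm) continuous_const).inter (isClosed_eq continuous_snd continuous_const)
  obtain ⟨e, he, he1, hdis⟩ := exists_thin_disjoint hC1 hCcl (by
    intro p hp x hx
    obtain ⟨p', hp', rfl⟩ := List.mem_map.1 hp
    rintro ⟨y, hy, φ, hq⟩
    exact hFc p' hp' x hx y hy φ hq)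
  refine Gd_thinL he he1 ?_
  set L2 : SL := (mp F L).map fun p => (p.1, thin e p.2) with hL2
  have hD2 : Dat (Sp L2 ∪ F '' B) t (cor ρ θ h) k := Ddt_mono hD1 (union_subset_union_left _ (Ddt_thin he he1))
  have hcont : ∀ p ∈ L2, Continuous p.2 := by
    intro p hp
    obtain ⟨p', hp', rfl⟩ := List.mem_map.1 hp
    have h10 := (hC1.1 p' hp').smooth.continuous
    show Continuous (thin e p'.2)
    unfold thin
    exact h10.comp (continuous_fst.prodMk (continuous_const.mul continuous_snd))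
  -- D3: windows
  obtain ⟨η, hη, hW, hWc⟩ := Dfe_eta hn hg ((Ddt_compact hcont).union hCB1.spc.cpt) (fun y hy φ hq =>
    hq.elim (fun hq => Set.disjoint_left.1 hdis hq ⟨y, hy, φ, rfl⟩) (hFB y hy φ))
  -- D4: the rotation
  obtain ⟨f, Bf, hf, hfx, hf0, hfB⟩ := Dfe_f hn hg hθ' h0 h1 hη
  have hr0 := Dsh_r0 hn
  obtain ⟨F2, hF2, hF2e, hF2U⟩ := Drt_perm hf hr0.1 hf0 hfB
  refine Gd_map hF2 (Ddt_U hr0.1 hF2U) ?_
  have hD3 := Ddt_map hD2 hF2 hr0.1 hF2U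
  rw [image_union, ← Ddt_Sp] at hD3
  set ψ : ℝ → ℝ := fun x => θ x + f (ρ x, h x) with hψd
  have hψ : ContDiff ℝ ∞ ψ := hn.smθ.add (hf.comp (hn.smρ.prodMk hn.smh))
  have hgψ : ∀ x ∈ Icc 0 (1 + t), (F2 ∘ cor ρ θ h) x = cor ρ ψ h x := by
    intro x hx
    refine Drt_cor hf0 hF2e ?_
    rcases le_or_gt x 1 with hx1 | hx1
    · left
      rcases eq_or_lt_of_le hx.1 with h11 | h11
      · exact ((Dsh_zero hn hx).2 (Or.inl h11.symm)).ge
      · rcases eq_or_lt_of_le hx1 with h12 | h12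
        · exact ((Dsh_zero hn hx).2 (Or.inr h12)).ge
        · exact (Dsh_pos hn h11 h12).le
    · right
      exact Dsh_tail hn ⟨hx1.le, hx.2⟩
  have hψs : ContDiff ℝ ∞ (cor ρ ψ h) := Dmn_cor_smooth hn.smρ hψ hn.smh
  have hD4 := Ddt_congr hD3 hψs hgψ
  refine Gd_congr (g' := cor ρ ψ h) (k' := fun x => fderiv ℝ F2 (cor ρ θ h x) (k x)) (fun x hx => (hgψ x hx).symm)
    (fun x _ => rfl) ?_
  -- D5: the crossings
  have hβ : ∀ x, x ∉ Win (Adb δ ρ h) η → ψ x = θ' x := fun x hx => Dfe_beta hn h0 h1 hfx hf0 hx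
  have hcross := Dcr_cross hn hg hψ hθ' hW hβ (Λ := Sp (mp F2 L2) ∪ F2 '' (F '' B)) (by
    intro y hy φ hq
    rw [Ddt_Sp, ← image_union] at hq
    obtain ⟨q, hq, hqe⟩ := hq
    obtain ⟨φ', hφ'⟩ := Drt_circ hF2e hqe
    exact hWc y hy φ' (hφ' ▸ hq)) hD4 hi'
  have e0 : (fun x => ψ x + 0 * (θ' x - ψ x)) = ψ := by funext x; ring
  have e1 : (fun x => ψ x + 1 * (θ' x - ψ x)) = θ' := by funext x; ring
  have hfin := Gd_cross hcross (by
    show Gd _ _ t (cor ρ (fun x => ψ x + 1 * (θ' x - ψ x)) h) _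
    rw [e1]
    exact Gd_of_HG H (by simp [hL2, mp, hL]) _)
  have h13 : Gd (mp F2 L2) (F2 '' (F '' B)) t (cor ρ (fun x => ψ x + 0 * (θ' x - ψ x)) h)
      (fun x => Akf ρ ψ (fun x => θ' x - ψ x) h 0 x (fderiv ℝ F2 (cor ρ θ h x) (k x))) := hfin
  rw [e0] at h13
  refine Gd_congr (fun x _ => rfl) (fun x _ => ?_) h13
  exact Dkf_zero x _

end Pool.Agent.KNS
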