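import Pool.Agent.KNS.Map
import Pool.Agent.KNT.DragI

/-!
# KNS/Drag: isotopy of the core by an ambient isotopy
-/

open scoped ContDiff Topology
open Set Filter
open Pool.Agent.CSG (stp)
open Pool.Agent.RSG (ex)
open Pool.Agent.KNT
open Pool.Agent.LKF (PEq BdC BdT)

namespace Pool.Agent.KNS

theorem HG_congr {u : ℕ} {t : ℝ} {g g' : ℝ → ℂ × ℝ} (hg : ∀ x ∈ Icc 0 (1 + t), g' x = g x)
    (h : HG u t g') : HG u t g := by
  intro Φ L B hL hC h1
  exact h Φ L B hL hC (fun x hx => (h1 x hx).trans (hg x hx).symm)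

theorem Drag_main {u : ℕ} {t a b : ℝ} {g : ℝ → ℝ → ℂ × ℝ} (ht : 0 < t) (ha : 0 < a) (hab : a ≤ b)
    (hb : b < 1)
    (hg : ContDiff ℝ ∞ fun p : ℝ × ℝ => g p.1 p.2)
    (hend : ∀ s ∈ Icc (0 : ℝ) 1, ∀ x ∈ Icc 0 (1 + t), x ≤ a ∨ b ≤ x → g s x = g 0 x)
    (hU : ∀ s ∈ Icc (0 : ℝ) 1, ∀ x ∈ Icc a b, (g s x).1 ≠ 0)
    (himm : ∀ s ∈ Icc (0 : ℝ) 1, ∀ x ∈ Icc 0 (1 + t), deriv (g s) x ≠ 0)
    (hinj : ∀ s ∈ Icc (0 : ℝ) 1, InjOn (g s) (Icc 0 (1 + t)))
    (h : HG u t (g 1)) : HG u t (g 0) := by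
  set E₀ : Set (ℂ × ℝ) := g 0 '' (Icc 0 (a / 2) ∪ Icc ((1 + b) / 2) (1 + t)) with hE
  have hg0 : Continuous (g 0) := by
    have h1 : Continuous fun x : ℝ => ((0 : ℝ), x) := by fun_prop
    exact hg.continuous.comp h1
  have hEc : IsCompact E₀ := (isCompact_Icc.union isCompact_Icc).image hg0
  have hUc : IsClosed U := by
    have h1 : U = (fun q : ℂ × ℝ => q.1) ⁻¹' {0} := rfl
    rw [h1]
    exact isClosed_singleton.preimage continuous_fst
  have hO : IsOpen (U ∪ E₀)ᶜ := (hUc.union hEc.isClosed).isOpen_compl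
  have hin : ∀ l ∈ Icc (a / 2) ((1 + b) / 2), l ∈ Icc 0 (1 + t) := fun l hl =>
    ⟨by linarith [hl.1], by linarith [hl.2]⟩
  obtain ⟨F, hF, hFk⟩ := ISO.core_arc (Λ := ⊥) DragI_lat hO (k := g) (a₀ := a / 4) (a := a / 2)
    (a' := a) (b' := b) (b := (1 + b) / 2) (b₀ := 1) (by linarith) (by linarith) (by linarith)
    (by linarith) (fun s _ l _ => hg.contDiffAt)
    (fun s hs l hl hl' => hend s hs l (hin l hl) hl')
    (fun s hs l hl => by
      rintro (h1 | ⟨x, hx, hxe⟩)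
      · exact hU s hs l hl h1
      · have hx1 : x ∈ Icc 0 (1 + t) := by
          rcases hx with hx | hx
          · exact ⟨hx.1, by linarith [hx.2]⟩
          · exact ⟨by linarith [hx.1], hx.2⟩
        have hx2 : x ≤ a ∨ b ≤ x := by
          rcases hx with hx | hx
          · left; linarith [hx.2]
          · right; linarith [hx.1]
        have hl1 : l ∈ Icc 0 (1 + t) := ⟨by linarith [hl.1], by linarith [hl.2]⟩
        have h3 := hinj s hs hl1 hx1 (hxe.symm.trans (hend s hs x hx1 hx2).symm)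
        subst h3
        rcases hx with hx | hx
        · linarith [hx.2, hl.1]
        · linarith [hx.1, hl.2])
    (fun s hs l hl => himm s hs l (hin l hl))
    (fun s hs l hl l' hl' m hm he => by
      have hm0 : m = 0 := AddSubgroup.mem_bot.1 hm
      rw [hm0, add_zero] at he
      exact hinj s hs (hin l hl) (hin l' hl') he)
  have hCD := cd_of_move hF
  have hFU : F '' U = U := hCD.image_disj (by
    rw [Set.disjoint_compl_right_iff_subset]
    exact Set.subset_union_left)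
  refine HG_map (hCD.mono (Set.subset_univ _)) hFU (HG_congr (g' := g 1) (fun x hx => ?_) h)
  by_cases hx2 : x ∈ Icc (a / 2) ((1 + b) / 2)
  · exact (hFk x hx2).symm
  · have hx3 : x ∈ Icc 0 (a / 2) ∪ Icc ((1 + b) / 2) (1 + t) := by
      by_cases h1 : x ≤ a / 2
      · exact Or.inl ⟨hx.1, h1⟩
      · right
        refine ⟨?_, hx.2⟩
        by_contra h2
        exact hx2 ⟨(not_le.1 h1).le, (not_le.1 h2).le⟩
    have hx4 : x ≤ a ∨ b ≤ x := by
      rcases hx3 with hx3 | hx3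
      · left; linarith [hx3.2]
      · right; linarith [hx3.1]
    have h5 : F (g 0 x) = g 0 x := hCD.fix (fun hc => hc (Or.inr ⟨x, hx3, rfl⟩))
    have h6 := hend 1 (by simp) x hx hx4
    rw [Function.comp_apply, h5, h6]

theorem HG_drag {u : ℕ} {t a b : ℝ} {g : ℝ → ℝ → ℂ × ℝ} (ha : 0 < a) (hab : a ≤ b) (hb : b < 1)
    (hg : ContDiff ℝ ∞ fun p : ℝ × ℝ => g p.1 p.2)
    (hend : ∀ s ∈ Icc (0 : ℝ) 1, ∀ x ∈ Icc 0 (1 + t), x ≤ a ∨ b ≤ x → g s x = g 0 x)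
    (hU : ∀ s ∈ Icc (0 : ℝ) 1, ∀ x ∈ Icc a b, (g s x).1 ≠ 0)
    (himm : ∀ s ∈ Icc (0 : ℝ) 1, ∀ x ∈ Icc 0 (1 + t), deriv (g s) x ≠ 0)
    (hinj : ∀ s ∈ Icc (0 : ℝ) 1, InjOn (g s) (Icc 0 (1 + t)))
    (h : HG u t (g 1)) : HG u t (g 0) := by
  intro Φ L B hL hC hΦ
  have ht : 0 < t := (cfb_cons.1 hC).1.pos
  exact Drag_main ht ha hab hb hg hend hU himm hinj h Φ L B hL hC hΦ

end Pool.Agent.KNS
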