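import Pool.Agent.KNS.Gen
import Pool.Agent.KNS.Dat

/-!
# KNS/Dsp: the other fingers and the spectators are moved off finitely many circles
-/

open scoped ContDiff Topology
open Set Filter
open Pool.Agent.CSG (stp)
open Pool.Agent.RSG (ex)
open Pool.Agent.KNT
open Pool.Agent.LKF (PEq BdC BdT)

namespace Pool.Agent.KNS

theorem Dsp_K_spc {L : SL} (hL : ∀ p ∈ L, Strip p.1 p.2) : Spc (Dsp_K L) := by
  have : Countable {p // p ∈ L} := (List.finite_toSet L).countable.to_subtype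
  refine ⟨Dsp_K_compact hL, cov_of (ι := {p // p ∈ L}) (fun p x => p.1.2 (x, 0)) ?_ ?_⟩
  · intro p
    exact (hL p.1 p.2).smooth.comp (contDiff_id.prodMk contDiff_const)
  · intro x hx
    obtain ⟨p, hp, s, hs, he⟩ := mem_iUnion₂.1 hx
    exact mem_iUnion.2 ⟨⟨p, hp⟩, s, he⟩

theorem Dsp_C_cov {A : Set ℝ} (hA : A.Finite) {ρ : ℝ → ℝ} (h : ℝ → ℝ) (hρ : ∀ y ∈ A, 0 < ρ y) : Cov (Dsp_C A ρ h) := by
  have := hA.countable.to_subtype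
  refine cov_of (ι := A) (fun y x => ((ρ y.1 : ℂ) * ex x, h y.1)) ?_ ?_
  · intro y
    exact (contDiff_const.mul Pool.Agent.RSG.ex_smooth).prodMk contDiff_const
  · intro q hq
    obtain ⟨y, hy, φ, rfl⟩ := (Dsp_C_mem hρ).1 hq
    exact mem_iUnion.2 ⟨⟨y, hy⟩, φ, rfl⟩

theorem Dsp_moveB {L : SL} {B : Set (ℂ × ℝ)} (hL : Cfb L B) {g : ℝ → ℂ × ℝ} {t : ℝ} (hg : Continuous g)
    (hgL : ∀ x ∈ Icc 0 (1 + t), g x ∉ Sp L ∪ B) {A : Set ℝ} (hA : A.Finite) {ρ h : ℝ → ℝ}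
    (hρ : ∀ y ∈ A, 0 < ρ y) :
    ∃ (F : Equiv.Perm (ℂ × ℝ)) (r : ℝ), CD univ F ∧ 0 < r ∧ (∀ q : ℂ × ℝ, ‖q.1‖ ≤ r → F q = q) ∧
      (∀ x ∈ Icc 0 (1 + t), ∀ᶠ q in 𝓝 (g x), F q = q) ∧
      (∀ p ∈ L, ∀ x ∈ Icc 0 (1 + p.1), ∀ y ∈ A, ∀ φ : ℝ, F (p.2 (x, 0)) ≠ ((ρ y : ℂ) * ex φ, h y)) ∧
      ∀ y ∈ A, ∀ φ : ℝ, ((ρ y : ℂ) * ex φ, h y) ∉ F '' B := by
  have hG₀ : IsClosed (g '' Icc 0 (1 + t) ∪ U) := (isCompact_Icc.image hg).isClosed.union U_closed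
  have hd : Disjoint ((Dsp_K L ∪ B) ∩ Dsp_C A ρ h) (g '' Icc 0 (1 + t) ∪ U) := by
    rw [Set.disjoint_left]
    rintro q ⟨h1, h2⟩ (h3 | h3)
    · obtain ⟨x, hx, rfl⟩ := h3
      apply hgL x hx
      rcases h1 with h1 | h1
      · obtain ⟨p, hp, s, hs, he⟩ := Set.mem_iUnion₂.1 h1
        exact Or.inl (Set.mem_iUnion₂.2 ⟨p, hp, (s, 0), ⟨hs, by simp⟩, he⟩)
      · exact Or.inr h1
    · obtain ⟨y, hy, φ, he⟩ := (Dsp_C_mem hρ).1 h2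
      have h4 : q.1 = 0 := h3
      rw [he] at h4
      have h5 : (ρ y : ℂ) * ex φ = 0 := h4
      rcases mul_eq_zero.1 h5 with h6 | h6
      · exact (hρ y hy).ne' (by exact_mod_cast h6)
      · exact Pool.Agent.RSG.ex_ne φ h6
  obtain ⟨F, hF, hFd⟩ := gen_off ((Dsp_K_spc hL.conf.1).union hL.spc) (Dsp_C_compact hA ρ h).isClosed
    (Dsp_C_cov hA h hρ) hG₀ hd
  obtain ⟨r, hr, hrU⟩ := near_U subset_union_right hF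
  refine ⟨F, r, hF.mono (subset_univ _), hr, hrU, fun x hx => near_fix hF (Or.inl ⟨x, hx, rfl⟩), ?_, ?_⟩
  · intro p hp x hx y hy φ he
    refine Set.disjoint_left.1 hFd ⟨p.2 (x, 0), Or.inl (mem_iUnion₂.2 ⟨p, hp, x, hx, rfl⟩), rfl⟩ ?_
    exact (Dsp_C_mem hρ).2 ⟨y, hy, φ, he⟩
  · rintro y hy φ ⟨q, hq, he⟩
    refine Set.disjoint_left.1 hFd ⟨q, Or.inr hq, rfl⟩ ?_
    exact (Dsp_C_mem hρ).2 ⟨y, hy, φ, he⟩

end Pool.Agent.KNS
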