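import Pool.Agent.KNS.Drag
import Pool.Agent.KNT.EMain

/-!
# KNS/EMain: block E, the isotopies
-/

open scoped ContDiff Topology
open Set Filter
open Pool.Agent.CSG (stp)
open Pool.Agent.RSG (ex)
open Pool.Agent.KNT
open Pool.Agent.LKF (PEq BdC BdT)

namespace Pool.Agent.KNS

/-- `HG` only depends on the values on `[0, 1 + t]` -/
theorem EInj_congr {u : ℕ} {t : ℝ} {g g' : ℝ → ℂ × ℝ} (h : ∀ x ∈ Icc 0 (1 + t), g' x = g x)
    (H : HG u t g') : HG u t g :=
  HG_congr h H

theorem turn_HG {u : ℕ} {t c R T : ℝ} {ρ θ h : ℝ → ℝ} (hρ : Continuous ρ) (hh : Continuous h)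
    (H : HG u t (cor ρ (fun x => θ x + T * stp (-(1 / 2)) (1 / 2) ((h x - c) / R)) h)) :
    HG u t (cor ρ θ h) := by
  obtain ⟨M, hM⟩ := (isCompact_Icc (a := (0 : ℝ)) (b := 1 + t)).bddAbove_image
    (f := fun x => |ρ x| ^ 2 + h x ^ 2) (by fun_prop)
  have hM' : ∀ x ∈ Icc (0 : ℝ) (1 + t), |ρ x| ^ 2 + h x ^ 2 ≤ max M 0 := fun x hx =>
    (hM (mem_image_of_mem _ hx)).trans (le_max_left _ _)
  refine HG_map (rotP_CD (tang_inv c R T (max M 0)) (tang_smooth c R T _)
    (tang_compact c R T (le_max_right M 0))) (rotP_U _) ?_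
  refine EInj_congr ?_ H
  intro x hx
  show _ = rotP _ _ (cor ρ θ h x)
  rw [rotP_cor]
  have h1 : tang c R T (max M 0) ((ρ x : ℂ), h x) = T * stp (-(1 / 2)) (1 / 2) ((h x - c) / R) := by
    unfold tang
    have h2 : stp (max M 0) (max M 0 + 1) (‖((ρ x : ℝ) : ℂ)‖ ^ 2 + h x ^ 2) = 0 := by
      rw [Complex.norm_real, Real.norm_eq_abs]
      exact CSG.stp_zero (by linarith) (hM' x hx)
    show T * stp (-(1 / 2)) (1 / 2) ((h x - c) / R) *
      (1 - stp (max M 0) (max M 0 + 1) (‖((ρ x : ℝ) : ℂ)‖ ^ 2 + h x ^ 2)) = _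
    rw [h2]
    ring
  unfold cor
  simp only [h1]

/-! ## the plane curve is moved to the semicircle -/

theorem drag_one {u : ℕ} {c R θ₀ δ t : ℝ} {ρ h : ℝ → ℝ} (H : EFt c R δ t ρ h)
    (h1 : HG u t (cor (fun x => |R| * qs x) (eth θ₀ δ) (fun x => c + R * ps x))) :
    HG u t (cor ρ (eth θ₀ δ) h) := by
  have hδ := H.δ_pos
  have hδ1 := H.δ_lt
  let g : ℝ → ℝ → ℂ × ℝ := fun s => cor (fun x => (1 - s) * ρ x + s * (|R| * qs x)) (eth θ₀ δ)
    (fun x => (1 - s) * h x + s * (c + R * ps x))
  have g0 : g 0 = cor ρ (eth θ₀ δ) h := by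
    funext x
    show cor _ _ _ x = _
    unfold cor
    simp
  have g1 : g 1 = cor (fun x => |R| * qs x) (eth θ₀ δ) (fun x => c + R * ps x) := by
    funext x
    show cor _ _ _ x = _
    unfold cor
    simp
  rw [← g0]
  rw [← g1] at h1
  refine HG_drag (a := δ) (b := 1 - δ) hδ (by linarith) (by linarith) ?_ ?_ ?_ ?_ ?_ h1
  · have e1 : ContDiff ℝ ∞ fun p : ℝ × ℝ => (1 - p.1) * ρ p.2 + p.1 * (|R| * qs p.2) :=
      ((contDiff_const.sub contDiff_fst).mul (H.smρ.comp contDiff_snd)).add
        (contDiff_fst.mul (contDiff_const.mul (qs_smooth.comp contDiff_snd)))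
    have e2 : ContDiff ℝ ∞ fun p : ℝ × ℝ => (1 - p.1) * h p.2 + p.1 * (c + R * ps p.2) :=
      ((contDiff_const.sub contDiff_fst).mul (H.smh.comp contDiff_snd)).add
        (contDiff_fst.mul (contDiff_const.add (contDiff_const.mul (ps_smooth.comp contDiff_snd))))
    exact smooth_cor2 e1 ((eth_smooth θ₀ δ).comp contDiff_snd) e2
  · intro s hs x hx hx2
    rw [g0]
    show cor _ _ _ x = cor _ _ _ x
    have e : (1 - s) * ρ x + s * (|R| * qs x) = ρ x ∧ (1 - s) * h x + s * (c + R * ps x) = h x := by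
      rcases hx2 with hx2 | hx2
      · obtain ⟨h1, h2⟩ := H.f0 x hx2
        rw [h1, h2]
        constructor <;> ring
      · obtain ⟨h1, h2⟩ := H.f1 x hx2
        rw [h1, h2]
        constructor <;> ring
    unfold cor
    simp only [e.1, e.2]
  · intro s hs x hx
    have h2 := (H.lin hs).pos x (by linarith [hx.1]) (by linarith [hx.2])
    show (((1 - s) * ρ x + s * (|R| * qs x) : ℝ) : ℂ) * ex (eth θ₀ δ x) ≠ 0
    exact mul_ne_zero (by exact_mod_cast h2.ne') (RSG.ex_ne _)
  · intro s hs x hx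
    exact (H.lin hs).imm θ₀ x
  · intro s hs
    exact (H.lin hs).inj θ₀

/-! ## the angle on the semicircle is made constant -/

theorem drag_two {u : ℕ} {c R θ₀ δ t : ℝ} (hR : R ≠ 0) (hδ : 0 < δ) (hδ1 : δ < 1 / 4) (ht : 0 < t)
    (ht1 : t ≤ δ / 4) (H : HG u t (gsph c R θ₀)) :
    HG u t (cor (fun x => |R| * qs x)
      (fun x => θ₀ + (stp (δ / 2) (1 - δ / 2) x - stp (-(1 / 2)) (1 / 2) (ps x)) / 4)
      (fun x => c + R * ps x)) := by
  have hRp : 0 < |R| := abs_pos.2 hR
  set A : ℝ → ℝ := fun x => (stp (δ / 2) (1 - δ / 2) x - stp (-(1 / 2)) (1 / 2) (ps x)) / 4 with hA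
  have hAs : ContDiff ℝ ∞ A :=
    ((CSG.stp_smooth _ _).sub ((CSG.stp_smooth _ _).comp ps_smooth)).div_const 4
  have hA0 : ∀ x ∈ Icc (0 : ℝ) (1 + t), x ≤ δ / 2 ∨ 1 - δ / 2 ≤ x → A x = 0 := by
    intro x hx hx2
    rcases hx2 with hx2 | hx2
    · have e1 : stp (δ / 2) (1 - δ / 2) x = 0 := CSG.stp_zero (by linarith) hx2
      have e2 : stp (-(1 / 2)) (1 / 2) (ps x) = 0 := CSG.stp_zero (by norm_num)
        ((ps_foot (by linarith [hx.1]) (by linarith)).trans (by norm_num))
      simp only [hA, e1, e2]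
      ring
    · have e1 : stp (δ / 2) (1 - δ / 2) x = 1 := CSG.stp_one (by linarith) hx2
      have e2 : stp (-(1 / 2)) (1 / 2) (ps x) = 1 := CSG.stp_one (by norm_num)
        (le_trans (by norm_num) (ps_tip (by linarith) (by linarith [hx.2])))
      simp only [hA, e1, e2]
      ring
  let g : ℝ → ℝ → ℂ × ℝ := fun s => cor (fun x => |R| * qs x) (fun x => θ₀ + (1 - s) * A x)
    (fun x => c + R * ps x)
  have g0 : g 0 = cor (fun x => |R| * qs x) (fun x => θ₀ + A x) (fun x => c + R * ps x) := by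
    funext x
    show cor _ _ _ x = _
    unfold cor
    simp
  have g1 : g 1 = gsph c R θ₀ := by
    funext x
    show cor _ _ _ x = _
    unfold gsph cor
    simp
  have goal : HG u t (g 0) := by
    rw [← g1] at H
    have hsm1 : ContDiff ℝ ∞ fun x => |R| * qs x := contDiff_const.mul qs_smooth
    have hsm2 : ContDiff ℝ ∞ fun x => c + R * ps x := contDiff_const.add (contDiff_const.mul ps_smooth)
    refine HG_drag (a := δ / 2) (b := 1 - δ / 2) (by linarith) (by linarith) (by linarith) ?_ ?_ ?_ ?_ ?_ H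
    · have e1 : ContDiff ℝ ∞ fun p : ℝ × ℝ => |R| * qs p.2 := hsm1.comp contDiff_snd
      have e2 : ContDiff ℝ ∞ fun p : ℝ × ℝ => θ₀ + (1 - p.1) * A p.2 :=
        contDiff_const.add ((contDiff_const.sub contDiff_fst).mul (hAs.comp contDiff_snd))
      have e3 : ContDiff ℝ ∞ fun p : ℝ × ℝ => c + R * ps p.2 := hsm2.comp contDiff_snd
      exact smooth_cor2 e1 e2 e3
    · intro s _ x hx hx2
      show cor _ _ _ x = cor _ _ _ x
      have := hA0 x hx hx2
      unfold cor
      simp only [this]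
      simp
    · intro s _ x hx
      have h2 : 0 < |R| * qs x := mul_pos hRp (qs_pos (by linarith [hx.1]) (by linarith [hx.2]))
      show ((|R| * qs x : ℝ) : ℂ) * ex _ ≠ 0
      exact mul_ne_zero (by exact_mod_cast h2.ne') (RSG.ex_ne _)
    · intro s _ x _ h0
      have hθ : ContDiff ℝ ∞ fun x => θ₀ + (1 - s) * A x :=
        contDiff_const.add (contDiff_const.mul hAs)
      obtain ⟨d1, -, d3⟩ := cor_deriv_zero hsm1 hθ hsm2 h0
      have f1 : deriv (fun x => |R| * qs x) x = |R| * deriv qs x :=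
        deriv_const_mul _ ((qs_smooth.differentiable (by simp)) x)
      have f2 : deriv (fun x => c + R * ps x) x = R * deriv ps x := by
        rw [deriv_const_add, deriv_const_mul _ ((ps_smooth.differentiable (by simp)) x)]
      rw [f1] at d1
      rw [f2] at d3
      apply circle_imm x
      constructor
      · rcases mul_eq_zero.1 d1 with h | h
        · exact absurd h hRp.ne'
        · exact h
      · rcases mul_eq_zero.1 d3 with h | h
        · exact absurd h hR
        · exact h
    · intro s _ x hx y hy hxy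
      have hw : ((|R| * qs x : ℝ) : ℂ) * ex (θ₀ + (1 - s) * A x) =
        ((|R| * qs y : ℝ) : ℂ) * ex (θ₀ + (1 - s) * A y) := congrArg Prod.fst hxy
      have hh : c + R * ps x = c + R * ps y := congrArg Prod.snd hxy
      have hp : ps x = ps y := mul_left_cancel₀ hR (add_left_cancel hh)
      have hn : |qs x| = |qs y| := by
        have h3 := congrArg norm hw
        rw [norm_mul, norm_mul, RSG.ex_norm, RSG.ex_norm, mul_one, mul_one, Complex.norm_real,
          Complex.norm_real, Real.norm_eq_abs, Real.norm_eq_abs, abs_mul, abs_mul, abs_abs] at h3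
        exact mul_left_cancel₀ hRp.ne' h3
      -- the mirror situation is impossible
      have mir : ∀ {x y : ℝ}, x ∈ Icc (0 : ℝ) (1 + t) → y ∈ Icc (0 : ℝ) (1 + t) → x ≤ 1 → 1 < y →
          ps x = ps y → |qs x| = |qs y| → ((|R| * qs x : ℝ) : ℂ) * ex (θ₀ + (1 - s) * A x) =
          ((|R| * qs y : ℝ) : ℂ) * ex (θ₀ + (1 - s) * A y) → False := by
        intro x y hx hy hx1 hy1 hp hn hw
        have hqy := qs_neg hy1
        have hqx : 0 < qs x := by
          rcases hx.1.eq_or_lt with h | h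
          · rw [← h, qs_zero, abs_zero, abs_of_neg hqy] at hn
            linarith
          · rcases hx1.eq_or_lt with h' | h'
            · rw [h', qs_one, abs_zero, abs_of_neg hqy] at hn
              linarith
            · exact qs_pos h h'
        have hq : qs x = -qs y := by
          rw [abs_of_pos hqx, abs_of_neg hqy] at hn
          exact hn
        have hm := qs_mirror hq hp
        have hAy : A y = 0 := hA0 y hy (Or.inr (by linarith))
        have hAx : A x = 0 := by
          apply hA0 x hx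
          right
          have hyt := hy.2
          by_contra hc
          have h3 : (2 * x - 1) * (2 * y - 1) < 1 := by
            have h4 : 2 * x - 1 < 1 - δ := by linarith
            have h5 : 0 < 2 * y - 1 := by linarith
            have h6 : 2 * y - 1 ≤ 1 + δ / 2 := by linarith
            nlinarith
          linarith
        rw [hAx, hAy, mul_zero, add_zero] at hw
        have h7 := mul_right_cancel₀ (RSG.ex_ne θ₀) hw
        have h8 : |R| * qs x = |R| * qs y := by exact_mod_cast h7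
        have := mul_left_cancel₀ hRp.ne' h8
        linarith
      rcases le_or_gt x 1 with hx1 | hx1 <;> rcases le_or_gt y 1 with hy1 | hy1
      · have q0 : ∀ {z : ℝ}, 0 ≤ z → z ≤ 1 → 0 ≤ qs z := by
          intro z hz0 hz1
          unfold qs
          apply div_nonneg _ (EQs_den z).le
          nlinarith
        rw [abs_of_nonneg (q0 hx.1 hx1), abs_of_nonneg (q0 hy.1 hy1)] at hn
        exact circle_inj hn hp
      · exact absurd (mir hx hy hx1 hy1 hp hn hw) id
      · exact absurd (mir hy hx hy1 hx1 hp.symm hn.symm hw.symm) id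
      · rw [abs_of_neg (qs_neg hx1), abs_of_neg (qs_neg hy1)] at hn
        exact circle_inj (neg_injective hn) hp
  rw [g0] at goal
  exact goal

end Pool.Agent.KNS
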