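import Pool.Agent.KNS.FAffA
import Pool.Agent.KNF.Aff
import Pool.Agent.KNT.MapI

/-!
# KNS/FAff: affine invariance
-/

open scoped ContDiff Topology
open Set Filter
open Pool.Agent.CSG (stp)
open Pool.Agent.RSG (ex)
open Complex (I)
open Pool.Agent.KNT
open Pool.Agent.KNF
open Pool.Agent.LKF (PEq BdC BdT)

namespace Pool.Agent.KNS

theorem cfb_map {A : Equiv.Perm (ℂ × ℝ)} (hA : ContDiff ℝ ∞ A) (hA' : ContDiff ℝ ∞ A.symm) {α : ℂ}
    (hα : α ≠ 0) (hw : ∀ q, (A q).1 = α * q.1) {L : SL} {B : Set (ℂ × ℝ)} (h : Cfb L B) :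
    Cfb (mp A L) (A '' B) := by
  refine ⟨conf_map hA hA' hα hw h.conf, h.spc.image hA, ?_, ?_⟩
  · rw [← Aff_U hα hw, disjoint_image_iff A.injective]
    exact h.dU
  · rw [Sp_mp, disjoint_image_iff A.injective]
    exact h.dS

theorem hg_map {A : Equiv.Perm (ℂ × ℝ)} (hA : ContDiff ℝ ∞ A) (hA' : ContDiff ℝ ∞ A.symm) {α : ℂ}
    (hα : α ≠ 0) (hw : ∀ q, (A q).1 = α * q.1) {u : ℕ} {t : ℝ} {g : ℝ → ℂ × ℝ}
    (h : HG u t (A ∘ g)) : HG u t g := by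
  intro Φ L B hL hc hg
  have hU := Aff_U hα hw
  have h1 : mp A ((t, Φ) :: L) = (t, A ∘ Φ) :: mp A L := rfl
  have h2 := h (A ∘ Φ) (mp A L) (A '' B) (by rw [mp, List.length_map, hL]) (by
    rw [← h1]
    exact cfb_map hA hA' hα hw hc) (fun x hx => by
    show A (Φ (x, 0)) = A (g x)
    rw [hg x hx])
  rw [← h1, kn_map hU] at h2
  have h3 := tri_map (A := A.symm) hA' hA (by
    conv_lhs => rw [← hU]
    rw [← image_comp]
    have h5 : A.symm ∘ A = (id : ℂ × ℝ → ℂ × ℝ) := funext fun x => A.symm_apply_apply x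
    rw [h5, image_id]) h2
  have h4 : ∀ S : Set (ℂ × ℝ), A.symm '' (A '' S) = S := by
    intro S
    rw [← image_comp]
    have h5 : A.symm ∘ A = (id : ℂ × ℝ → ℂ × ℝ) := funext fun x => A.symm_apply_apply x
    rw [h5, image_id]
  rw [h4, h4] at h3
  exact h3

theorem hg_gsph {u : ℕ} {c R t θ : ℝ} (hR : R ≠ 0) (h : HG u t (gsph 0 1 0)) : HG u t (gsph c R θ) := by
  have h1 : |R| ≠ 0 := abs_ne_zero.2 hR
  have hα : ((|R|⁻¹ : ℝ) : ℂ) * ex (-θ) ≠ 0 := by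
    refine mul_ne_zero ?_ (RSG.ex_ne _)
    rw [Complex.ofReal_ne_zero]
    exact inv_ne_zero h1
  refine hg_map (A := Aff_A c R θ hR) ?_ ?_ hα (fun q => rfl) ?_
  · show ContDiff ℝ ∞ fun q : ℂ × ℝ => (((|R|⁻¹ : ℝ) : ℂ) * ex (-θ) * q.1, (q.2 - c) / R)
    fun_prop
  · show ContDiff ℝ ∞ fun q : ℂ × ℝ => (((|R| : ℝ) : ℂ) * ex θ * q.1, R * q.2 + c)
    fun_prop
  · have h2 : (Aff_A c R θ hR) ∘ gsph c R θ = gsph 0 1 0 := by
      funext x
      refine Prod.ext ?_ ?_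
      · show ((|R|⁻¹ : ℝ) : ℂ) * ex (-θ) * (((|R| * qs x : ℝ) : ℂ) * ex θ) =
          ((|(1 : ℝ)| * qs x : ℝ) : ℂ) * ex 0
        rw [RSG.ex_zero, abs_one, one_mul, mul_one, Complex.ofReal_mul]
        have h2 : ((|R| : ℝ) : ℂ) * ((|R|⁻¹ : ℝ) : ℂ) = 1 := by
          rw [← Complex.ofReal_mul, mul_inv_cancel₀ h1, Complex.ofReal_one]
        have h3 : ex θ * ex (-θ) = 1 := by
          rw [← RSG.ex_add, add_neg_cancel, RSG.ex_zero]
        calc ((|R|⁻¹ : ℝ) : ℂ) * ex (-θ) * (((|R| : ℝ) : ℂ) * (qs x : ℂ) * ex θ)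
            = (((|R| : ℝ) : ℂ) * ((|R|⁻¹ : ℝ) : ℂ)) * (ex θ * ex (-θ)) * (qs x : ℂ) := by ring
          _ = (qs x : ℂ) := by rw [h2, h3, one_mul, one_mul]
      · show (c + R * ps x - c) / R = 0 + 1 * ps x
        rw [add_sub_cancel_left, mul_div_cancel_left₀ _ hR]
        ring
    rw [h2]
    exact h

end Pool.Agent.KNS
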