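import Pool.Agent.KNS.Bas
import Pool.Agent.KNF.AffA

/-!
# KNS/FAffA: invariance of `PEq`, `Tri` under diffeomorphisms without compact support
-/

open scoped ContDiff Topology
open Set Filter
open Complex (I)
open Pool.Agent.CSG (stp)
open Pool.Agent.RSG (ex)
open Pool.Agent.KNT
open Pool.Agent.KNF
open Pool.Agent.LKF (PEq BdC BdT StP StM Mut)

namespace Pool.Agent.KNS

theorem conj_CD {A : Equiv.Perm (ℂ × ℝ)} (hA : ContDiff ℝ ∞ A) (hA' : ContDiff ℝ ∞ A.symm)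
    {F : Equiv.Perm (ℂ × ℝ)} (hF : CD univ F) : CD univ (A.symm.trans (F.trans A)) := by
  obtain ⟨C, hC, -, hC'⟩ := hF.supp
  refine ⟨?_, ?_, A '' C, hC.image hA.continuous, subset_univ _, ?_⟩
  · have := hA.comp (hF.smooth.comp hA')
    exact this
  · have := hA.comp (hF.smooth_symm.comp hA')
    exact this
  · intro x hx
    have h1 : A.symm x ∉ C := fun hc => hx ⟨A.symm x, hc, by simp⟩
    show A (F (A.symm x)) = x
    rw [hC' _ h1]
    simp

theorem conj_image {A : Equiv.Perm (ℂ × ℝ)} (F : Equiv.Perm (ℂ × ℝ)) (K : Set (ℂ × ℝ)) :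
    (A.symm.trans (F.trans A)) '' (A '' K) = A '' (F '' K) := by
  rw [← image_comp, ← image_comp]
  congr 1
  funext x
  simp

theorem balC_map {A : Equiv.Perm (ℂ × ℝ)} (hA : ContDiff ℝ ∞ A) (hA' : ContDiff ℝ ∞ A.symm)
    {b : ℂ × ℝ → ℂ × ℝ} (hb : BalC b) : BalC (A ∘ b) :=
  ⟨fun q hq => hA.contDiffAt.comp q (hb.smooth q hq), fun q hq => AffA_imm hA hA' (hb.smooth q hq) (hb.imm q hq),
    fun _ hx _ hy hxy => hb.inj hx hy (A.injective hxy)⟩

theorem tubes_map {A : Equiv.Perm (ℂ × ℝ)} (hA : ContDiff ℝ ∞ A) (hA' : ContDiff ℝ ∞ A.symm)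
    {b : ℝ → ℂ × ℝ → ℂ × ℝ} (hb : Tubes b) : Tubes (fun l => A ∘ b l) := by
  refine ⟨fun l hl q hq => ?_, fun l hl q hq => ?_, fun l hl q hq h2 => ?_, fun x hx y hy hxy => hb.inj0 hx hy (A.injective hxy),
    fun x hx y hy hxy => hb.inj1 hx hy (A.injective hxy),
    fun l hl q hq hs q' hq' hs' he => hb.sep l hl q hq hs q' hq' hs' (A.injective he)⟩
  · exact hA.contDiffAt.comp (l, q) (hb.smooth l hl q hq)
  · have hs : ContDiffAt ℝ ∞ (b l) q := by
      have h1 := hb.smooth l hl q hq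
      have h2 : ContDiffAt ℝ ∞ (fun q : ℂ × ℝ => ((l, q) : ℝ × (ℂ × ℝ))) q :=
        contDiffAt_const.prodMk contDiffAt_id
      exact ContDiffAt.comp (g := fun p : ℝ × (ℂ × ℝ) => b p.1 p.2) q h1 h2
    exact AffA_imm hA hA' hs (hb.imm l hl q hq)
  · show A (b l q) = A (b 0 q)
    rw [hb.ends l hl q hq h2]

theorem bd_map {A : Equiv.Perm (ℂ × ℝ)} (hA : ContDiff ℝ ∞ A) (R : ℝ) :
    ∃ R' : ℝ, ∀ q : ℂ × ℝ, ‖q‖ ≤ R → ‖A q‖ ≤ R' := by
  obtain ⟨R', h⟩ := (isCompact_closedBall (0 : ℂ × ℝ) R).exists_bound_of_continuousOn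
    hA.continuous.continuousOn
  exact ⟨R', fun q hq => h q (by simpa using hq)⟩

theorem bdC_map {A : Equiv.Perm (ℂ × ℝ)} (hA : ContDiff ℝ ∞ A) {b : ℂ × ℝ → ℂ × ℝ} (hb : BdC b) : BdC (A ∘ b) := by
  obtain ⟨R, hR⟩ := hb
  obtain ⟨R', h⟩ := bd_map hA R
  exact ⟨R', fun q hq => h _ (hR q hq)⟩

theorem bdT_map {A : Equiv.Perm (ℂ × ℝ)} (hA : ContDiff ℝ ∞ A) {b : ℝ → ℂ × ℝ → ℂ × ℝ} (hb : BdT b) :
    BdT (fun l => A ∘ b l) := by
  obtain ⟨R, hR⟩ := hb
  obtain ⟨R', h⟩ := bd_map hA R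
  exact ⟨R', fun l hl q hq => h _ (hR l hl q hq)⟩

theorem dis_map {A : Equiv.Perm (ℂ × ℝ)} {Z D : Set (ℂ × ℝ)} {b : ℂ × ℝ → ℂ × ℝ} (h : Disjoint Z (b '' D)) :
    Disjoint (A '' Z) ((A ∘ b) '' D) := by
  rw [image_comp]
  exact (disjoint_image_iff A.injective).2 h

theorem peq_map {A : Equiv.Perm (ℂ × ℝ)} (hA : ContDiff ℝ ∞ A) (hA' : ContDiff ℝ ∞ A.symm)
    {K B K' B' : Set (ℂ × ℝ)} (h : PEq K B K' B') : PEq (A '' K) (A '' B) (A '' K') (A '' B') := by
  induction h with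
  | refl K B => exact PEq.refl _ _
  | symm _ ih => exact ih.symm
  | trans _ _ ih1 ih2 => exact ih1.trans ih2
  | diff K B hF =>
    rename_i F
    have h1 := PEq.diff (A '' K) (A '' B) (conj_CD hA hA' hF)
    rwa [conj_image, conj_image] at h1
  | four hb hbd hd hdB =>
    have h1 := PEq.four (balC_map hA hA' hb) (bdC_map hA hbd) (dis_map (A := A) hd) (dis_map (A := A) hdB)
    rw [image_union, image_union, ← image_comp, ← image_comp]
    exact h1
  | rib hb hbd hd hdB =>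
    have h1 := PEq.rib (tubes_map hA hA' hb) (bdT_map hA hbd) (fun l hl => dis_map (A := A) (hd l hl))
      (fun l hl => dis_map (A := A) (hdB l hl))
    rw [image_union, image_union, ← image_comp, ← image_comp]
    exact h1
  | _ =>
    rename_i Y Z b c hm
    have hm' : Mut (A '' Y ∪ A '' Z) (fun l => A ∘ b l) (A ∘ c) := by
      refine ⟨tubes_map hA hA' hm.tub, balC_map hA hA' hm.bal, bdT_map hA hm.bdb, bdC_map hA hm.bdc,
        fun l hl => ?_, ?_, fun l hl q hq q' hq' hs he => hm.ends l hl q hq q' hq' hs (A.injective he), ?_, ?_⟩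
      · rw [← image_union]
        exact dis_map (hm.dsb l hl)
      · rw [← image_union]
        exact dis_map hm.dsc
      · show Disjoint ((A ∘ b 0) '' Dom) _
        rw [image_comp]
        exact dis_map hm.ds0
      · show Disjoint ((A ∘ b 1) '' Dom) _
        rw [image_comp]
        exact dis_map hm.ds1
    have h1 := PEq.mut hm'
    simp only [image_union, ← image_comp]
    exact h1

theorem tri_map {A : Equiv.Perm (ℂ × ℝ)} (hA : ContDiff ℝ ∞ A) (hA' : ContDiff ℝ ∞ A.symm) (hU : A '' U = U)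
    {K B : Set (ℂ × ℝ)} (h : Tri K B) : Tri (A '' K) (A '' B) := by
  obtain ⟨F, h1, h2, h3⟩ := h
  refine ⟨A.symm.trans (F.trans A), conj_CD hA hA' h1, ?_, ?_⟩
  · rw [conj_image, ← hU]
    exact (disjoint_image_iff A.injective).2 h2
  · rw [conj_image]
    have h4 := peq_map hA hA' h3
    rwa [hU] at h4

end Pool.Agent.KNS
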