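import Pool.Agent.KNS.FFam
import Pool.Agent.KNF.Ang

/-!
# KNS/FAng: directions with a logarithm
-/

open scoped ContDiff Topology
open Set Filter
open Pool.Agent.CSG (stp)
open Pool.Agent.RSG (ex)
open Complex (I)
open Pool.Agent.KNT
open Pool.Agent.KNF
open Pool.Agent.LKF (PEq BdC BdT)

namespace Pool.Agent.KNS

theorem gd_ang {L : SL} {B : Set (ℂ × ℝ)} {t : ℝ} {lm lm' : ℝ → ℂ} (ht : 0 < t) (hs : ContDiff ℝ ∞ lm) (hs' : ContDiff ℝ ∞ lm')
    (h0 : (lm 0).im = 0) (h0' : (lm' 0).im = 0) {m : ℤ}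
    (h1 : (lm 1).im ∈ Ioo (Real.pi * m) (Real.pi * (m + 1)))
    (h1' : (lm' 1).im ∈ Ioo (Real.pi * m) (Real.pi * (m + 1)))
    (ha : ∀ x ∈ Icc 0 (1 + t), g0 x ∉ Sp L ∪ B)
    (H : Gd L B t g0 (kk fun x => Complex.exp (lm' x))) : Gd L B t g0 (kk fun x => Complex.exp (lm x)) := by
  obtain ⟨w, hw⟩ : ∃ w : ℝ → ℝ → ℂ, w = fun (l : ℝ) x =>
      Complex.exp ((1 - (l : ℂ)) * lm x + (l : ℂ) * (lm' x + (lm 0 - lm' 0))) := ⟨_, rfl⟩
  have hw0 : w 0 = fun x => Complex.exp (lm x) := by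
    rw [hw]
    funext x
    simp
  have hw00 : ∀ l, w l 0 = Complex.exp (lm 0) := by
    intro l
    rw [hw]
    change Complex.exp ((1 - (l : ℂ)) * lm 0 + (l : ℂ) * (lm' 0 + (lm 0 - lm' 0))) = _
    congr 1
    ring
  have hc : Complex.exp (lm 0 - lm' 0) = ((Real.exp ((lm 0).re - (lm' 0).re) : ℝ) : ℂ) := by
    rw [Complex.ofReal_exp]
    congr 1
    apply Complex.ext
    · simp
    · simp [h0, h0']
  have hw1 : kk (w 1) = fun x => Real.exp ((lm 0).re - (lm' 0).re) • kk (fun x => Complex.exp (lm' x)) x := by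
    funext x
    unfold kk
    have e : ((0 : ℝ), w 1 x) =
        Real.exp ((lm 0).re - (lm' 0).re) • ((0 : ℝ), Complex.exp (lm' x)) := by
      rw [Prod.smul_mk, smul_zero]
      congr 1
      rw [hw]
      change Complex.exp ((1 - ((1 : ℝ) : ℂ)) * lm x + ((1 : ℝ) : ℂ) * (lm' x + (lm 0 - lm' 0))) = _
      rw [Complex.real_smul, ← hc, ← Complex.exp_add]
      congr 1
      push_cast
      ring
    rw [e, map_smul]
  rw [← hw0]
  apply gd_kk ht (w := w)
  · rw [hw]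
    have hl : ContDiff ℝ ∞ fun p : ℝ × ℝ => ((p.1 : ℝ) : ℂ) := Complex.ofRealCLM.contDiff.comp contDiff_fst
    have e1 : ContDiff ℝ ∞ fun p : ℝ × ℝ => lm p.2 := hs.comp contDiff_snd
    have e2 : ContDiff ℝ ∞ fun p : ℝ × ℝ => lm' p.2 := hs'.comp contDiff_snd
    exact (((contDiff_const.sub hl).mul e1).add (hl.mul (e2.add contDiff_const))).cexp
  · intro l hl
    refine ⟨?_, ?_, ?_, ?_⟩
    · rw [hw]
      exact ((contDiff_const.mul hs).add (contDiff_const.mul (hs'.add contDiff_const))).cexp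
    · intro x _
      rw [hw]
      exact Complex.exp_ne_zero _
    · rw [hw00, Complex.exp_im, h0, Real.sin_zero, mul_zero]
    · rw [hw]
      change (Complex.exp ((1 - (l : ℂ)) * lm 1 + (l : ℂ) * (lm' 1 + (lm 0 - lm' 0)))).im ≠ 0
      rw [Complex.exp_im]
      apply mul_ne_zero (Real.exp_pos _).ne'
      apply Ang_sin_ne (m := m)
      have e : ((1 - (l : ℂ)) * lm 1 + (l : ℂ) * (lm' 1 + (lm 0 - lm' 0))).im =
          (1 - l) * (lm 1).im + l * (lm' 1).im := by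
        simp [h0, h0']
      rw [e]
      obtain ⟨a1, a2⟩ := h1
      obtain ⟨b1, b2⟩ := h1'
      obtain ⟨c1, c2⟩ := hl
      constructor
      · rcases eq_or_lt_of_le c1 with h | h
        · rw [← h]
          linarith
        · nlinarith
      · rcases eq_or_lt_of_le c1 with h | h
        · rw [← h]
          linarith
        · nlinarith
  · intro l _
    rw [hw00, hw00]
  · exact ha
  · rw [hw1]
    exact gd_smul (Real.exp_pos _) H

theorem gd_om {L : SL} {B : Set (ℂ × ℝ)} {t : ℝ} (ht : 0 < t) (ha : ∀ x ∈ Icc 0 (1 + t), g0 x ∉ Sp L ∪ B) (m : ℤ)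
    (H : Gd L B t g0 (kk (om (m - 1) 1))) : Gd L B t g0 (kk (om m (-1))) := by
  obtain ⟨lm, h1, h2, h3, h4⟩ := om_exp m (Or.inr rfl : (-1 : ℝ) = 1 ∨ (-1 : ℝ) = -1)
  obtain ⟨lm', h1', h2', h3', h4'⟩ := om_exp (m - 1) (Or.inl rfl : (1 : ℝ) = 1 ∨ (1 : ℝ) = -1)
  have e : om m (-1) = fun x => Complex.exp (lm x) := funext h2
  have e' : om (m - 1) 1 = fun x => Complex.exp (lm' x) := funext h2'
  have hpi := Real.pi_pos
  rw [e]
  rw [e'] at H
  apply gd_ang ht h1 h1' (by rw [h3, Complex.zero_im]) (by rw [h3', Complex.zero_im]) (m := m - 1) _ _ ha H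
  · rw [h4]
    push_cast
    constructor <;> nlinarith
  · rw [h4']
    push_cast
    constructor <;> nlinarith

theorem gd_om' {L : SL} {B : Set (ℂ × ℝ)} {t : ℝ} (ht : 0 < t) (ha : ∀ x ∈ Icc 0 (1 + t), g0 x ∉ Sp L ∪ B) (m : ℤ)
    (H : Gd L B t g0 (kk (om m (-1)))) : Gd L B t g0 (kk (om (m - 1) 1)) := by
  obtain ⟨lm', h1', h2', h3', h4'⟩ := om_exp m (Or.inr rfl : (-1 : ℝ) = 1 ∨ (-1 : ℝ) = -1)
  obtain ⟨lm, h1, h2, h3, h4⟩ := om_exp (m - 1) (Or.inl rfl : (1 : ℝ) = 1 ∨ (1 : ℝ) = -1)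
  have e' : om m (-1) = fun x => Complex.exp (lm' x) := funext h2'
  have e : om (m - 1) 1 = fun x => Complex.exp (lm x) := funext h2
  have hpi := Real.pi_pos
  rw [e]
  rw [e'] at H
  apply gd_ang ht h1 h1' (by rw [h3, Complex.zero_im]) (by rw [h3', Complex.zero_im]) (m := m - 1) _ _ ha H
  · rw [h4]
    push_cast
    constructor <;> nlinarith
  · rw [h4']
    push_cast
    constructor <;> nlinarith

end Pool.Agent.KNS
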