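import Pool.Agent.KNS.FAng
import Pool.Agent.KNF.Cls

/-!
# KNS/FCls: classification of the directions
-/

open scoped ContDiff Topology
open Set Filter
open Pool.Agent.CSG (stp)
open Pool.Agent.RSG (ex)
open Complex (I)
open Pool.Agent.KNT
open Pool.Agent.KNF
open Pool.Agent.LKF (PEq BdC BdT)

namespace Pool.Agent.KNS

theorem cls_step1 {L : SL} {B : Set (ℂ × ℝ)} {t : ℝ} {k : ℝ → ℂ × ℝ} (hD : Dat (Sp L ∪ B) t g0 k) {α : ℝ → ℝ} {w : ℝ → ℂ}
    (hα : ContDiff ℝ ∞ α) (hw : ContDiff ℝ ∞ w)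
    (hk : ∀ x, k x = fderiv ℝ be (x, 0) (α x, w x)) (H : Gd L B t g0 (kk w)) : Gd L B t g0 k := by
  have hne := cls_wne hD hk
  obtain ⟨ha0, hf0⟩ := cls_foot hD hk
  have ht1 := cls_tip hD hk
  have hsm := cls_sm hα hw
  have hF : DatFam (Sp L ∪ B) t (fun _ => g0)
      (fun l x => fderiv ℝ be (x, 0) ((1 - l) * α x, w x)) := by
    refine ⟨g0_smooth.comp contDiff_snd, hsm, ?_, fun _ _ => rfl, ?_⟩
    · intro l hl
      refine ⟨hD.pos, g0_smooth, ?_, hD.inj, hD.off, ?_, ?_, ?_, hD.avoid⟩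
      · exact hsm.comp (contDiff_const.prodMk contDiff_id : ContDiff ℝ ∞ fun x : ℝ => (l, x))
      · intro x hx
        exact cls_lin (hne x hx)
      · show (fderiv ℝ be (0, 0) ((1 - l) * α 0, w 0)).1 = 0
        rw [be_fd_zero, ha0, hf0]
        apply Complex.ext <;> simp
      · show LinearIndependent ℝ ![(deriv g0 1).1, (fderiv ℝ be (1, 0) ((1 - l) * α 1, w 1)).1]
        rw [LinearIndependent.pair_iff]
        intro s u hs
        rw [g0_deriv, be_fd_one, be_fd_one] at hs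
        have h2 := congrArg Complex.re hs
        have h3 := congrArg Complex.im hs
        simp at h2 h3
        rcases h3 with h3 | h3
        · rw [h3] at h2
          simp at h2
          exact ⟨h2, h3⟩
        · exact absurd h3 ht1
    · intro l hl
      show fderiv ℝ be (0, 0) ((1 - l) * α 0, w 0) = fderiv ℝ be (0, 0) ((1 - 0) * α 0, w 0)
      rw [ha0]
      simp
  have h1 := Gd_fam hF (by
    refine Gd_congr (g' := g0) (k' := kk w) (fun _ _ => rfl) ?_ H
    intro x hx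
    show kk w x = fderiv ℝ be (x, 0) ((1 - 1) * α x, w x)
    rw [sub_self, zero_mul]
    rfl)
  refine Gd_congr (fun _ _ => rfl) ?_ h1
  intro x hx
  show fderiv ℝ be (x, 0) ((1 - 0) * α x, w x) = k x
  rw [hk x]
  simp

theorem cls_step4 {L : SL} {B : Set (ℂ × ℝ)} {t : ℝ} {w : ℝ → ℂ} (ht : 0 < t) (ha : ∀ x ∈ Icc 0 (1 + t), g0 x ∉ Sp L ∪ B)
    (hw : ContDiff ℝ ∞ w) (hne : ∀ x, w x ≠ 0) (h0 : (w 0).im = 0) (hpos : 0 < (w 0).re) (h1 : (w 1).im ≠ 0)
    (H : ∀ m : ℤ, Gd L B t g0 (kk (om m 1))) : Gd L B t g0 (kk w) := by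
  obtain ⟨lm, hlm, hl0, hle⟩ := exists_log hw hne 0 ((Real.log (w 0).re : ℝ) : ℂ) (by
    rw [← Complex.ofReal_exp, Real.exp_log hpos]
    apply Complex.ext <;> simp [h0])
  have hl0' : (lm 0).im = 0 := by rw [hl0]; simp
  have hsin : Real.sin (lm 1).im ≠ 0 := by
    intro hs
    apply h1
    rw [← hle 1, Complex.exp_im, hs, mul_zero]
  have hpi := Real.pi_pos
  obtain ⟨m, hm⟩ : ∃ m : ℤ, m = ⌊(lm 1).im / Real.pi⌋ := ⟨_, rfl⟩
  have hm1 : (m : ℝ) ≤ (lm 1).im / Real.pi := by rw [hm]; exact Int.floor_le _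
  have hm2 : (lm 1).im / Real.pi < m + 1 := by rw [hm]; exact Int.lt_floor_add_one _
  rw [le_div_iff₀ hpi] at hm1
  rw [div_lt_iff₀ hpi] at hm2
  have hm3 : (m : ℝ) * Real.pi ≠ (lm 1).im := by
    intro h
    apply hsin
    rw [← h]
    exact Real.sin_int_mul_pi m
  have hm4 : (lm 1).im ∈ Ioo (Real.pi * m) (Real.pi * (m + 1)) := by
    constructor
    · rw [mul_comm]
      exact lt_of_le_of_ne hm1 hm3
    · rw [mul_comm]
      exact hm2
  obtain ⟨lm', hlm', hle', hl0'', hl1'⟩ := om_exp m (σ := 1) (Or.inl rfl)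
  have hm5 : (lm' 1).im ∈ Ioo (Real.pi * m) (Real.pi * (m + 1)) := by
    rw [hl1']
    constructor <;> linarith
  have hG := gd_ang (L := L) (B := B) (t := t) ht hlm hlm' hl0' (by rw [hl0'']; simp) hm4 hm5 ha (by
    have e1 : (fun x => Complex.exp (lm' x)) = om m 1 := by
      funext x
      exact (hle' x).symm
    rw [e1]
    exact H m)
  have e2 : (fun x => Complex.exp (lm x)) = w := by
    funext x
    exact hle x
  rw [e2] at hG
  exact hG

theorem cls {L : SL} {B : Set (ℂ × ℝ)} {t : ℝ} {k : ℝ → ℂ × ℝ} (hD : Dat (Sp L ∪ B) t g0 k)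
    (H : ∀ m : ℤ, Gd L B t g0 (kk (om m 1))) : Gd L B t g0 k := by
  obtain ⟨α, w, hα, hw, hk⟩ := be_dec hD.smk
  have hne := cls_wne hD hk
  obtain ⟨ha0, hf0⟩ := cls_foot hD hk
  have ht1 := cls_tip hD hk
  have ht := hD.pos
  refine cls_step1 hD hα hw hk ?_
  obtain ⟨c, hc, hcx, hcW⟩ := exists_clamp (a := 0) (b := 1 + t) (by linarith) (W := {x | w x ≠ 0})
    (isOpen_ne_fun hw.continuous continuous_const) (fun x hx => hne x hx)
  have m0 : (0 : ℝ) ∈ Icc 0 (1 + t) := ⟨le_refl _, by linarith⟩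
  have m1 : (1 : ℝ) ∈ Icc 0 (1 + t) := ⟨by norm_num, by linarith⟩
  have hw' : ContDiff ℝ ∞ (fun x => w (c x)) := hw.comp hc
  have e0 : w (c 0) = w 0 := by rw [hcx 0 m0]
  have e1 : w (c 1) = w 1 := by rw [hcx 1 m1]
  refine Gd_congr (g' := g0) (k' := kk (fun x => w (c x))) (fun _ _ => rfl) ?_ ?_
  · intro x hx
    show fderiv ℝ be (x, 0) (0, w (c x)) = fderiv ℝ be (x, 0) (0, w x)
    rw [hcx x hx]
  have hre : (w 0).re ≠ 0 := by
    intro h
    exact hne 0 m0 (Complex.ext h hf0)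
  rcases lt_or_gt_of_ne hre with hneg | hpos
  · apply Gd_neg
    have e2 : (fun x => -kk (fun x => w (c x)) x) = kk (fun x => -w (c x)) := by
      funext x
      show -(fderiv ℝ be (x, 0) (0, w (c x))) = fderiv ℝ be (x, 0) (0, -w (c x))
      rw [← map_neg]
      congr 1
      simp
    rw [e2]
    refine cls_step4 ht hD.avoid hw'.neg (fun x => neg_ne_zero.2 (hcW x)) ?_ ?_ ?_ H
    · show (-w (c 0)).im = 0
      rw [e0, Complex.neg_im, hf0, neg_zero]
    · show 0 < (-w (c 0)).re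
      rw [e0, Complex.neg_re]
      linarith
    · show (-w (c 1)).im ≠ 0
      rw [e1, Complex.neg_im]
      exact neg_ne_zero.2 ht1
  · refine cls_step4 ht hD.avoid hw' hcW ?_ ?_ ?_ H
    · show (w (c 0)).im = 0
      rw [e0, hf0]
    · show 0 < (w (c 0)).re
      rw [e0]
      exact hpos
    · show (w (c 1)).im ≠ 0
      rw [e1]
      exact ht1

end Pool.Agent.KNS
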