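import Pool.Agent.KNS.Fam
import Pool.Agent.KNF.Fam

/-!
# KNS/FFam: families of directions
-/

open scoped ContDiff Topology
open Set Filter
open Pool.Agent.CSG (stp)
open Pool.Agent.RSG (ex)
open Complex (I)
open Pool.Agent.KNT
open Pool.Agent.KNF
open Pool.Agent.LKF (PEq BdC BdT)

namespace Pool.Agent.KNS

theorem gd_kk {L : SL} {B : Set (ℂ × ℝ)} {t : ℝ} {w : ℝ → ℝ → ℂ} (ht : 0 < t)
    (hs : ContDiff ℝ ∞ fun p : ℝ × ℝ => w p.1 p.2) (h : ∀ l ∈ Icc (0 : ℝ) 1, Om t (w l))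
    (h0 : ∀ l ∈ Icc (0 : ℝ) 1, w l 0 = w 0 0) (ha : ∀ x ∈ Icc 0 (1 + t), g0 x ∉ Sp L ∪ B)
    (H : Gd L B t g0 (kk (w 1))) : Gd L B t g0 (kk (w 0)) := by
  have h1 : DatFam (Sp L ∪ B) t (fun _ => g0) (fun l => kk (w l)) :=
    { smg := g0_smooth.comp contDiff_snd
      smk := kk_smooth hs
      dat := fun l hl => dat_kk ht (h l hl) ha
      foot := fun l _ => rfl
      footk := by
        intro l hl
        simp only [kk]
        rw [h0 l hl] }
  exact Gd_fam h1 H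

theorem gd_smul {L : SL} {B : Set (ℂ × ℝ)} {t c : ℝ} {g k : ℝ → ℂ × ℝ} (hc : 0 < c) (H : Gd L B t g k) :
    Gd L B t g (fun x => c • k x) := by
  intro Φ c' hc' hconf hcore hn
  refine H Φ (c' * c) (mul_pos hc' hc) hconf hcore ?_
  intro x hx
  rw [hn x hx, smul_smul]

end Pool.Agent.KNS
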