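import Pool.Agent.KNS.Bas
import Pool.Agent.KNF.Fou

/-!
# KNS/FFou: one `four` move changes `om m 1` into `om m (-1)`
-/

open scoped ContDiff Topology
open Set Filter
open Pool.Agent.CSG (stp)
open Pool.Agent.RSG (ex)
open Complex (I)
open Pool.Agent.KNT
open Pool.Agent.KNF
open Pool.Agent.LKF (PEq BdC BdT)

namespace Pool.Agent.KNS

theorem four_step {L : SL} {D : Set (ℂ × ℝ)} {t d e N B : ℝ} {m : ℤ} (ht : 0 < t) (hd : 1 + t < d) (he : 0 < e)
    (hB : ∀ y, ‖ww d t y‖ ≤ B) (hN : 3 * B + 2 ≤ N)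
    (havoid : ∀ q : ℂ × ℝ, ‖q.1‖ < N → |q.2| < 2 → T d m e q ∉ Sp L ∪ D)
    (hCD : Cfb ((t, mo (om m 1) e) :: L) D) (hCD' : Cfb ((t, mo (om m (-1)) e) :: L) D) :
    PEq (Kn ((t, mo (om m 1) e) :: L)) D (Kn ((t, mo (om m (-1)) e) :: L)) D := by
  have hC := hCD.conf
  have hC' := hCD'.conf
  have havo : ∀ q : ℂ × ℝ, ‖q.1‖ < N → |q.2| < 2 → T d m e q ∉ Sp L := fun q h1 h2 h3 =>
    havoid q h1 h2 (Or.inl h3)
  have hd1 : 1 < d := by linarith
  have hT := T_ch hd1 he m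
  have hL : Conf L := (conf_cons.1 hC).2.1
  have hB0 : 0 ≤ B := (norm_nonneg _).trans (hB 0)
  obtain ⟨lm, hlm, hlm1, hlm2, hlm3⟩ := ww_log ht hd
  have hw := ww_smooth ht hd
  set w := ww d t with hwdef
  set Z : Set (ℂ × ℝ) := ((U \ Bs L) \ (T d m e '' {q | |q.2| < 1})) ∪ Fg L with hZ
  -- the knots
  have k1 : Kn ((t, mo (om m 1) e) :: L) = Z ∪ (fun q => T d m e (FouH w q)) '' Str := by
    rw [fou_set (Or.inl rfl) ht hd he hB hN havo hC]
    congr 1
    apply Subset.antisymm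
    · rintro p (⟨s, hs, rfl⟩ | ⟨s, hs, rfl⟩)
      · refine ⟨(1, s), ⟨Or.inl rfl, abs_lt.2 hs⟩, ?_⟩
        show T d m e (w s / 2 - 1 + 1 * (w s / 2), s) = T d m e (⟨(w s).re - 1, 1 * (w s).im⟩, s)
        congr 2
        apply Complex.ext
        · simp; ring
        · simp
      · refine ⟨(-1, s), ⟨Or.inr rfl, abs_lt.2 hs⟩, ?_⟩
        show T d m e (w s / 2 - 1 + (-1) * (w s / 2), s) = T d m e (-1, s)
        congr 2
        ring
    · rintro p ⟨⟨z, s⟩, ⟨hz, hs⟩, rfl⟩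
      rcases hz with hz | hz
      · have hz' : z = 1 := hz
        subst hz'
        left
        refine ⟨s, abs_lt.1 hs, ?_⟩
        show T d m e (⟨(w s).re - 1, 1 * (w s).im⟩, s) = T d m e (w s / 2 - 1 + 1 * (w s / 2), s)
        congr 2
        apply Complex.ext
        · simp; ring
        · simp
      · have hz' : z = -1 := hz
        subst hz'
        right
        refine ⟨s, abs_lt.1 hs, ?_⟩
        show T d m e (-1, s) = T d m e (w s / 2 - 1 + (-1) * (w s / 2), s)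
        congr 2
        ring
  have k2 := fou_set (σ := -1) (Or.inr rfl) ht hd he hB hN havo hC'
  -- disjointness
  have hdisj : ∀ p ∈ T d m e '' {q : ℂ × ℝ | ‖q.1‖ < N ∧ |q.2| < 1}, p ∉ Z := by
    rintro _ ⟨q, ⟨hq1, hq2⟩, rfl⟩ (hz | hz)
    · exact hz.2 ⟨q, hq2, rfl⟩
    · exact havo q hq1 (by linarith) (Fg_sub hL hz)
  have hsubO : (fun q => T d m e (FouH w q)) '' Dom ⊆ T d m e '' {q : ℂ × ℝ | ‖q.1‖ < N ∧ |q.2| < 1} := by
    rintro _ ⟨q, ⟨hq1, hq2⟩, rfl⟩
    refine ⟨FouH w q, ⟨?_, hq2⟩, rfl⟩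
    show ‖w q.2 / 2 - 1 + q.1 * (w q.2 / 2)‖ < N
    have n1 : ‖w q.2 / 2‖ ≤ B / 2 := by
      rw [norm_div]
      have := hB q.2
      simp only [Complex.norm_ofNat]
      linarith
    have n2 : ‖w q.2 / 2 - 1 + q.1 * (w q.2 / 2)‖ ≤ ‖w q.2 / 2‖ + 1 + ‖q.1‖ * ‖w q.2 / 2‖ := by
      calc ‖w q.2 / 2 - 1 + q.1 * (w q.2 / 2)‖ ≤ ‖w q.2 / 2 - 1‖ + ‖q.1 * (w q.2 / 2)‖ := norm_add_le _ _
        _ ≤ (‖w q.2 / 2‖ + ‖(1 : ℂ)‖) + ‖q.1‖ * ‖w q.2 / 2‖ := by
            gcongr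
            · exact norm_sub_le _ _
            · exact norm_mul_le _ _
        _ = _ := by rw [norm_one]
    have n3 : ‖q.1‖ * ‖w q.2 / 2‖ ≤ 4 * (B / 2) :=
      mul_le_mul hq1.le n1 (norm_nonneg _) (by norm_num)
    linarith
  have hZb : Disjoint Z ((fun q => T d m e (FouH w q)) '' Dom) := by
    rw [Set.disjoint_right]
    intro p hp
    exact hdisj p (hsubO hp)
  have hdisD : ∀ p ∈ T d m e '' {q : ℂ × ℝ | ‖q.1‖ < N ∧ |q.2| < 1}, p ∉ D := by
    rintro _ ⟨q, ⟨hq1, hq2⟩, rfl⟩ hz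
    exact havoid q hq1 (by linarith) (Or.inr hz)
  have hDb : Disjoint D ((fun q => T d m e (FouH w q)) '' Dom) := by
    rw [Set.disjoint_right]
    intro p hp
    exact hdisD p (hsubO hp)
  have A := PEq.four (Fou_balC hT hw hlm hlm1)
    (bdC_of_cont (hT.smooth.continuous.comp (Fou_H_smooth hw).continuous)) hZb hDb
  -- the isotopy
  have hlev := level hT (N := N) (b₀ := fun s => w s / 2 - 1 - ex (2 * gs s) * (w s / 2)) (b₁ := fun _ => -1)
    (l₀ := fun s => lm s + ((4 * Real.pi * gs s : ℝ) : ℂ) * I) (l₁ := fun s => (starRingEnd ℂ) (lm s))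
    (((hw.div_const 2).sub contDiff_const).sub ((Fou_ex_smooth.comp (contDiff_const.mul Fou_gs_smooth)).mul
      (hw.div_const 2))) contDiff_const
    (hlm.add ((Complex.ofRealCLM.contDiff.comp (contDiff_const.mul Fou_gs_smooth)).mul contDiff_const))
    (Fou_conj_smooth.comp hlm) ?_ ?_ ?_
  rotate_left
  · intro s hs1 hs2
    rcases le_abs'.1 hs1 with h | h
    · have h1 : gs s = 0 := Fou_gs_lo (by linarith)
      have h2 := hlm2 s (by linarith)
      constructor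
      · rw [h1, Fou_ex0]; ring
      · rw [h1, h2]
        generalize Real.log 2 = c
        simp
    · have h1 : gs s = 1 := Fou_gs_hi (by linarith)
      have h2 := hlm3 s (by linarith)
      constructor
      · rw [h1, Fou_ex1]; ring
      · rw [h1, h2]
        generalize Real.log 2 = c
        apply Complex.ext
        · simp
        · simp
          ring
  · intro s _
    have n1 : ‖w s / 2‖ ≤ B / 2 := by
      rw [norm_div]
      have := hB s
      simp only [Complex.norm_ofNat]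
      linarith
    have n2 : ‖w s / 2 - 1 - ex (2 * gs s) * (w s / 2)‖ ≤ B + 1 := by
      calc ‖w s / 2 - 1 - ex (2 * gs s) * (w s / 2)‖
          ≤ ‖w s / 2 - 1‖ + ‖ex (2 * gs s) * (w s / 2)‖ := norm_sub_le _ _
        _ ≤ (‖w s / 2‖ + ‖(1 : ℂ)‖) + ‖w s / 2‖ := by
            gcongr
            · exact norm_sub_le _ _
            · rw [norm_mul, Fou_ex_norm, one_mul]
        _ ≤ B + 1 := by rw [norm_one]; linarith
    have n3 : ‖Complex.exp (lm s + ((4 * Real.pi * gs s : ℝ) : ℂ) * I)‖ ≤ B := by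
      rw [Complex.exp_add, norm_mul, hlm1, Complex.norm_exp_ofReal_mul_I, mul_one]
      exact hB s
    linarith
  · intro s _
    have n3 : ‖Complex.exp ((starRingEnd ℂ) (lm s))‖ ≤ B := by
      rw [Complex.exp_conj, hlm1, Complex.norm_conj]
      exact hB s
    simp only [norm_neg, norm_one]
    linarith
  obtain ⟨F, hF, hF1, hF2⟩ := hlev
  have hF' : CD univ F := by
    obtain ⟨C, c1, c2, c3⟩ := hF.supp
    exact ⟨hF.smooth, hF.smooth_symm, C, c1, subset_univ _, c3⟩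
  have hFZ : F '' Z = Z := by
    have hfix : ∀ p ∈ Z, F p = p := by
      intro p hp
      obtain ⟨C, c1, c2, c3⟩ := hF.supp
      apply c3
      intro hpC
      exact hdisj p (c2 hpC) hp
    apply Subset.antisymm
    · rintro _ ⟨p, hp, rfl⟩
      rw [hfix p hp]; exact hp
    · intro p hp
      exact ⟨p, hp, hfix p hp⟩
  have hexp : ∀ s, Complex.exp (lm s + ((4 * Real.pi * gs s : ℝ) : ℂ) * I) = w s * ex (2 * gs s) := by
    intro s
    rw [Complex.exp_add, hlm1]
    unfold ex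
    congr 3
    push_cast
    ring
  have e1 : ∀ s, T d m e (FouH w (ex (2 * gs s), s)) =
      T d m e (w s / 2 - 1 - ex (2 * gs s) * (w s / 2) + Complex.exp (lm s + ((4 * Real.pi * gs s : ℝ) : ℂ) * I), s) := by
    intro s
    rw [hexp]
    unfold FouH
    congr 2
    simp only
    ring
  have e2 : ∀ s, T d m e (FouH w (-ex (2 * gs s), s)) =
      T d m e (w s / 2 - 1 - ex (2 * gs s) * (w s / 2), s) := by
    intro s
    unfold FouH
    congr 2
    simp only
    ring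
  have e3 : ∀ s, T d m e (-1 + Complex.exp ((starRingEnd ℂ) (lm s)), s) =
      T d m e (⟨(w s).re - 1, -1 * (w s).im⟩, s) := by
    intro s
    rw [Complex.exp_conj, hlm1]
    congr 2
    apply Complex.ext
    · simp; ring
    · simp
  have k3 : F '' (Z ∪ (fun q => T d m e (FouH w q)) '' Str2) = Kn ((t, mo (om m (-1)) e) :: L) := by
    rw [k2, image_union, hFZ]
    congr 1
    apply Subset.antisymm
    · rintro _ ⟨_, ⟨⟨z, s⟩, ⟨hz, hs⟩, rfl⟩, rfl⟩
      have hs' : |s| < 1 := hs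
      rcases hz with hz | hz
      · have hz' : z = ex (2 * gs s) := hz
        subst hz'
        left
        refine ⟨s, abs_lt.1 hs', ?_⟩
        show T d m e (⟨(w s).re - 1, -1 * (w s).im⟩, s) = F (T d m e (FouH w (ex (2 * gs s), s)))
        rw [e1, hF1 s hs'.le, e3]
      · have hz' : z = -ex (2 * gs s) := hz
        subst hz'
        right
        refine ⟨s, abs_lt.1 hs', ?_⟩
        show T d m e (-1, s) = F (T d m e (FouH w (-ex (2 * gs s), s)))
        rw [e2, hF2 s hs'.le]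
    · rintro _ (⟨s, hs, rfl⟩ | ⟨s, hs, rfl⟩)
      · have hs' : |s| < 1 := abs_lt.2 hs
        refine ⟨T d m e (FouH w (ex (2 * gs s), s)), ⟨(ex (2 * gs s), s), ⟨Or.inl rfl, hs'⟩, rfl⟩, ?_⟩
        rw [e1, hF1 s hs'.le, e3]
      · have hs' : |s| < 1 := abs_lt.2 hs
        refine ⟨T d m e (FouH w (-ex (2 * gs s), s)), ⟨(-ex (2 * gs s), s), ⟨Or.inr rfl, hs'⟩, rfl⟩, ?_⟩
        rw [e2, hF2 s hs'.le]
  have hFD : Disjoint D (T d m e '' {q : ℂ × ℝ | ‖q.1‖ < N ∧ |q.2| < 1}) := by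
    rw [Set.disjoint_right]
    exact hdisD
  rw [k1]
  have E := PEq.of_fix hF (Z ∪ (fun q => T d m e (FouH w q)) '' Str2) hFD
  rw [k3] at E
  exact A.trans E

end Pool.Agent.KNS
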