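import Pool.Agent.KNS.Dat
import Pool.Agent.KNF.Mod

/-!
# KNS/FMod: the model strips
-/

open scoped ContDiff Topology
open Set Filter
open Pool.Agent.CSG (stp)
open Pool.Agent.RSG (ex)
open Complex (I)
open Pool.Agent.KNT
open Pool.Agent.KNF
open Pool.Agent.LKF (PEq BdC BdT)

namespace Pool.Agent.KNS

theorem mo_cfb {L : SL} {B : Set (ℂ × ℝ)} {t : ℝ} {w : ℝ → ℂ} (ht : 0 < t) (h : Om t w) (hL : Cfb L B)
    (ha : ∀ x ∈ Icc 0 (1 + t), g0 x ∉ Sp L ∪ B) :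
    ∃ e₀ : ℝ, 0 < e₀ ∧ ∀ e : ℝ, 0 < e → e ≤ e₀ → Cfb ((t, mo w e) :: L) B := by
  have hO : IsOpen {p : ℝ × ℂ | be p ∉ Sp L ∪ B} :=
    hL.closed.isOpen_compl.preimage be_smooth.continuous
  obtain ⟨r, hr, h1⟩ := near_pos (isCompact_Icc : IsCompact (Icc (0 : ℝ) (1 + t))) hO ha
  obtain ⟨M, hM⟩ := (isCompact_Icc : IsCompact (Icc (0 : ℝ) (1 + t))).exists_bound_of_continuousOn
    h.smooth.continuous.continuousOn
  have hM0 : 0 ≤ M := (norm_nonneg _).trans (hM 0 ⟨le_rfl, by linarith⟩)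
  refine ⟨r / (M + 1), by positivity, ?_⟩
  intro e he hle
  refine cfb_cons.2 ⟨mo_strip ht h he, hL, ?_⟩
  rw [Set.disjoint_left]
  rintro _ ⟨⟨x, y⟩, ⟨hx, hy⟩, rfl⟩ h2
  refine h1 x hx (((e * y : ℝ) : ℂ) * w x) ?_ h2
  rw [norm_mul, Complex.norm_real, Real.norm_eq_abs, abs_mul, abs_of_pos he]
  have h3 : |y| ≤ 1 := abs_le.2 hy
  have h4 := hM x hx
  have h5 : e * |y| * ‖w x‖ ≤ e * 1 * M := by gcongr
  have h6 : e * (M + 1) ≤ r := by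
    rw [le_div_iff₀ (by positivity)] at hle
    exact hle
  nlinarith

theorem gd_of_mo {L : SL} {B : Set (ℂ × ℝ)} {t e : ℝ} {w : ℝ → ℂ} (he : 0 < e) (hC : Cfb ((t, mo w e) :: L) B)
    (H : Tri (Kn ((t, mo w e) :: L)) B) : Gd L B t g0 (kk w) := by
  intro Φ c hc hΦ hg hn
  have h1 := kn_jet (c := c / e) (div_pos hc he) hC hΦ
    (fun x hx => by rw [hg x hx, mo_core]) (fun x hx => by
      rw [hn x hx, mo_nrm, smul_smul, div_mul_cancel₀ _ he.ne']) (dat_of_cfb hC)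
  exact Tri.of_peq h1.symm H

end Pool.Agent.KNS
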