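import Pool.Agent.KNS.Bas
import Pool.Agent.KNF.Rem
import Pool.Agent.KNT.MapI

/-!
# KNS/FRem: a finger of class 0 can be removed
-/

open scoped ContDiff Topology
open Set Filter
open Pool.Agent.CSG (stp)
open Pool.Agent.RSG (ex)
open Complex (I)
open Pool.Agent.KNT
open Pool.Agent.KNF
open Pool.Agent.LKF (PEq BdC BdT)

namespace Pool.Agent.KNS

theorem rem_zero {L : SL} {B : Set (ℂ × ℝ)} {t e : ℝ} (he : 0 < e) (hCB : Cfb ((t, mo (om 0 1) e) :: L) B)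
    (IH : ∀ (L' : SL) (B' : Set (ℂ × ℝ)), L'.length = L.length → Cfb L' B' → Tri (Kn L') B') :
    Tri (Kn ((t, mo (om 0 1) e) :: L)) B := by
  have hC := hCB.conf
  obtain ⟨hS, hL, hd⟩ := conf_cons.1 hC
  obtain ⟨F, hF, hFU⟩ := rem_iso hS.pos he
  have hgr : gr (mo (om 0 1) e) (prf t) ⊆ mo (om 0 1) e '' Rec t := gr_sub hS (isPrf_prf hS.pos)
  have hbas : bas (mo (om 0 1) e) ⊆ mo (om 0 1) e '' Rec t := Rem_bas_sub hS.pos
  have hcl : IsClosed (mo (om 0 1) e '' Rec t) := hS.rec_compact.isClosed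
  have key : ∀ x, x ∉ mo (om 0 1) e '' Rec t →
      (x ∈ (U \ bas (mo (om 0 1) e)) ∪ gr (mo (om 0 1) e) (prf t) ↔ x ∈ U) := by
    intro x hx
    constructor
    · rintro (h | h)
      · exact h.1
      · exact absurd (hgr h) hx
    · intro h
      exact Or.inl ⟨h, fun h' => hx (hbas h')⟩
  have hnot : ∀ x, x ∈ Sp L → x ∉ mo (om 0 1) e '' Rec t := fun x hx => Set.disjoint_right.1 hd hx
  have hmeet : ((U \ bas (mo (om 0 1) e)) ∪ gr (mo (om 0 1) e) (prf t)) ∩ Sp L = U ∩ Sp L := by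
    ext x
    constructor
    · rintro ⟨h1, h2⟩
      exact ⟨(key x (hnot x h2)).1 h1, h2⟩
    · rintro ⟨h1, h2⟩
      exact ⟨(key x (hnot x h2)).2 h1, h2⟩
  have hnear : ∀ q ∈ U ∩ Sp L, ∀ᶠ x in 𝓝 q,
      x ∈ (U \ bas (mo (om 0 1) e)) ∪ gr (mo (om 0 1) e) (prf t) ↔ x ∈ U := by
    rintro q ⟨_, h2⟩
    filter_upwards [hcl.isOpen_compl.mem_nhds (hnot q h2)] with x hx
    exact key x hx
  have hC' := conf_mp hL hF hFU hmeet hnear
  have hU' : Disjoint U (F '' B) := by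
    rw [← hFU, disjoint_image_iff F.injective, disjoint_union_left]
    refine ⟨hCB.dU.mono_left sdiff_subset, hCB.dS.mono_left ?_⟩
    rw [Sp_cons]
    exact hgr.trans subset_union_left
  have hS' : Disjoint (Sp (mp F L)) (F '' B) := by
    rw [Sp_mp, disjoint_image_iff F.injective]
    refine hCB.dS.mono_left ?_
    rw [Sp_cons]
    exact subset_union_right
  have hIH := IH (mp F L) (F '' B) (by simp [mp]) ⟨hC', hCB.spc.image hF.smooth, hU', hS'⟩
  rw [Kn_mp hL hFU] at hIH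
  have e1 : (((U \ bas (mo (om 0 1) e)) ∪ gr (mo (om 0 1) e) (prf t)) \ Bs L) ∪ Fg L =
      Kn ((t, mo (om 0 1) e) :: L) := by
    have hK : Kn ((t, mo (om 0 1) e) :: L) =
        (U \ (bas (mo (om 0 1) e) ∪ Bs L)) ∪ (gr (mo (om 0 1) e) (prf t) ∪ Fg L) := by
      unfold Kn
      rw [Bs_cons, Fg_cons]
    rw [hK]
    ext x
    constructor
    · rintro (⟨⟨h1, h2⟩ | h1, h3⟩ | h1)
      · exact Or.inl ⟨h1, fun h => h.elim h2 h3⟩
      · exact Or.inr (Or.inl h1)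
      · exact Or.inr (Or.inr h1)
    · rintro (⟨h1, h2⟩ | h1 | h1)
      · exact Or.inl ⟨Or.inl ⟨h1, fun h => h2 (Or.inl h)⟩, fun h => h2 (Or.inr h)⟩
      · refine Or.inl ⟨Or.inr h1, fun h => ?_⟩
        exact hnot x (Rem_Bs_sub hL h) (hgr h1)
      · exact Or.inr h1
  rw [e1] at hIH
  exact Tri.diff hF hIH

end Pool.Agent.KNS
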