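import Pool.Agent.KNS.FAff
import Pool.Agent.KNS.FCls
import Pool.Agent.KNS.FFou
import Pool.Agent.KNS.FRem
import Pool.Agent.KNS.FMod
import Pool.Agent.KNF.Fin

/-!
# KNS/FFin: a finger along the semicircle can be removed
-/

open scoped ContDiff Topology
open Set Filter
open Pool.Agent.CSG (stp)
open Pool.Agent.RSG (ex)
open Complex (I)
open Pool.Agent.KNT
open Pool.Agent.KNF
open Pool.Agent.LKF (PEq BdC BdT)

namespace Pool.Agent.KNS

/-- one rung of the ladder, going up or down -/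
theorem rung {L : SL} {B : Set (ℂ × ℝ)} {t d : ℝ} (ht : 0 < t) (hd2 : 1 + 2 * t ≤ d) (hL : Cfb L B)
    (ha : ∀ x, |1 - 2 * x| ≤ d → g0 x ∉ Sp L ∪ B) (m : ℤ) :
    (Gd L B t g0 (kk (om m 1)) ↔ Gd L B t g0 (kk (om m (-1)))) := by
  have hd : 1 + t < d := by linarith
  have ha' : ∀ x ∈ Icc 0 (1 + t), g0 x ∉ Sp L ∪ B := by
    intro x hx
    apply ha
    rw [abs_le]
    constructor <;> linarith [hx.1, hx.2]
  obtain ⟨N, hN⟩ := ww_bdd ht hd
  have hcl : IsClosed (Sp L ∪ B) := hL.closed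
  obtain ⟨e₁, he₁, h1⟩ := T_avoid hcl (by linarith : 1 < d) ha (3 * N + 2) m
  obtain ⟨e₂, he₂, h2⟩ := mo_cfb ht (om_om m (Or.inl rfl) t) hL ha'
  obtain ⟨e₃, he₃, h3⟩ := mo_cfb ht (om_om m (Or.inr rfl) t) hL ha'
  obtain ⟨e, he⟩ : ∃ e : ℝ, e = min e₁ (min e₂ e₃) := ⟨_, rfl⟩
  have he0 : 0 < e := by
    rw [he]
    exact lt_min he₁ (lt_min he₂ he₃)
  have k1 : e ≤ e₁ := he ▸ min_le_left _ _
  have k2 : e ≤ e₂ := he ▸ (min_le_right _ _).trans (min_le_left _ _)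
  have k3 : e ≤ e₃ := he ▸ (min_le_right _ _).trans (min_le_right _ _)
  have c2 := h2 e he0 k2
  have c3 := h3 e he0 k3
  have hF := four_step ht hd he0 hN le_rfl (h1 e he0 k1) c2 c3
  constructor
  · intro H
    refine gd_of_mo he0 c3 (Tri.of_peq hF.symm ?_)
    exact H _ e he0 c2 (fun x _ => mo_core _ _ x) fun x _ => mo_nrm _ _ x
  · intro H
    refine gd_of_mo he0 c2 (Tri.of_peq hF ?_)
    exact H _ e he0 c3 (fun x _ => mo_core _ _ x) fun x _ => mo_nrm _ _ x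

theorem ladder {L : SL} {B : Set (ℂ × ℝ)} {t d : ℝ} (ht : 0 < t) (hd2 : 1 + 2 * t ≤ d) (hL : Cfb L B)
    (ha : ∀ x, |1 - 2 * x| ≤ d → g0 x ∉ Sp L ∪ B)
    (IH : ∀ (L' : SL) (B' : Set (ℂ × ℝ)), L'.length = L.length → Cfb L' B' → Tri (Kn L') B') (m : ℤ) :
    Gd L B t g0 (kk (om m 1)) := by
  have hd : 1 + t < d := by linarith
  have ha' : ∀ x ∈ Icc 0 (1 + t), g0 x ∉ Sp L ∪ B := by
    intro x hx
    apply ha
    rw [abs_le]
    constructor <;> linarith [hx.1, hx.2]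
  have step : ∀ m : ℤ, Gd L B t g0 (kk (om m 1)) ↔ Gd L B t g0 (kk (om (m - 1) 1)) := fun m =>
    ⟨fun H => gd_om' ht ha' m ((rung ht hd2 hL ha m).1 H),
      fun H => (rung ht hd2 hL ha m).2 (gd_om ht ha' m H)⟩
  induction m using Int.induction_on with
  | zero =>
    obtain ⟨e, he, h⟩ := mo_cfb ht (om_om 0 (Or.inl rfl) t) hL ha'
    have hC := h e he le_rfl
    exact gd_of_mo he hC (rem_zero he hC IH)
  | succ i ih =>
    rw [step]
    simpa using ih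
  | pred i ih =>
    exact (step _).1 ih

theorem gd_all {L : SL} {B : Set (ℂ × ℝ)} {t : ℝ} {k : ℝ → ℂ × ℝ} (hL : Cfb L B) (hD : Dat (Sp L ∪ B) t g0 k)
    (IH : ∀ (L' : SL) (B' : Set (ℂ × ℝ)), L'.length = L.length → Cfb L' B' → Tri (Kn L') B') : Gd L B t g0 k := by
  refine cls hD fun m => ?_
  have hcl : IsClosed (Sp L ∪ B) := hL.closed
  obtain ⟨d, t', ht', htt, hd, ha⟩ := avoid_ext hcl hD.pos hD.avoid
  refine Gd_reparam (χ := fun x => x) contDiff_id rfl rfl ht' (fun x _ => ?_) (by simpa using htt)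
    (ladder ht' hd hL ha IH m)
  rw [deriv_id'']
  exact one_pos

/-- **A finger along the semicircle can be removed.** -/
theorem Ffinal_HG {u : ℕ} (IH : ∀ (L : SL) (B : Set (ℂ × ℝ)), L.length = u → Cfb L B → Tri (Kn L) B) {c R t : ℝ} (θ₀ : ℝ)
    (hR : R ≠ 0) (_ht : 0 < t) : HG u t (gsph c R θ₀) := by
  refine hg_gsph hR (HG_of_Gd fun L B g' k hu hL hD hg => ?_)
  have hg' : ∀ x ∈ Icc 0 (1 + t), g' x = g0 x := fun x hx => by rw [hg x hx, g0_eq]
  have hD' := dat_congr hD g0_smooth hg'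
  refine Gd_congr (g' := g0) (k' := k) (fun x hx => (hg' x hx).symm) (fun x _ => rfl) ?_
  exact gd_all hL hD' fun L' B' hL' => IH L' B' (hL'.trans hu)

end Pool.Agent.KNS
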