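import Pool.Agent.KNS.Dat

/-!
# KNS/Fam: homotopy of the core data
-/

open scoped ContDiff Topology
open Set Filter
open Pool.Agent.CSG (stp)
open Pool.Agent.RSG (ex)
open Pool.Agent.KNT
open Pool.Agent.LKF (PEq BdC BdT)

namespace Pool.Agent.KNS

theorem Gd_fam {L : SL} {B : Set (ℂ × ℝ)} {t : ℝ} {g k : ℝ → ℝ → ℂ × ℝ} (h : DatFam (Sp L ∪ B) t g k)
    (h1 : Gd L B t (g 1) (k 1)) : Gd L B t (g 0) (k 0) := by
  intro Φ c hc hC hg hk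
  have d0 := h.dat 0 ⟨le_rfl, zero_le_one⟩
  obtain ⟨e₀, he₀, -, hlin⟩ := kn_lin d0 hc hC hg hk
  obtain ⟨hC1, hL1⟩ := hlin e₀ he₀ le_rfl
  have hcf : CoreFam (Sp L ∪ B) t (fun l => Lin (g l) (k l) e₀) := coreFam_lin h he₀
  obtain ⟨e₁, he₁, -, hst⟩ := strip_fam (Φ := fun l => Lin (g l) (k l) e₀) hC1 hcf
  obtain ⟨hC2, hL2⟩ := hst e₁ he₁ le_rfl
  have h3 : thin e₁ (Lin (g 1) (k 1) e₀) = Lin (g 1) (k 1) (e₀ * e₁) := thin_lin _ _ _ _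
  refine Tri.of_peq hL1 (Tri.of_peq hL2 ?_)
  refine h1 _ (e₀ * e₁) (mul_pos he₀ he₁) hC2 ?_ ?_
  · intro x _
    rw [h3]
    show g 1 x + (e₀ * e₁ * 0) • k 1 x = g 1 x
    rw [mul_zero, zero_smul, add_zero]
  · intro x _
    rw [h3]
    exact nrm_lin _ _ _ _

end Pool.Agent.KNS
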