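import Pool.Agent.KNS.Vert
import Pool.Agent.KNT.GE

/-!
# KNS/GE: a long knot is a knot with fingers, with spectators
-/

open scoped ContDiff Topology
open Set Filter
open Pool.Agent.KNT
open Pool.Agent.LKN (Long)
open Pool.Agent.LKF (PEq)

namespace Pool.Agent.KNS

variable {r : ℝ} {w : ℝ → ℂ} {h : ℝ → ℝ} {d t : ℝ} {S : Finset (ℝ × ℝ)}

theorem GD_shrink (hD : GD r w h d t S) {d' : ℝ} (h0 : 0 < d') (h1 : d' ≤ d) : GD r w h d' (t * (d' / d)) S := by
  have hd := hD.dpos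
  refine ⟨hD.gk, h0, mul_pos hD.tpos (div_pos h0 hd), hD.mem, ?_, ?_, ?_, ?_⟩
  · intro x hx x' hx' y hy y' hy' a1 a2 a3 a4 a5
    have := hD.far x hx x' hx' y hy y' hy' a1 a2 a3 a4 a5
    linarith
  · intro p hp
    have := hD.lo p hp
    linarith
  · intro p hp
    have := hD.hi p hp
    linarith
  · intro p hp
    have h2 := hD.small p hp
    have h3 : t * (d' / d) * (p.2 - p.1) = (t * (p.2 - p.1)) * (d' / d) := by ring
    rw [h3]
    calc (t * (p.2 - p.1)) * (d' / d) ≤ d * (d' / d) := mul_le_mul_of_nonneg_right h2 (by positivity)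
      _ = d' := mul_div_cancel₀ _ hd.ne'

theorem long_closed {R : ℝ} {k : ℝ → ℂ × ℝ} (hk : Continuous k) (he : ∀ l, R ≤ |l| → k l = (0, l)) :
    IsClosed (range k) := by
  have e : range k = k '' Icc (-R) R ∪ {q : ℂ × ℝ | q.1 = 0 ∧ R ≤ |q.2|} := by
    ext q
    constructor
    · rintro ⟨l, rfl⟩
      by_cases hl : |l| ≤ R
      · exact Or.inl ⟨l, abs_le.1 hl, rfl⟩
      · right
        rw [he l (not_le.1 hl).le]
        exact ⟨rfl, (not_le.1 hl).le⟩
    · rintro (⟨l, -, rfl⟩ | ⟨h1, h2⟩)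
      · exact ⟨l, rfl⟩
      · refine ⟨q.2, ?_⟩
        rw [he q.2 h2]
        exact Prod.ext h1.symm rfl
  rw [e]
  refine (isCompact_Icc.image hk).isClosed.union (IsClosed.inter ?_ ?_)
  · exact isClosed_eq continuous_fst continuous_const
  · exact isClosed_le continuous_const continuous_snd.abs

/-- the lines over the double points -/
def Lns (w : ℝ → ℂ) (S : Finset (ℝ × ℝ)) : Set (ℂ × ℝ) := ⋃ p ∈ S, {q : ℂ × ℝ | q.1 = w p.1}

theorem Lns_closed (w : ℝ → ℂ) (S : Finset (ℝ × ℝ)) : IsClosed (Lns w S) :=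
  S.finite_toSet.isClosed_biUnion fun _ _ => isClosed_eq continuous_fst continuous_const

theorem Lns_cov (w : ℝ → ℂ) (S : Finset (ℝ × ℝ)) : Cov (Lns w S) := by
  refine cov_of (ι := S) (fun p y => (w p.1.1, y)) (fun p => contDiff_const.prodMk contDiff_id) ?_
  intro q hq
  obtain ⟨p, hp, hq⟩ := mem_iUnion₂.1 hq
  exact mem_iUnion.2 ⟨⟨p, hp⟩, q.2, Prod.ext (Eq.symm hq) rfl⟩

/-- a compact set off the lines has positive distance from the lines -/
theorem off_lns {B : Set (ℂ × ℝ)} (hB : IsCompact B) (hd : Disjoint B (Lns w S)) :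
    ∃ ε : ℝ, 0 < ε ∧ ∀ q ∈ B, ∀ p ∈ S, ε ≤ ‖q.1 - w p.1‖ := by
  have key : ∀ p ∈ S, ∃ ε : ℝ, 0 < ε ∧ ∀ q ∈ B, ε ≤ ‖q.1 - w p.1‖ := by
    intro p hp
    obtain ⟨ε, hε, h1⟩ := hB.exists_forall_le' (f := fun q : ℂ × ℝ => ‖q.1 - w p.1‖) (a := 0)
      (by fun_prop) (by
        intro q hq
        rw [norm_pos_iff, sub_ne_zero]
        intro h2
        exact Set.disjoint_left.1 hd hq (mem_iUnion₂.2 ⟨p, hp, h2⟩))
    exact ⟨ε, hε, h1⟩
  choose! e he1 he2 using key
  rcases S.eq_empty_or_nonempty with hS | hS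
  · refine ⟨1, one_pos, fun q _ p hp => ?_⟩
    rw [hS] at hp
    exact absurd hp (Finset.notMem_empty p)
  · obtain ⟨p₀, hp₀, hmin⟩ := S.exists_min_image e hS
    exact ⟨e p₀, he1 p₀ hp₀, fun q hq p hp => (hmin p hp).trans (he2 p hp q hq)⟩

theorem small_d {ε : ℝ} (hε : 0 < ε) (hw : Continuous w) (S : Finset (ℝ × ℝ)) :
    ∃ d₀ : ℝ, 0 < d₀ ∧ ∀ p ∈ S, ∀ x : ℝ, |x - p.1| ≤ d₀ → ‖w x - w p.1‖ < ε := by
  have key : ∀ p ∈ S, ∃ d : ℝ, 0 < d ∧ ∀ x : ℝ, |x - p.1| < d → ‖w x - w p.1‖ < ε := by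
    intro p _
    obtain ⟨d, hd, h1⟩ := Metric.continuousAt_iff.1 (hw.continuousAt (x := p.1)) ε hε
    exact ⟨d, hd, fun x hx => by simpa [dist_eq_norm] using h1 (by simpa [Real.dist_eq] using hx)⟩
  choose! e he1 he2 using key
  rcases S.eq_empty_or_nonempty with hS | hS
  · refine ⟨1, one_pos, fun p hp => ?_⟩
    rw [hS] at hp
    exact absurd hp (Finset.notMem_empty p)
  · obtain ⟨p₀, hp₀, hmin⟩ := S.exists_min_image e hS
    refine ⟨e p₀ / 2, half_pos (he1 p₀ hp₀), fun p hp x hx => he2 p hp x ?_⟩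
    have := hmin p hp
    have := he1 p₀ hp₀
    linarith

/-- **Block G**: a long knot with spectators is a knot with fingers, with spectators. -/
theorem long_strips {K B : Set (ℂ × ℝ)} (hK : LongK K) (hB : Spc B) (hKB : Disjoint K B) :
    ∃ (L : SL) (F : Equiv.Perm (ℂ × ℝ)), CD univ F ∧ F '' K = Kn L ∧ Cfb L (F '' B) := by
  obtain ⟨r, w, h, F, hk, hF, hFK⟩ := exists_GK hK
  obtain ⟨d₁, t₁, S, hD₁⟩ := exists_GD hk
  obtain ⟨r', hr', hw⟩ := hk.sup
  have hcl : IsClosed (range fun l => (w l, h l)) := by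
    refine long_closed (R := r') (hk.smw.prodMk hk.smh).continuous fun l hl => ?_
    rw [hw l hl, hk.ends l (hr'.trans hl)]
  have hB1 : Spc (F '' B) := hB.image hF.smooth
  have hd1 : Disjoint (range fun l => (w l, h l)) (F '' B) := by
    rw [← hFK, disjoint_image_iff F.injective]
    exact hKB
  obtain ⟨G, hG, hGd⟩ := gen_off hB1 (Lns_closed w S) (Lns_cov w S) hcl
    ((hd1.mono_right inter_subset_left).symm)
  have hGK : G '' (range fun l => (w l, h l)) = range fun l => (w l, h l) :=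
    hG.image_disj disjoint_compl_right
  have hB2 : Spc (G '' (F '' B)) := hB1.image hG.smooth
  obtain ⟨ε, hε, hεB⟩ := off_lns hB2.cpt hGd
  obtain ⟨d₀, hd₀, hdw⟩ := small_d hε hk.smw.continuous S
  have hD := GD_shrink hD₁ (lt_min hd₀ hD₁.dpos) (min_le_right _ _)
  set d : ℝ := min d₀ d₁ with hdd
  set t : ℝ := t₁ * (d / d₁) with htt
  obtain ⟨F', hF', hF'v, hF'k⟩ := vert_iso (R := r') hk.smh (hA_smooth d t S) (fun s hs => hD.lng hr' hw hs)
  obtain ⟨F'', hF'', hsh⟩ := exists_shear hk.smw hw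
  have e1 : F' '' (range fun l => (w l, h l)) = range fun l => (w l, hA d t S l) := by
    rw [← range_comp]
    congr 1
    funext l
    exact hF'k l
  have e2 : ((F.trans G).trans (F'.trans F'')) '' K = Kn (SLs w d t S) := by
    rw [← Kn_SLs hD hsh, ← e1, ← hGK, ← hFK]
    simp only [← image_comp]
    rfl
  have hCD : CD univ ((F.trans G).trans (F'.trans F'')) :=
    (hF.comp (hG.mono (subset_univ _))).comp (hF'.comp hF'')
  refine ⟨SLs w d t S, (F.trans G).trans (F'.trans F''), hCD, e2, ?_⟩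
  have hsp : Disjoint (Sp (SLs w d t S)) (((F.trans G).trans (F'.trans F'')) '' B) := by
    rw [Set.disjoint_left]
    intro x hx hxB
    obtain ⟨s, hs, q, hq, rfl⟩ := mem_iUnion₂.1 hx
    obtain ⟨p, hp, rfl⟩ := mem_SLs.1 hs
    obtain ⟨m1, m2, m3⟩ := Psi_mem hD hp hq
    obtain ⟨b, hb, hbe⟩ := hxB
    have h1 : F'' (F' (G (F b))) = F'' (w (p.1 + d * q.2), p.1 + d * q.2 + q.1 * (p.2 - p.1)) := by
      rw [hsh]
      exact hbe
    have h2 := F''.injective h1
    have h3 := hF'v (G (F b))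
    rw [h2] at h3
    have h4 : w (p.1 + d * q.2) = (G (F b)).1 := h3
    have h5 := hεB (G (F b)) ⟨F b, ⟨b, hb, rfl⟩, rfl⟩ p hp
    rw [← h4] at h5
    have h6 := hdw p hp (p.1 + d * q.2) (m3.trans (min_le_left _ _))
    linarith
  have hKn : Disjoint (Kn (SLs w d t S)) (((F.trans G).trans (F'.trans F'')) '' B) := by
    rw [← e2, disjoint_image_iff (Equiv.injective _)]
    exact hKB
  refine ⟨SLs_conf hD, hB.image hCD.smooth, ?_, hsp⟩
  rw [Set.disjoint_left]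
  intro x hx hxB
  by_cases hxBs : x ∈ Bs (SLs w d t S)
  · exact Set.disjoint_left.1 hsp (RepI_Bs_sub (SLs_conf hD) hxBs) hxB
  · exact Set.disjoint_left.1 hKn (Or.inl ⟨hx, hxBs⟩) hxB

end Pool.Agent.KNS
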