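import Pool.Agent.KNS.Bas
import Pool.Agent.KNT.Dsp

/-!
# KNS/Gen: general position of one-dimensional sets

`gen_off`: a compact set `K` covered by countably many smooth curves is moved off a closed set `C` covered by countably
many smooth curves; the closed set `G₀`, disjoint from `K ∩ C`, is fixed (with a neighbourhood).
-/

open scoped ContDiff Topology
open Set Filter
open Pool.Agent.CSG (stp)
open Pool.Agent.RSG (ex)
open Pool.Agent.KNT
open Pool.Agent.LKF (PEq BdC BdT)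

namespace Pool.Agent.KNS

/-- covered by countably many smooth curves -/
def Cov (C : Set (ℂ × ℝ)) : Prop :=
  ∃ c : ℕ → ℝ → ℂ × ℝ, (∀ n, ContDiff ℝ ∞ (c n)) ∧ C ⊆ ⋃ n, range (c n)

theorem cov_of {ι : Type*} [Countable ι] {C : Set (ℂ × ℝ)} (c : ι → ℝ → ℂ × ℝ) (hc : ∀ i, ContDiff ℝ ∞ (c i))
    (h : C ⊆ ⋃ i, range (c i)) : Cov C := by
  rcases isEmpty_or_nonempty ι with hι | hι
  · refine ⟨fun _ _ => 0, fun _ => contDiff_const, fun x hx => ?_⟩
    obtain ⟨i, -⟩ := mem_iUnion.1 (h hx)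
    exact (hι.false i).elim
  · obtain ⟨f, hf⟩ := exists_surjective_nat ι
    refine ⟨fun n => c (f n), fun n => hc _, fun x hx => ?_⟩
    obtain ⟨i, hi⟩ := mem_iUnion.1 (h hx)
    obtain ⟨n, rfl⟩ := hf i
    exact mem_iUnion.2 ⟨n, hi⟩

theorem Cov.union {C D : Set (ℂ × ℝ)} (h : Cov C) (h' : Cov D) : Cov (C ∪ D) := by
  obtain ⟨c, h1, h2⟩ := h
  obtain ⟨d, h3, h4⟩ := h'
  refine cov_of (ι := ℕ ⊕ ℕ) (Sum.elim c d) ?_ ?_
  · rintro (n | n)
    · exact h1 n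
    · exact h3 n
  · rintro x (hx | hx)
    · obtain ⟨n, hn⟩ := mem_iUnion.1 (h2 hx)
      exact mem_iUnion.2 ⟨Sum.inl n, hn⟩
    · obtain ⟨n, hn⟩ := mem_iUnion.1 (h4 hx)
      exact mem_iUnion.2 ⟨Sum.inr n, hn⟩

theorem Spc.union {C D : Set (ℂ × ℝ)} (h : Spc C) (h' : Spc D) : Spc (C ∪ D) :=
  ⟨h.cpt.union h'.cpt, Cov.union h.cov h'.cov⟩

theorem gen_bad {c d : ℕ → ℝ → ℂ × ℝ} (hc : ∀ n, ContDiff ℝ ∞ (c n)) (hd : ∀ n, ContDiff ℝ ∞ (d n)) :
    Dense (⋃ n, ⋃ m, range fun q : ℝ × ℝ => d n q.1 - c m q.2)ᶜ := by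
  apply dense_compl_of_dimH_lt_finrank
  have hfr : Module.finrank ℝ (ℂ × ℝ) = 3 := by
    rw [Module.finrank_prod, Complex.finrank_real_complex, Module.finrank_self]
  rw [hfr]
  refine lt_of_le_of_lt (b := 2) ?_ (by norm_num)
  rw [dimH_iUnion]
  refine iSup_le fun n => ?_
  rw [dimH_iUnion]
  refine iSup_le fun m => ?_
  have hs : ContDiff ℝ 1 fun q : ℝ × ℝ => d n q.1 - c m q.2 :=
    (((hd n).comp contDiff_fst).sub ((hc m).comp contDiff_snd)).of_le (by simp)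
  have h2 := hs.dimH_range_le
  have h3 : Module.finrank ℝ (ℝ × ℝ) = 2 := by
    rw [Module.finrank_prod, Module.finrank_self]
  rw [h3] at h2
  exact_mod_cast h2

theorem gen_off {K C G₀ : Set (ℂ × ℝ)} (hK : Spc K) (hC : IsClosed C) (hCc : Cov C) (hG : IsClosed G₀)
    (hd : Disjoint (K ∩ C) G₀) : ∃ F : Equiv.Perm (ℂ × ℝ), CD G₀ᶜ F ∧ Disjoint (F '' K) C := by
  obtain ⟨χ, K', N, c1, c2, c3, c4, c5, c6, c7, c8⟩ := Dsp_cut (hK.cpt.inter_right hC) hG hd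
  -- the distance
  obtain ⟨δ, hd0, hd1⟩ := (hK.cpt.diff c3).exists_thickening_subset_open hC.isOpen_compl
    (fun q hq hq' => hq.2 (c4 ⟨hq.1, hq'⟩))
  -- bound of the derivative
  have hcs : HasCompactSupport χ := HasCompactSupport.intro c2 c6
  obtain ⟨M, hM⟩ := (hcs.fderiv (𝕜 := ℝ)).exists_bound_of_continuous
    (c1.continuous_fderiv (by simp))
  have hM0 : 0 ≤ M := (norm_nonneg _).trans (hM 0)
  obtain ⟨c, hc, hcK⟩ := hK.cov
  obtain ⟨d, hdd, hdC⟩ := hCc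
  -- the small vector
  have hε : 0 < min δ (1 / (2 * (M + 1))) := lt_min hd0 (by positivity)
  obtain ⟨v, hv1, hv2⟩ := (gen_bad hc hdd).exists_dist_lt 0 hε
  rw [dist_zero_left] at hv2
  have hvd : ‖v‖ < δ := lt_of_lt_of_le hv2 (min_le_left _ _)
  have hvM : ‖v‖ < 1 / (2 * (M + 1)) := lt_of_lt_of_le hv2 (min_le_right _ _)
  have hGs : ContDiff ℝ ∞ fun q => χ q • v := c1.smul contDiff_const
  have hGd : ∀ x, ‖fderiv ℝ (fun q => χ q • v) x‖ ≤ 1 / 2 := by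
    intro x
    have h1 : HasFDerivAt (fun q => χ q • v) ((fderiv ℝ χ x).smulRight v) x :=
      ((c1.differentiable (by simp)) x).hasFDerivAt.smul_const v
    rw [h1.fderiv, ContinuousLinearMap.norm_smulRight_apply]
    have h2 := hM x
    have h3 : ‖fderiv ℝ χ x‖ * ‖v‖ ≤ M * (1 / (2 * (M + 1))) :=
      mul_le_mul h2 hvM.le (norm_nonneg _) hM0
    refine h3.trans ?_
    rw [mul_one_div, div_le_div_iff₀ (by positivity) (by norm_num)]
    linarith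
  obtain ⟨F, F1, F2, F3⟩ := Pool.Agent.ISO.small_perm hGs hGd
  have hFK : ∀ q, q ∉ K' → F q = q := by
    intro q hq
    rw [F3, c6 q hq, zero_smul, add_zero]
  refine ⟨F, ⟨F1, F2, K', c2, fun q hq hq' => c5.le_bot ⟨hq, hq'⟩, hFK⟩, ?_⟩
  rw [Set.disjoint_left]
  rintro _ ⟨q, hq, rfl⟩ he
  by_cases hN : q ∈ N
  · rw [F3, c7 _ hN, one_smul] at he
    apply hv1
    obtain ⟨m, s, hs⟩ := mem_iUnion.1 (hcK hq)
    obtain ⟨n, s', hs'⟩ := mem_iUnion.1 (hdC he)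
    refine mem_iUnion.2 ⟨n, mem_iUnion.2 ⟨m, (s', s), ?_⟩⟩
    show d n s' - c m s = v
    rw [hs, hs']
    abel
  · have h1 : F q ∈ Metric.thickening δ (K \ N) := by
      rw [Metric.mem_thickening_iff]
      refine ⟨_, ⟨hq, hN⟩, ?_⟩
      rw [F3, dist_eq_norm, add_sub_cancel_left, norm_smul, Real.norm_of_nonneg (c8 _).1]
      have h2 := mul_le_mul_of_nonneg_right (c8 q).2 (norm_nonneg v)
      linarith
    exact hd1 h1 he

/-- a diffeomorphism with support in the complement of `U` is the identity near `U` -/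
theorem near_U {G₀ : Set (ℂ × ℝ)} (hU : U ⊆ G₀) {F : Equiv.Perm (ℂ × ℝ)} (hF : CD G₀ᶜ F) :
    ∃ r : ℝ, 0 < r ∧ ∀ q : ℂ × ℝ, ‖q.1‖ ≤ r → F q = q := by
  obtain ⟨K', c2, c5, hFK⟩ := hF.supp
  obtain ⟨r, hr0, hr1⟩ := c2.exists_forall_le' (f := fun q : ℂ × ℝ => ‖q.1‖) (a := 0)
    (by fun_prop) (by
      intro q hq
      rw [norm_pos_iff]
      intro h1
      exact c5 hq (hU h1))
  refine ⟨r / 2, by positivity, fun q hq => ?_⟩
  apply hFK
  intro hq'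
  have h1 : r ≤ ‖q.1‖ := hr1 q hq'
  linarith

/-- a diffeomorphism is the identity near the points of the closed set which is fixed -/
theorem near_fix {G₀ : Set (ℂ × ℝ)} {F : Equiv.Perm (ℂ × ℝ)} (hF : CD G₀ᶜ F) {x : ℂ × ℝ} (hx : x ∈ G₀) :
    ∀ᶠ q in 𝓝 x, F q = q := by
  obtain ⟨K', c2, c5, hFK⟩ := hF.supp
  filter_upwards [c2.isClosed.isOpen_compl.mem_nhds (fun h => c5 h hx)] with q hq
  exact hFK q hq

end Pool.Agent.KNS
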