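import Pool.Agent.KNS.StrF
import Pool.Agent.KNT.LinA

/-!
# KNS/Lin: linear strips
-/

open scoped ContDiff Topology
open Set Filter
open Pool.Agent.CSG (stp)
open Pool.Agent.RSG (ex)
open Pool.Agent.KNT
open Pool.Agent.LKF (PEq BdC BdT)

namespace Pool.Agent.KNS

theorem cfb_lin {L : SL} {B : Set (ℂ × ℝ)} {t : ℝ} {g k : ℝ → ℂ × ℝ} (hd : Dat (Sp L ∪ B) t g k) (hL : Cfb L B) :
    ∃ e₀ : ℝ, 0 < e₀ ∧ e₀ ≤ 1 ∧ ∀ e : ℝ, 0 < e → e ≤ e₀ → Cfb ((t, Lin g k e) :: L) B := by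
  obtain ⟨e₀, h0, h1, h2⟩ := strips_of_core (coreFam_lin (LinA_const hd) one_pos) hL.closed
  refine ⟨e₀, h0, h1, fun e he hee => ?_⟩
  obtain ⟨h3, h4⟩ := h2 e he hee 0 ⟨le_rfl, zero_le_one⟩
  rw [thin_lin, one_mul] at h3 h4
  exact cfb_cons.2 ⟨h3, hL, h4⟩

theorem kn_lin {L : SL} {B : Set (ℂ × ℝ)} {t c : ℝ} {g k : ℝ → ℂ × ℝ} (hd : Dat (Sp L ∪ B) t g k)
    {Φ : ℝ × ℝ → ℂ × ℝ} (hc : 0 < c) (hCB : Cfb ((t, Φ) :: L) B) (hg : ∀ x ∈ Icc 0 (1 + t), Φ (x, 0) = g x)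
    (hk : ∀ x ∈ Icc 0 (1 + t), nrm Φ x = c • k x) :
    ∃ e₀ : ℝ, 0 < e₀ ∧ e₀ ≤ 1 ∧ ∀ e : ℝ, 0 < e → e ≤ e₀ →
      Cfb ((t, Lin g k e) :: L) B ∧ PEq (Kn ((t, Φ) :: L)) B (Kn ((t, Lin g k e) :: L)) B := by
  have hC := hCB.conf
  have hLB : Cfb L B := (cfb_cons.1 hCB).2.1
  have hΦ : Strip t Φ := hC.1 (t, Φ) List.mem_cons_self
  have hL : Conf L := ⟨fun p hp => hC.1 p (List.mem_cons_of_mem _ hp), (List.pairwise_cons.1 hC.2).2⟩
  have ht : 0 < t := hd.pos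
  have h0 : (0 : ℝ) ∈ Icc 0 (1 + t) := ⟨le_rfl, by linarith⟩
  -- the profile
  have hk2 : (k 0).2 ≠ 0 := by
    intro h1
    have h2 : k 0 = 0 := Prod.ext hd.base h1
    have h3 := (hd.imm 0 h0).ne_zero (1 : Fin 2)
    exact h3 h2
  obtain ⟨η, hη⟩ : ∃ η : ℝ → ℝ, ∀ y, η y = ((Φ (0, y)).2 - (Φ (0, 0)).2) / (k 0).2 :=
    ⟨fun y => ((Φ (0, y)).2 - (Φ (0, 0)).2) / (k 0).2, fun y => rfl⟩
  have cη : ContDiff ℝ ∞ η := by
    have e : η = fun y => ((Φ (0, y)).2 - (Φ (0, 0)).2) / (k 0).2 := funext hη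
    rw [e]
    have h1 : ContDiff ℝ ∞ fun y : ℝ => Φ (0, y) := hΦ.smooth.comp (contDiff_const.prodMk contDiff_id)
    exact (h1.snd.sub contDiff_const).div_const _
  have hη0 : η 0 = 0 := by rw [hη, sub_self, zero_div]
  have hηd : HasDerivAt η c 0 := by
    have e : η = fun y => ((Φ (0, y)).2 - (Φ (0, 0)).2) / (k 0).2 := funext hη
    have h1 : HasDerivAt (fun y : ℝ => Φ (0, y)) (nrm Φ 0) 0 := by
      have h2 : ContDiff ℝ ∞ fun y : ℝ => Φ (0, y) := hΦ.smooth.comp (contDiff_const.prodMk contDiff_id)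
      exact (h2.differentiable (by simp) 0).hasDerivAt
    have h2 : HasDerivAt (fun y : ℝ => (Φ (0, y)).2) (nrm Φ 0).2 0 :=
      (ContinuousLinearMap.snd ℝ ℂ ℝ).hasFDerivAt.comp_hasDerivAt (0 : ℝ) h1
    have h3 := (h2.sub_const (Φ (0, 0)).2).div_const (k 0).2
    rw [← e, hk 0 h0, Prod.smul_snd, smul_eq_mul, mul_div_assoc, div_self hk2, mul_one] at h3
    exact h3
  -- the family
  have hQ0 : ∀ y : ℝ, |y| ≤ 1 → LinA_Q g k η (0, y) = Φ (0, y) := by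
    intro y hy
    refine Prod.ext ?_ ?_
    · show (g 0 + η y • k 0).1 = (Φ (0, y)).1
      rw [Prod.fst_add, Prod.smul_fst, (hd.off 0 h0).2 (Or.inl rfl), hd.base, smul_zero, add_zero,
        hΦ.foot y hy]
    · show (g 0 + η y • k 0).2 = (Φ (0, y)).2
      rw [Prod.snd_add, Prod.smul_snd, hη, ← hg 0 h0, smul_eq_mul, div_mul_cancel₀ _ hk2]
      ring
  have cQ : ContDiff ℝ ∞ (LinA_Q g k η) :=
    (hd.smg.comp contDiff_fst).add ((cη.comp contDiff_snd).smul (hd.smk.comp contDiff_fst))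
  obtain ⟨Ψ, hΨ⟩ : ∃ Ψ : ℝ → ℝ × ℝ → ℂ × ℝ, ∀ l q, Ψ l q = (1 - l) • Φ q + l • LinA_Q g k η q :=
    ⟨fun l q => (1 - l) • Φ q + l • LinA_Q g k η q, fun l q => rfl⟩
  have hΨ0 : Ψ 0 = Φ := by
    funext q
    rw [hΨ, sub_zero, one_smul, zero_smul, add_zero]
  have hΨ1 : Ψ 1 = LinA_Q g k η := by
    funext q
    rw [hΨ, sub_self, zero_smul, one_smul, zero_add]
  have hQx : ∀ x, LinA_Q g k η (x, 0) = g x := by
    intro x
    show g x + η 0 • k x = g x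
    rw [hη0, zero_smul, add_zero]
  have hcore : CoreFam (Sp L ∪ B) t Ψ := by
    refine LinA_core (LinA_const hd) hc ?_ ?_ ?_ ?_ ?_
    · have e : (fun p : ℝ × (ℝ × ℝ) => Ψ p.1 p.2) =
          fun p => (1 - p.1) • Φ p.2 + p.1 • LinA_Q g k η p.2 := funext fun p => hΨ p.1 p.2
      rw [e]
      exact ((contDiff_const.sub contDiff_fst).smul (hΦ.smooth.comp contDiff_snd)).add
        (contDiff_fst.smul (cQ.comp contDiff_snd))
    · intro l _ y hy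
      rw [hΨ, hΨ0, hQ0 y hy, ← add_smul, sub_add_cancel, one_smul]
    · intro y hy
      rw [hΨ0]
      exact hΦ.foot y hy
    · intro l _ x hx
      rw [hΨ, hQx, hg x hx, ← add_smul, sub_add_cancel, one_smul]
    · intro l _ x hx
      have h1 := LinA_fdΦ (c := c) ht hd.smg hΦ.smooth hg hk hx
      have h2 := LinA_fdQ hd.smg hd.smk hη0 hηd x
      have h3 := (h1.const_smul (1 - l)).add (h2.const_smul l)
      have e : Ψ l = fun q => (1 - l) • Φ q + l • LinA_Q g k η q := funext fun q => hΨ l q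
      rw [e]
      refine h3.congr_fderiv ?_
      rw [← add_smul, sub_add_cancel, one_smul]
  obtain ⟨e₁, he₁, he₁', hfam⟩ := strip_fam (Φ := Ψ) (by rw [hΨ0]; exact hCB) hcore
  rw [hΨ0, hΨ1] at hfam
  obtain ⟨e₀, he₀, he₀', hconf⟩ := cfb_lin hd hLB
  refine ⟨e₀, he₀, he₀', fun e₂ he₂ hee₂ => ?_⟩
  have hC2 := hconf e₂ he₂ hee₂
  refine ⟨hC2, ?_⟩
  -- choice of `e`
  have hηd' : ContDiff ℝ ∞ (deriv η) := by
    have h1 : ContDiff ℝ (∞ + 1) η := cη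
    exact (contDiff_succ_iff_deriv.1 h1).2.2
  have ev1 : ∀ᶠ s in 𝓝 (0 : ℝ), 0 < deriv η s := by
    have h1 : ContinuousAt (deriv η) 0 := hηd'.continuous.continuousAt
    exact h1.eventually (lt_mem_nhds (by rw [hηd.deriv]; exact hc))
  have ev2 : ∀ᶠ s in 𝓝 (0 : ℝ), |η s| < e₂ := by
    have h1 : ContinuousAt (fun s => |η s|) 0 := cη.continuous.abs.continuousAt
    exact h1.eventually_lt_const (by
      show |η 0| < e₂
      rw [hη0, abs_zero]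
      exact he₂)
  obtain ⟨ε, hε, hball⟩ := Metric.eventually_nhds_iff.1 (ev1.and ev2)
  obtain ⟨e, he, hee₁, heε⟩ : ∃ e : ℝ, 0 < e ∧ e ≤ e₁ ∧ e < ε :=
    ⟨min e₁ (ε / 2), lt_min he₁ (by linarith), min_le_left _ _, (min_le_right _ _).trans_lt (by linarith)⟩
  have hsm : ∀ y ∈ Icc (-1 : ℝ) 1, 0 < deriv η (e * y) ∧ |η (e * y)| < e₂ := by
    intro y hy
    refine hball ?_
    rw [Real.dist_0_eq_abs, abs_mul, abs_of_pos he]
    have : |y| ≤ 1 := abs_le.2 hy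
    nlinarith
  obtain ⟨-, hL1⟩ := hfam e he hee₁
  have hrep : IsRep t t id (fun y => η (e * y) / e₂) := by
    refine ⟨contDiff_id, (cη.comp (contDiff_const.mul contDiff_id)).div_const _, ht, rfl, rfl, ?_, le_rfl,
      ?_, ?_, ?_⟩
    · intro x _
      rw [deriv_id]
      exact one_pos
    · simp only [mul_zero, hη0, zero_div]
    · intro y hy
      have h1 : HasDerivAt (fun y => η (e * y) / e₂) (deriv η (e * y) * e / e₂) y := by
        have h2 : HasDerivAt (fun y : ℝ => e * y) e y := by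
          have := (hasDerivAt_id y).const_mul e
          simpa using this
        have h3 : HasDerivAt η (deriv η (e * y)) (e * y) :=
          (cη.differentiable (by simp) _).hasDerivAt
        exact (HasDerivAt.comp y h3 h2).div_const e₂
      rw [h1.deriv]
      exact div_pos (mul_pos (hsm y hy).1 he) he₂
    · intro y hy
      rw [abs_div, abs_of_pos he₂, div_le_one he₂]
      exact (hsm y hy).2.le
  have hL2 := rep_PEq hrep hC2
  have e3 : Rpm id (fun y => η (e * y) / e₂) (Lin g k e₂) = thin e (LinA_Q g k η) := by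
    funext q
    show g q.1 + (e₂ * (η (e * q.2) / e₂)) • k q.1 = g q.1 + η (e * q.2) • k q.1
    rw [mul_div_cancel₀ _ he₂.ne']
  rw [e3] at hL2
  exact hL1.trans hL2.symm

/-- The knot only depends on the jet of the strip along the core. -/
theorem kn_jet {L : SL} {B : Set (ℂ × ℝ)} {t c : ℝ} {Φ Ψ : ℝ × ℝ → ℂ × ℝ} (hc : 0 < c) (hC : Cfb ((t, Φ) :: L) B)
    (hC' : Cfb ((t, Ψ) :: L) B) (hg : ∀ x ∈ Icc 0 (1 + t), Ψ (x, 0) = Φ (x, 0))
    (hk : ∀ x ∈ Icc 0 (1 + t), nrm Ψ x = c • nrm Φ x)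
    (hd : Dat (Sp L ∪ B) t (fun x => Φ (x, 0)) (nrm Φ)) :
    PEq (Kn ((t, Φ) :: L)) B (Kn ((t, Ψ) :: L)) B := by
  obtain ⟨e₀, he₀, -, h1⟩ := kn_lin hd one_pos hC (fun x _ => rfl) (fun x _ => (one_smul ℝ _).symm)
  obtain ⟨e₁, he₁, -, h2⟩ := kn_lin hd hc hC' hg hk
  have h3 := (h1 (min e₀ e₁) (lt_min he₀ he₁) (min_le_left _ _)).2
  have h4 := (h2 (min e₀ e₁) (lt_min he₀ he₁) (min_le_right _ _)).2
  exact h3.trans h4.symm

/-- It is enough to treat one linear strip. -/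
theorem gd_of_lin {L : SL} {B : Set (ℂ × ℝ)} {t e : ℝ} {g k : ℝ → ℂ × ℝ} (hd : Dat (Sp L ∪ B) t g k) (he : 0 < e)
    (hC : Cfb ((t, Lin g k e) :: L) B) (h : Tri (Kn ((t, Lin g k e) :: L)) B) : Gd L B t g k := by
  intro Φ c hc hC' hg hk
  obtain ⟨e₀, he₀, -, h1⟩ := kn_lin hd hc hC' hg hk
  obtain ⟨e₁, he₁, -, h2⟩ := kn_lin hd he hC (fun x _ => by
    show g x + (e * 0) • k x = g x
    rw [mul_zero, zero_smul, add_zero]) (fun x _ => nrm_lin g k e x)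
  have h3 := (h1 (min e₀ e₁) (lt_min he₀ he₁) (min_le_left _ _)).2
  have h4 := (h2 (min e₀ e₁) (lt_min he₀ he₁) (min_le_right _ _)).2
  exact Tri.of_peq (h3.trans h4.symm) h

end Pool.Agent.KNS
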