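import Pool.Agent.KNS.CMn
import Pool.Agent.KNS.EFin
import Pool.Agent.KNS.FFin
import Pool.Agent.KNS.GE
import Pool.Agent.KNT.Main3

/-!
# KNS/Main: every long knot with spectators is the axis, with dragged spectators
-/

open scoped ContDiff Topology
open Set Filter
open Pool.Agent.KNT
open Pool.Agent.LKF (PEq)

namespace Pool.Agent.KNS

theorem all_HG {u : ℕ} (IH : ∀ (L : SL) (B : Set (ℂ × ℝ)), L.length = u → Cfb L B → Tri (Kn L) B) (t : ℝ)
    (g : ℝ → ℂ × ℝ) : HG u t g := by
  refine Ccore_normal (fun c R θ₀ θ₁ δ t ρ θ h hn hg hi => ?_) t g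
  exact straight_HG' hn hg hi (Ffinal_HG IH θ₀ hn.R_ne hn.t_pos)

theorem all_cfb (u : ℕ) : ∀ (L : SL) (B : Set (ℂ × ℝ)), L.length = u → Cfb L B → Tri (Kn L) B := by
  induction u with
  | zero =>
    intro L B hL hC
    rw [List.length_eq_zero_iff.1 hL, Kn_nil]
    exact Tri.base hC.dU
  | succ u ih =>
    intro L B hL hC
    match L, hL, hC with
    | (t, Φ) :: L, hL, hC =>
      exact all_HG ih t (fun x => Φ (x, 0)) Φ L B (by simpa using hL) hC fun x _ => rfl

/-- **Block S.** Every long knot with spectators becomes the axis, the spectators are only dragged. -/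
theorem S_main {K B : Set (ℂ × ℝ)} (hK : LongK K) (hB : Spc B) (hKB : Disjoint K B) :
    ∃ F : Equiv.Perm (ℂ × ℝ), CD univ F ∧ Disjoint U (F '' B) ∧ PEq K B U (F '' B) := by
  obtain ⟨L, F, hF, hFK, hC⟩ := long_strips hK hB hKB
  have h := all_cfb _ L (F '' B) rfl hC
  rw [← hFK] at h
  exact Tri.diff hF h

end Pool.Agent.KNS
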