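import Pool.Agent.KNS.Arc
import Pool.Agent.KNT.ProfI

/-!
# KNS/Prof: the profile of a finger may be changed
-/

open scoped ContDiff Topology
open Set Filter
open Pool.Agent.CSG (stp)
open Pool.Agent.RSG (ex)
open Pool.Agent.KNT
open Pool.Agent.LKF (PEq BdC BdT)

namespace Pool.Agent.KNS

theorem prof_PEq {t : ℝ} {Φ : ℝ × ℝ → ℂ × ℝ} {L : SL} {B : Set (ℂ × ℝ)}
    (hc : Cfb ((t, Φ) :: L) B) {r : ℝ} (hr : r < 1)
    {p p' : ℝ → ℝ} (hp : IsPrf t r p) (hp' : IsPrf t r p') :
    PEq (Zr Φ L ∪ gr Φ p) B (Zr Φ L ∪ gr Φ p') B := by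
  have h := hc.conf
  have hS : Strip t Φ := (conf_cons.1 h).1
  have hr0 : 0 < r := by
    by_contra hn
    push Not at hn
    have h1 := hp.zero 0 (by rw [abs_zero]; exact hn)
    have h2 := hp.one
    linarith
  set k : ℝ → ℝ → ℂ × ℝ := fun s y => Φ ((1 - s) * p y + s * p' y, y) with hk
  have hrec : ∀ s ∈ Icc (0 : ℝ) 1, ∀ y ∈ Icc (-1 : ℝ) 1,
      ((1 - s) * p y + s * p' y, y) ∈ Rec t := by
    intro s hs y hy
    have h1 := hp.range y hy
    have h2 := hp'.range y hy
    refine ⟨⟨?_, ?_⟩, hy⟩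
    · have := mul_nonneg (sub_nonneg.2 hs.2) h1.1
      have := mul_nonneg hs.1 h2.1
      simp only
      linarith
    · have := mul_le_mul_of_nonneg_left h1.2 (sub_nonneg.2 hs.2)
      have := mul_le_mul_of_nonneg_left h2.2 hs.1
      simp only
      linarith
  have hk0 : gr Φ p = k 0 '' Icc (-1) 1 := by
    unfold gr
    simp only [hk]
    congr 1
    funext y
    simp
  have hk1 : gr Φ p' = k 1 '' Icc (-1) 1 := by
    unfold gr
    simp only [hk]
    congr 1
    funext y
    simp
  rw [hk0, hk1]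
  refine arc_PEq (Zr_closed h) hc.spc.cpt.isClosed hr0 hr ?_ ?_ ?_ ?_ ?_ ?_
  · have h1 : ContDiff ℝ ∞ fun q : ℝ × ℝ => ((1 - q.1) * p q.2 + q.1 * p' q.2, q.2) := by
      have := hp.smooth
      have := hp'.smooth
      fun_prop
    exact hS.smooth.comp h1
  · intro s hs y hy hry
    simp only [hk]
    rw [hp.zero y hry, hp'.zero y hry]
    simp
  · intro s hs y hy hz
    have hy1 : y ∈ Icc (-1 : ℝ) 1 := by
      rw [abs_le] at hy
      exact ⟨by linarith [hy.1], by linarith [hy.2]⟩
    rcases Zr_meet h (hrec s hs y hy1) hz with h1 | h1 | h1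
    · have h2 : y = 1 := congrArg Prod.snd h1
      rw [h2, abs_one] at hy
      linarith
    · have h2 : y = -1 := congrArg Prod.snd h1
      rw [h2, abs_neg, abs_one] at hy
      linarith
    · have h2 : y = 0 := congrArg Prod.snd h1
      have h3 : (1 - s) * p y + s * p' y = 1 := congrArg Prod.fst h1
      rw [h2] at h3
      have h4 := hp.one
      have h5 := hp'.one
      rcases eq_or_lt_of_le hs.1 with h6 | h6
      · rw [← h6] at h3
        linarith
      · have h7 := mul_nonneg (sub_nonneg.2 hs.2) (sub_nonneg.2 h4.le)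
        have h8 := mul_pos h6 (sub_pos.2 h5)
        nlinarith
  · intro s hs y hy hz
    have hy1 : y ∈ Icc (-1 : ℝ) 1 := by
      rw [abs_le] at hy
      exact ⟨by linarith [hy.1], by linarith [hy.2]⟩
    refine Set.disjoint_left.1 hc.dS ?_ hz
    rw [Sp_cons]
    exact Or.inl ⟨_, hrec s hs y hy1, rfl⟩
  · intro s hs y hy h0
    have hd : HasDerivAt (fun y : ℝ => (((1 - s) * p y + s * p' y, y) : ℝ × ℝ))
        (((1 - s) * deriv p y + s * deriv p' y, 1) : ℝ × ℝ) y := by
      have h1 : HasDerivAt p (deriv p y) y := (hp.smooth.differentiable (by simp) y).hasDerivAt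
      have h2 : HasDerivAt p' (deriv p' y) y := (hp'.smooth.differentiable (by simp) y).hasDerivAt
      exact ((h1.const_mul (1 - s)).add (h2.const_mul s)).prodMk (hasDerivAt_id y)
    have hΦ : HasFDerivAt Φ (fderiv ℝ Φ ((1 - s) * p y + s * p' y, y))
        ((1 - s) * p y + s * p' y, y) := (hS.smooth.differentiable (by simp) _).hasFDerivAt
    have h3 := HasFDerivAt.comp_hasDerivAt (l := Φ)
      (f := fun y : ℝ => (((1 - s) * p y + s * p' y, y) : ℝ × ℝ)) y hΦ hd
    have h4 : deriv (k s) y = fderiv ℝ Φ ((1 - s) * p y + s * p' y, y)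
        ((1 - s) * deriv p y + s * deriv p' y, 1) := h3.deriv
    rw [h4] at h0
    have h5 := hS.imm _ (hrec s hs y hy) (h0.trans (map_zero _).symm)
    exact one_ne_zero (congrArg Prod.snd h5)
  · intro s hs y hy y' hy' he
    have h1 := hS.inj (hrec s hs y hy) (hrec s hs y' hy') he
    exact congrArg Prod.snd h1

end Pool.Agent.KNS
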