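import Pool.Agent.KNS.Prof
import Pool.Agent.KNT.RepI

/-!
# KNS/Rep: reparametrisation of a strip
-/

open scoped ContDiff Topology
open Set Filter
open Pool.Agent.CSG (stp)
open Pool.Agent.RSG (ex)
open Pool.Agent.KNT
open Pool.Agent.LKF (PEq BdC BdT)

namespace Pool.Agent.KNS

theorem cfb_rep {t t' : ℝ} {χ ζ : ℝ → ℝ} (h : IsRep t t' χ ζ) {Φ : ℝ × ℝ → ℂ × ℝ} {L : SL} {B : Set (ℂ × ℝ)}
    (hC : Cfb ((t, Φ) :: L) B) : Cfb ((t', Rpm χ ζ Φ) :: L) B := by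
  obtain ⟨h1, h2, h3⟩ := cfb_cons.1 hC
  obtain ⟨h4, h5⟩ := strip_rep h h1
  exact cfb_cons.2 ⟨h4, h2, h3.mono_left h5⟩

theorem rep_PEq {t t' : ℝ} {χ ζ : ℝ → ℝ} (h : IsRep t t' χ ζ) {Φ : ℝ × ℝ → ℂ × ℝ} {L : SL}
    {B : Set (ℂ × ℝ)} (hc : Cfb ((t, Φ) :: L) B) : PEq (Kn ((t, Φ) :: L)) B (Kn ((t', Rpm χ ζ Φ) :: L)) B := by
  have hC := hc.conf
  obtain ⟨r, p, r1, r2, hp, p1, p2⟩ := RepI_prf h
  obtain ⟨hS, hL, hD⟩ := conf_cons.1 hC
  have ht := hS.pos
  have hpr : IsPrf t r (prf t) := by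
    have h0 := isPrf_prf ht
    exact ⟨h0.smooth, h0.range, fun y hy => prf_zero (r2.trans hy), h0.one⟩
  have key : Kn ((t', Rpm χ ζ Φ) :: L) = Zr Φ L ∪ gr Φ p := by
    rw [Kn_cons]
    have hbas : bas (Rpm χ ζ Φ) = (fun y : ℝ => Φ (0, y)) '' (ζ '' Ioo (-1) 1) := by
      unfold bas Rpm
      rw [image_image]
      simp only [h.χ0]
    have hbas' : bas (Rpm χ ζ Φ) ⊆ bas Φ := by
      rw [hbas]
      rintro _ ⟨_, ⟨y, hy, rfl⟩, rfl⟩
      exact ⟨ζ y, RepI_ζmem' h hy, rfl⟩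
    have hgr : ∀ z ∈ Icc (-1 : ℝ) 1, Rpm χ ζ Φ (prf t' z, z) = Φ (p (ζ z), ζ z) := by
      intro z hz
      rw [p1 z hz]
      rfl
    apply Subset.antisymm
    · rintro q (hq | ⟨z, hz, rfl⟩)
      · rcases hq with ⟨hU, hB⟩ | hF
        · by_cases hqb : q ∈ bas Φ
          · obtain ⟨y, hy, rfl⟩ := hqb
            right
            have hy2 : y ∉ ζ '' Ioo (-1) 1 := by
              intro hy3
              apply hB
              left
              rw [hbas]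
              exact ⟨y, hy3, rfl⟩
            have hpy : p y = 0 := by
              by_cases hy3 : y ∈ ζ '' Icc (-1 : ℝ) 1
              · obtain ⟨z, hz, rfl⟩ := hy3
                rw [p1 z hz, prf_zero, h.χ0]
                by_contra hlt
                push Not at hlt
                have h4 := abs_lt.1 hlt
                exact hy2 ⟨z, ⟨by linarith [h4.1], by linarith [h4.2]⟩, rfl⟩
              · exact p2 y hy3
            refine ⟨y, ⟨hy.1.le, hy.2.le⟩, ?_⟩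
            simp only [hpy]
          · left
            left
            refine ⟨hU, ?_⟩
            rintro (h1 | h1)
            · exact hqb h1
            · exact hB (Or.inr h1)
        · exact Or.inl (Or.inr hF)
      · right
        simp only [hgr z hz]
        exact ⟨ζ z, RepI_ζmem h hz, rfl⟩
    · rintro q (hq | ⟨y, hy, rfl⟩)
      · left
        rcases hq with ⟨hU, hB⟩ | hF
        · left
          refine ⟨hU, ?_⟩
          rintro (h1 | h1)
          · exact hB (Or.inl (hbas' h1))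
          · exact hB (Or.inr h1)
        · exact Or.inr hF
      · by_cases hy3 : y ∈ ζ '' Icc (-1 : ℝ) 1
        · obtain ⟨z, hz, rfl⟩ := hy3
          right
          refine ⟨z, hz, ?_⟩
          simp only [hgr z hz]
        · left
          left
          simp only [p2 y hy3]
          have hmem : ((0 : ℝ), y) ∈ Rec t := ⟨⟨le_rfl, by simp only; linarith⟩, hy⟩
          refine ⟨hS.foot y (abs_le.2 ⟨hy.1, hy.2⟩), ?_⟩
          rintro (h1 | h1)
          · rw [hbas] at h1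
            obtain ⟨_, ⟨z, hz, rfl⟩, he⟩ := h1
            have hz' : z ∈ Icc (-1 : ℝ) 1 := ⟨hz.1.le, hz.2.le⟩
            have h2 := hS.inj ⟨⟨le_rfl, by simp only; linarith⟩, RepI_ζmem h hz'⟩ hmem he
            exact hy3 ⟨z, hz', congrArg Prod.snd h2⟩
          · exact Set.disjoint_left.1 hD ⟨_, hmem, rfl⟩ (RepI_Bs_sub hL h1)
  rw [key, Kn_cons]
  exact prof_PEq hc r1 hpr hp

theorem thin_PEq {t t' e : ℝ} (ht' : 0 < t') (ht : t' ≤ t) (he : 0 < e) (he1 : e ≤ 1)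
    {Φ : ℝ × ℝ → ℂ × ℝ} {L : SL} {B : Set (ℂ × ℝ)} (hC : Cfb ((t, Φ) :: L) B) :
    Cfb ((t', thin e Φ) :: L) B ∧ PEq (Kn ((t, Φ) :: L)) B (Kn ((t', thin e Φ) :: L)) B := by
  have h := isRep_thin ht' ht he he1
  exact ⟨cfb_rep h hC, rep_PEq h hC⟩

theorem flip_Cfb {t : ℝ} {Φ : ℝ × ℝ → ℂ × ℝ} {L : SL} {B : Set (ℂ × ℝ)} (hC : Cfb ((t, Φ) :: L) B) :
    Cfb ((t, fun q => Φ (q.1, -q.2)) :: L) B ∧
      Kn ((t, fun q => Φ (q.1, -q.2)) :: L) = Kn ((t, Φ) :: L) := by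
  obtain ⟨h1, h2⟩ := flip_LEq hC.conf
  refine ⟨hC.congr h1 ?_, h2⟩
  rw [Sp_cons, Sp_cons]
  refine union_subset_union_left _ ?_
  rintro _ ⟨q, hq, rfl⟩
  exact ⟨(q.1, -q.2), ⟨hq.1, ⟨by linarith [hq.2.2], by linarith [hq.2.1]⟩⟩, rfl⟩

end Pool.Agent.KNS
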