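import Pool.Agent.KNS.Rep
import Pool.Agent.KNT.StrF

/-!
# KNS/StrF: isotopy of a thin strip (the other fingers and the spectators are fixed)
-/

open scoped ContDiff Topology
open Set Filter
open Pool.Agent.CSG (stp)
open Pool.Agent.RSG (ex)
open Pool.Agent.KNT
open Pool.Agent.LKF (PEq BdC BdT)

namespace Pool.Agent.KNS

theorem strip_fam {t : ℝ} {Φ : ℝ → ℝ × ℝ → ℂ × ℝ} {L : SL} {B : Set (ℂ × ℝ)}
    (hCB : Cfb ((t, Φ 0) :: L) B) (h : CoreFam (Sp L ∪ B) t Φ) : ∃ e₀ : ℝ, 0 < e₀ ∧ e₀ ≤ 1 ∧ ∀ e : ℝ, 0 < e → e ≤ e₀ →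
      Cfb ((t, thin e (Φ 1)) :: L) B ∧ PEq (Kn ((t, Φ 0) :: L)) B (Kn ((t, thin e (Φ 1)) :: L)) B := by
  have hC := hCB.conf
  have hLB : Cfb L B := (cfb_cons.1 hCB).2.1
  have hL : Conf L := hLB.conf
  have ht : 0 < t := h.pos
  obtain ⟨e₀, he₀, he₁, hs⟩ := strips_of_core h hLB.closed
  refine ⟨e₀, he₀, he₁, fun e he hee => ?_⟩
  have he1 : e ≤ 1 := hee.trans he₁
  have hcfb : ∀ l ∈ Icc (0 : ℝ) 1, Cfb ((t, thin e (Φ l)) :: L) B := fun l hl =>
    cfb_cons.2 ⟨(hs e he hee l hl).1, hLB, (hs e he hee l hl).2⟩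
  have hcf : ∀ l ∈ Icc (0 : ℝ) 1, Conf ((t, thin e (Φ l)) :: L) := fun l hl => (hcfb l hl).conf
  have h0 : (0 : ℝ) ∈ Icc (0 : ℝ) 1 := ⟨le_rfl, zero_le_one⟩
  have h1 : (1 : ℝ) ∈ Icc (0 : ℝ) 1 := ⟨zero_le_one, le_rfl⟩
  refine ⟨hcfb 1 h1, (thin_PEq ht le_rfl he he1 hCB).2.trans ?_⟩
  rw [Kn_cons, Kn_cons, StrF_Zr L h he he1 h1]
  have hmem : ∀ y : ℝ, |y| ≤ 1 → (prf t y, y) ∈ Rec t := fun y hy =>
    ⟨prf_mem ht y, abs_le.mp hy⟩
  have hsm : ContDiff ℝ ∞ fun p : ℝ × ℝ => thin e (Φ p.1) (prf t p.2, p.2) := by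
    have a1 : ContDiff ℝ ∞ fun p : ℝ × ℝ => (p.1, (prf t p.2, e * p.2)) :=
      contDiff_fst.prodMk (((prf_smooth t).comp contDiff_snd).prodMk
        (contDiff_const.mul contDiff_snd))
    exact h.sm.comp a1
  refine arc_PEq (Z := Zr (thin e (Φ 0)) L) (Zr_closed (hcf 0 h0)) hLB.spc.cpt.isClosed
    (k := fun s y => thin e (Φ s) (prf t y, y)) (r := 1 / 2) (by norm_num) (by norm_num) hsm
    ?_ ?_ ?_ ?_ ?_
  · intro s hs' y hy hy2
    show thin e (Φ s) (prf t y, y) = thin e (Φ 0) (prf t y, y)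
    rw [prf_zero (by linarith)]
    exact StrF_foot h he he1 hs' (abs_le.mpr hy)
  · intro s hs' y hy hz
    rw [← StrF_Zr L h he he1 hs'] at hz
    rcases Zr_meet (hcf s hs') (hmem y (by linarith)) hz with hq | hq | hq
    · have : y = 1 := congrArg Prod.snd hq
      rw [this, abs_one] at hy
      norm_num at hy
    · have : y = -1 := congrArg Prod.snd hq
      rw [this, abs_neg, abs_one] at hy
      norm_num at hy
    · have e1 : y = 0 := congrArg Prod.snd hq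
      have e2 : prf t y = 1 := congrArg Prod.fst hq
      rw [e1, prf_at_zero] at e2
      linarith
  · intro s hs' y hy hz
    refine Set.disjoint_left.1 (hcfb s hs').dS ?_ hz
    rw [Sp_cons]
    exact Or.inl ⟨_, hmem y (by linarith), rfl⟩
  · intro s hs' y hy hd
    have hS := (hs e he hee s hs').1
    have a1 : HasDerivAt (fun y : ℝ => (prf t y, y)) (deriv (prf t) y, (1 : ℝ)) y :=
      (((prf_smooth t).differentiable (by simp) y).hasDerivAt).prodMk (hasDerivAt_id y)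
    have a2 : HasFDerivAt (thin e (Φ s)) (fderiv ℝ (thin e (Φ s)) (prf t y, y)) (prf t y, y) :=
      (hS.smooth.differentiable (by simp) _).hasFDerivAt
    have a3 : HasDerivAt (fun y : ℝ => thin e (Φ s) (prf t y, y))
        (fderiv ℝ (thin e (Φ s)) (prf t y, y) (deriv (prf t) y, (1 : ℝ))) y :=
      HasFDerivAt.comp_hasDerivAt (f := fun y : ℝ => (prf t y, y)) y a2 a1
    have a4 : deriv (fun y : ℝ => thin e (Φ s) (prf t y, y)) y = 0 := hd
    rw [a3.deriv] at a4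
    have a5 := hS.imm _ (hmem y (abs_le.mpr hy)) (a4.trans (map_zero _).symm)
    have a6 : (1 : ℝ) = 0 := congrArg Prod.snd a5
    exact one_ne_zero a6
  · intro s hs' y hy y' hy' he'
    have hS := (hs e he hee s hs').1
    have a1 := hS.inj (hmem y (abs_le.mpr hy)) (hmem y' (abs_le.mpr hy')) he'
    exact congrArg Prod.snd a1

end Pool.Agent.KNS
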