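import Pool.Agent.KNS.Gen
import Pool.Agent.CLV.Ext
import Pool.Agent.LKN.Base

/-!
# KNS/Vert: vertical isotopies of long knots
-/

open scoped ContDiff Topology
open Set Filter
open Pool.Agent.KNT
open Pool.Agent.LKN (Long)

namespace Pool.Agent.KNS

/-- vertical move of long curves -/
def Vrel (w : ℝ → ℂ) (h h' : ℝ → ℝ) : Prop :=
  ∃ F : Equiv.Perm (ℂ × ℝ), CD univ F ∧ (∀ q, (F q).1 = q.1) ∧ ∀ l, F (w l, h l) = (w l, h' l)

theorem vert_near {R : ℝ} {w : ℝ → ℂ} {h g : ℝ → ℝ} (hL : Long R fun l => (w l, h l)) (hg : ContDiff ℝ ∞ g)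
    (he : ∀ l, R ≤ |l| → g l = 0) :
    ∃ ε : ℝ, 0 < ε ∧ ∀ s : ℝ, |s| < ε → Vrel w h (fun l => h l + s * g l) := by
  wlog hR : 0 ≤ R generalizing R
  · exact this (R := 0) (hL.mono (not_le.1 hR).le) (fun l hl => he l ((not_le.1 hR).le.trans hl)) le_rfl
  obtain ⟨M, hM⟩ := (isCompact_Icc (a := -(R + 1)) (b := R + 1)).exists_bound_of_continuousOn
    hL.smooth.continuous.continuousOn
  set T : Set (ℂ × ℝ) := {q | M + 1 ≤ ‖q‖} ∪ {q | q.1 = 0 ∧ R + 1 / 2 ≤ |q.2|} with hT
  have hTc : IsClosed T := by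
    refine (isClosed_le continuous_const continuous_norm).union (IsClosed.inter ?_ ?_)
    · exact isClosed_eq continuous_fst continuous_const
    · exact isClosed_le continuous_const continuous_snd.abs
  have hts : tsupport g ⊆ Icc (-R) R := by
    apply closure_minimal _ isClosed_Icc
    intro x hx
    by_contra hn
    apply hx
    apply he
    by_contra hlt
    exact hn (abs_le.1 (not_le.1 hlt).le)
  obtain ⟨u, hu1, hu2, hu3⟩ := CLV.ext_curve (V := ℂ × ℝ) (c := fun l => (w l, h l))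
    (C := Icc (-(R + 1)) (R + 1)) (fun l _ => Eventually.of_forall fun v => hL.smooth.contDiffAt)
    isCompact_Icc (hL.inj.injOn) (fun l _ => hL.imm l) hg hTc (by
      intro l hl hlt
      have hl2 := hts hlt
      rintro (h1 | ⟨h1, h2⟩)
      · have h3 := hM l hl
        have h4 : M + 1 ≤ ‖((w l, h l) : ℂ × ℝ)‖ := h1
        linarith
      · have h5 : R ≤ |h l| := by
          have : R + 1 / 2 ≤ |h l| := h2
          linarith
        have h6 := hL.ends (h l) h5
        have h7 : ((w l, h l) : ℂ × ℝ) = (w (h l), h (h l)) := by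
          have h8 : ((w (h l), h (h l)) : ℂ × ℝ) = (0, h l) := h6
          rw [h8]
          exact Prod.ext h1 rfl
        have h9 := hL.inj h7
        have h10 : |l| ≤ R := abs_le.2 hl2
        have : R + 1 / 2 ≤ |h l| := h2
        rw [← h9] at this
        linarith)
  have hcs : HasCompactSupport u := by
    refine HasCompactSupport.intro (isCompact_closedBall (0 : ℂ × ℝ) (M + 1)) fun q hq => ?_
    apply hu3
    left
    show M + 1 ≤ ‖q‖
    by_contra hlt
    exact hq (by simpa using (not_le.1 hlt).le)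
  obtain ⟨B, hB⟩ := (hcs.fderiv (𝕜 := ℝ)).exists_bound_of_continuous (hu1.continuous_fderiv (by simp))
  have hB0 : 0 ≤ B := (norm_nonneg _).trans (hB 0)
  refine ⟨1 / (2 * (B + 1)), by positivity, fun s hs => ?_⟩
  have hGs : ContDiff ℝ ∞ fun q : ℂ × ℝ => ((0 : ℂ), s * u q) :=
    contDiff_const.prodMk (contDiff_const.mul hu1)
  have hGd : ∀ x, ‖fderiv ℝ (fun q : ℂ × ℝ => ((0 : ℂ), s * u q)) x‖ ≤ 1 / 2 := by
    intro x
    have h1 : HasFDerivAt (fun q : ℂ × ℝ => ((0 : ℂ), s * u q))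
        ((0 : ℂ × ℝ →L[ℝ] ℂ).prod (s • fderiv ℝ u x)) x :=
      (hasFDerivAt_const (0 : ℂ) x).prodMk (((hu1.differentiable (by simp)) x).hasFDerivAt.const_mul s)
    rw [h1.fderiv]
    refine ContinuousLinearMap.opNorm_le_bound _ (by norm_num) fun v => ?_
    have h2 : ‖((0 : ℂ × ℝ →L[ℝ] ℂ).prod (s • fderiv ℝ u x)) v‖ = |s| * ‖fderiv ℝ u x v‖ := by
      rw [ContinuousLinearMap.prod_apply, Prod.norm_def]
      simp
      positivity
    rw [h2]
    have h3 := (fderiv ℝ u x).le_opNorm v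
    have h4 := hB x
    have h5 : |s| * ‖fderiv ℝ u x v‖ ≤ 1 / (2 * (B + 1)) * (B * ‖v‖) := by
      refine mul_le_mul hs.le (h3.trans (mul_le_mul_of_nonneg_right h4 (norm_nonneg _))) (norm_nonneg _) (by positivity)
    refine h5.trans ?_
    have h6 : 1 / (2 * (B + 1)) * (B * ‖v‖) = (B / (2 * (B + 1))) * ‖v‖ := by ring
    rw [h6]
    refine mul_le_mul_of_nonneg_right ?_ (norm_nonneg _)
    rw [div_le_div_iff₀ (by positivity) (by norm_num)]
    linarith
  obtain ⟨F, F1, F2, F3⟩ := Pool.Agent.ISO.small_perm hGs hGd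
  refine ⟨F, ⟨F1, F2, Metric.closedBall 0 (M + 1), isCompact_closedBall _ _, subset_univ _, ?_⟩, ?_, ?_⟩
  · intro q hq
    rw [F3]
    have : u q = 0 := by
      apply hu3
      left
      show M + 1 ≤ ‖q‖
      by_contra hlt
      exact hq (by simpa using (not_le.1 hlt).le)
    simp [this]
  · intro q
    rw [F3]
    simp
  · intro l
    rw [F3]
    have hul : u (w l, h l) = g l := by
      by_cases hl : l ∈ Icc (-(R + 1)) (R + 1)
      · exact hu2 l hl
      · have hl' : R + 1 ≤ |l| := by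
          by_contra hlt
          exact hl (abs_le.1 (not_le.1 hlt).le)
        rw [he l (by linarith)]
        apply hu3
        right
        have h6 := hL.ends l (by linarith)
        have h7 : ((w l, h l) : ℂ × ℝ) = (0, l) := h6
        rw [h7]
        exact ⟨rfl, by show R + 1 / 2 ≤ |l|; linarith⟩
    rw [hul]
    simp

theorem Vrel.refl (w : ℝ → ℂ) (h : ℝ → ℝ) : Vrel w h h :=
  ⟨Equiv.refl _, CD.one _, fun _ => rfl, fun _ => rfl⟩

theorem Vrel.symm {w : ℝ → ℂ} {h h' : ℝ → ℝ} (H : Vrel w h h') : Vrel w h' h := by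
  obtain ⟨F, h1, h2, h3⟩ := H
  refine ⟨F.symm, h1.inv, fun q => ?_, fun l => ?_⟩
  · have := h2 (F.symm q)
    rw [F.apply_symm_apply] at this
    exact this.symm
  · rw [Equiv.symm_apply_eq, h3]

theorem Vrel.trans {w : ℝ → ℂ} {h h' h'' : ℝ → ℝ} (H : Vrel w h h') (H' : Vrel w h' h'') : Vrel w h h'' := by
  obtain ⟨F, h1, h2, h3⟩ := H
  obtain ⟨G, g1, g2, g3⟩ := H'
  refine ⟨F.trans G, h1.comp g1, fun q => ?_, fun l => ?_⟩
  · show (G (F q)).1 = q.1
    rw [g2, h2]
  · show G (F (w l, h l)) = _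
    rw [h3, g3]

/-- **vertical isotopy extension** -/
theorem vert_iso {R : ℝ} {w : ℝ → ℂ} {h h' : ℝ → ℝ} (hh : ContDiff ℝ ∞ h) (hh' : ContDiff ℝ ∞ h')
    (hL : ∀ s ∈ Icc (0 : ℝ) 1, Long R fun l => (w l, (1 - s) * h l + s * h' l)) : Vrel w h h' := by
  have h0 : (0 : ℝ) ∈ Icc (0 : ℝ) 1 := ⟨le_rfl, zero_le_one⟩
  have h1 : (1 : ℝ) ∈ Icc (0 : ℝ) 1 := ⟨zero_le_one, le_rfl⟩
  have he : ∀ l, R ≤ |l| → h' l - h l = 0 := by
    intro l hl
    have e0 := congrArg Prod.snd ((hL 0 h0).ends l hl)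
    have e1 := congrArg Prod.snd ((hL 1 h1).ends l hl)
    simp only [sub_zero, one_mul, zero_mul, add_zero, sub_self, zero_add] at e0 e1
    rw [e0, e1, sub_self]
  have key := isPreconnected_Icc.induction₂ (s := Icc (0 : ℝ) 1)
    (fun s s' => Vrel w (fun l => (1 - s) * h l + s * h' l) (fun l => (1 - s') * h l + s' * h' l))
    (by
      intro s hs
      obtain ⟨ε, hε, H⟩ := vert_near (hL s hs) (g := fun l => h' l - h l) (hh'.sub hh) he
      have hn : ∀ᶠ s' in 𝓝 s, |s' - s| < ε := by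
        have : Tendsto (fun s' : ℝ => |s' - s|) (𝓝 s) (𝓝 |s - s|) :=
          ((continuous_id.sub continuous_const).abs).tendsto s
        rw [sub_self, abs_zero] at this
        exact this.eventually (gt_mem_nhds hε)
      filter_upwards [mem_nhdsWithin_of_mem_nhds hn] with s' hs'
      have := H (s' - s) hs'
      have e : (fun l => (1 - s) * h l + s * h' l + (s' - s) * (h' l - h l)) =
          fun l => (1 - s') * h l + s' * h' l := by
        funext l
        ring
      rw [e] at this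
      exact this)
    (by
      intro x y z _ _ _ hxy hyz
      exact hxy.trans hyz)
    (by
      intro x y _ _ hxy
      exact hxy.symm) h0 h1
  have e0 : (fun l => (1 - (0 : ℝ)) * h l + 0 * h' l) = h := by
    funext l
    ring
  have e1 : (fun l => (1 - (1 : ℝ)) * h l + 1 * h' l) = h' := by
    funext l
    ring
  have key' : Vrel w (fun l => (1 - (0 : ℝ)) * h l + 0 * h' l) (fun l => (1 - (1 : ℝ)) * h l + 1 * h' l) := key
  rw [e0, e1] at key'
  exact key'

end Pool.Agent.KNS
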